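import Pool.Agent.Lib.MP_0087d5_lcQC.Defs

/-!
# LEAF A1 (medium): the zeros of a definable integer of bounded size are definable

PROOF. The formula: `(∃ a b : Fin n, a ≠ b) ∧ ∀ q : S n, ¬ nv q = 0 → (0 < nv q ∧ (nv q : ℤ) ∣ φ n G X x)`; it is definable by `DefZ.dvd` (with `E := fun n => E n × S n`, from `hφ`), `DefP.nZero`, `DefP.all`, `DefP.ex`,
`DefP.imp` (compare `DefP.prS` in `Pool/Agent/Lib/MP_0087d5_lc/FN/MainD.lean`). `2 ≤ n` iff there are two different elements of `Fin n`. Let `2 ≤ n`. If `φ = 0` all `q` divide it. If `φ ≠ 0` take `D = φ.natAbs` and the prime number `p` of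
`exists_prime_not_dvd` (`Pool/Agent/Lib/MP_0087d5_lc/ZPri.lean`): `p ≤ 64 * (L n + 1) ^ 2 < n ^ dim S`, so `p = nv q` (`nv_surj`), and `q` does not divide `φ` (`Int.natCast_dvd`).
-/

set_option autoImplicit false
set_option linter.all false

namespace QIC

open Finset Pool.Agent Pool.Agent.PMNC MTC

theorem defP_zero {E S : ℕ → Type} [Env E] [Env S] [∀ n, Fintype (S n)]
    {φ : ∀ n : ℕ, SimpleGraph (Fin n) → Ctx n → E n → ℤ} (L : ℕ → ℕ)
    (hφ : DefZ (E := fun n => E n × S n) (S := S) (fun n y => y.2) (fun n G X y => φ n G X y.1))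
    (hb : ∀ n, 2 ≤ n → ∀ G X x, (φ n G X x).natAbs ≤ 2 ^ L n)
    (hL : ∀ n, 2 ≤ n → 64 * (L n + 1) ^ 2 < n ^ dim S) :
    DefP (fun n G X x => 2 ≤ n ∧ φ n G X x = 0) := by
  have h1 : DefP (fun n G X (x : E n) => ∃ a : Fin n, ∃ b : Fin n, ¬ a = b) := by
    refine DefP.exFin (DefP.exFin (E := fun n => E n × Fin n)
      (DefP.not (DefP.eqFin (E := fun n => (E n × Fin n) × Fin n) ?_ ?_)))
    · exact Tm.snd (F := E) (H := fun n => Fin n) (Tm.fst (F := fun n => E n × Fin n) (H := fun n => Fin n) Tm.id)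
    · exact Tm.snd (F := fun n => E n × Fin n) (H := fun n => Fin n) Tm.id
  have h2 : DefP (fun n G X (x : E n) =>
      ∀ q : S n, ¬ nv q = 0 → (0 < nv q ∧ ((nv q : ℕ) : ℤ) ∣ φ n G X x)) :=
    DefP.all (F := S) (P := fun n G X x q => ¬ nv q = 0 → (0 < nv q ∧ ((nv q : ℕ) : ℤ) ∣ φ n G X x))
      (DefP.imp (E := fun n => E n × S n) (DefP.not (DefP.nZero (Tm.snd Tm.id))) (DefZ.dvd hφ))
  refine DefP.congr (DefP.and h1 h2) fun n G X x => ?_
  constructor
  · rintro ⟨⟨a, b, hab⟩, h⟩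
    have h2n : 2 ≤ n := by
      have ha := a.2
      have hb' := b.2
      have hne : (a : ℕ) ≠ (b : ℕ) := fun h3 => hab (Fin.ext h3)
      omega
    refine ⟨h2n, ?_⟩
    by_contra h0
    obtain ⟨p, hp, hnd, hle⟩ := exists_prime_not_dvd (Int.natAbs_ne_zero.2 h0) (hb n h2n G X x)
    obtain ⟨q, hq⟩ := nv_surj (S := S) (n := n) (hle.trans_lt (hL n h2n))
    apply hnd
    have h3 := (h q (by rw [hq]; exact hp.ne_zero)).2
    rw [hq] at h3
    exact Int.natCast_dvd.1 h3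
  · rintro ⟨h2n, h0⟩
    refine ⟨⟨⟨0, by omega⟩, ⟨1, by omega⟩, ?_⟩, fun q hq => ⟨Nat.pos_of_ne_zero hq, ?_⟩⟩
    · intro h3
      have h4 := congrArg Fin.val h3
      exact absurd h4 (by norm_num)
    · rw [h0]
      exact dvd_zero _

end QIC
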