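import Pool.Agent.Lib.MP_0087d5_lcQC.A1

/-!
# LEAF A2 (medium, two theorems): exact products and powers of numbers given by tuples are definable

PROOF. Both are instances of `defP_zero` (leaf A1) with a large `S` (`exists_SS d` gives an `S` of dimension `d`, with `Fintype` instances). `nPow`: `φ = nv (b) ^ nv (j) - nv (c)` as an integer, `DefZ` by `DefZ.sub`, `DefZ.pow`, `DefZ.nv'` (over
`E n × S n`, modulus `y.2`; `DefZ.pow` needs `Fintype` for the type of the exponent and for `S`). Bounds (`nv_lt`, `2 ≤ n`): `nv b < n ^ a`, `nv j < n ^ d`, `nv c < n ^ g` with `a = dim A`, `d = dim B`, `g = dim C`, and `n ≤ 2 ^ n`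
(`Nat.lt_two_pow_self`), so `nv b ^ nv j ≤ (2 ^ (n * a)) ^ (n ^ d)` and `nv c ≤ 2 ^ (n * g)`; take `L n = n * a * n ^ d + n * g + 1` and the dimension `2 * (a + d + g) + 20` of `S`. (`natAbs (u - v) ≤ max u v` for natural `u, v`.)
If `n ≤ 1` then all `nv` are `0` (`nv_lt`: `nv < n ^ dim ≤ 1`) and `0 ^ 0 = 1 ≠ 0`, so the relation is false, as is `2 ≤ n ∧ ..`: `DefP.congr`.
`nMul`: in the same way for `2 ≤ n`; for `n ≤ 1` all numbers are `0` and the relation is true: the formula is `(2 ≤ n ∧ φ = 0) ∨ ¬ ∃ a b : Fin n, a ≠ b` (or `DefP.cardEq` with `{s : A n × B n // nv s.1 < nv a ∧ nv s.2 < nv b}` and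
`{u : C n // nv u < nv c}`, compare `DefP.leLogPow` in `Pool/Agent/Lib/MP_0087d5_lc/ZNum.lean`).
-/

set_option autoImplicit false
set_option linter.all false

namespace QIC

open Finset Pool.Agent Pool.Agent.PMNC MTC

private theorem A2_self (n a : ℕ) (hn : 2 ≤ n) : a ≤ n ^ a :=
  (Nat.lt_two_pow_self).le.trans (Nat.pow_le_pow_left hn a)

private theorem A2_nv {A : ℕ → Type} [Env A] {n : ℕ} (s : A n) : nv s ≤ 2 ^ (n * dim A) := by
  refine (nv_lt s).le.trans ?_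
  rw [pow_mul]
  exact Nat.pow_le_pow_left (Nat.lt_two_pow_self).le _

private theorem A2_zero {A : ℕ → Type} [Env A] {n : ℕ} (hn : ¬ 2 ≤ n) (s : A n) : nv s = 0 := by
  have h1 := nv_lt s
  have h2 : n ^ dim A ≤ 1 := by
    calc n ^ dim A ≤ 1 ^ dim A := Nat.pow_le_pow_left (by omega) _
      _ = 1 := one_pow _
  omega

private theorem A2_abs (u v U V : ℕ) (hu : u ≤ 2 ^ U) (hv : v ≤ 2 ^ V) :
    ((u : ℤ) - (v : ℤ)).natAbs ≤ 2 ^ (U + V + 1) := by
  have h1 : ((u : ℤ) - (v : ℤ)).natAbs ≤ u + v := by omega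
  have h2 : 2 ^ U ≤ 2 ^ (U + V) := Nat.pow_le_pow_right two_pos (by omega)
  have h3 : 2 ^ V ≤ 2 ^ (U + V) := Nat.pow_le_pow_right two_pos (by omega)
  rw [pow_succ]
  omega

private theorem A2_big (n t L : ℕ) (hn : 2 ≤ n) (hL : L + 1 ≤ n ^ (t + 3)) :
    64 * (L + 1) ^ 2 < n ^ (2 * t + 20) := by
  have h1 : (L + 1) ^ 2 ≤ n ^ (2 * t + 6) := by
    calc (L + 1) ^ 2 ≤ (n ^ (t + 3)) ^ 2 := Nat.pow_le_pow_left hL 2
      _ = n ^ (2 * t + 6) := by
        rw [← pow_mul]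
        congr 1
        ring
  have h2 : 64 ≤ n ^ 6 := by
    calc 64 = 2 ^ 6 := by norm_num
      _ ≤ n ^ 6 := Nat.pow_le_pow_left hn 6
  calc 64 * (L + 1) ^ 2 ≤ n ^ 6 * n ^ (2 * t + 6) := Nat.mul_le_mul h2 h1
    _ = n ^ (2 * t + 12) := by
      rw [← pow_add]
      congr 1
      ring
    _ < n ^ (2 * t + 20) := Nat.pow_lt_pow_right (by omega) (by omega)

private theorem A2_L1 (n a d g : ℕ) (hn : 2 ≤ n) :
    n * a * n ^ d + n * g + 1 + 1 ≤ n ^ ((a + d + g) + 3) := by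
  have h0 : ∀ k, 0 < n ^ k := fun k => Nat.pow_pos (by omega)
  have h1 : n * a * n ^ d ≤ n ^ (a + d + g + 1) := by
    calc n * a * n ^ d ≤ n * n ^ a * n ^ d :=
          Nat.mul_le_mul_right _ (Nat.mul_le_mul_left _ (A2_self n a hn))
      _ = n ^ (a + d + 1) := by ring
      _ ≤ n ^ (a + d + g + 1) := Nat.pow_le_pow_right (by omega) (by omega)
  have h2 : n * g ≤ n ^ (a + d + g + 1) := by
    calc n * g ≤ n * n ^ g := Nat.mul_le_mul_left _ (A2_self n g hn)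
      _ = n ^ (g + 1) := by ring
      _ ≤ n ^ (a + d + g + 1) := Nat.pow_le_pow_right (by omega) (by omega)
  have h3 : 2 ≤ n ^ (a + d + g + 1) := by
    calc 2 ≤ n := hn
      _ = n ^ 1 := (pow_one n).symm
      _ ≤ n ^ (a + d + g + 1) := Nat.pow_le_pow_right (by omega) (by omega)
  have h4 : n ^ (a + d + g + 3) = n ^ (a + d + g + 1) * n ^ 2 := by ring
  have h5 : 4 ≤ n ^ 2 := by
    calc 4 = 2 ^ 2 := by norm_num
      _ ≤ n ^ 2 := Nat.pow_le_pow_left hn 2
  have h6 : n ^ (a + d + g + 1) * 4 ≤ n ^ (a + d + g + 1) * n ^ 2 := Nat.mul_le_mul_left _ h5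
  rw [h4]
  omega

private theorem A2_L2 (n t : ℕ) (hn : 2 ≤ n) : n * t + 1 + 1 ≤ n ^ (t + 3) := by
  have h2 : n * t ≤ n ^ (t + 1) := by
    calc n * t ≤ n * n ^ t := Nat.mul_le_mul_left _ (A2_self n t hn)
      _ = n ^ (t + 1) := by ring
  have h3 : 2 ≤ n ^ (t + 1) := by
    calc 2 ≤ n := hn
      _ = n ^ 1 := (pow_one n).symm
      _ ≤ n ^ (t + 1) := Nat.pow_le_pow_right (by omega) (by omega)
  have h4 : n ^ (t + 3) = n ^ (t + 1) * n ^ 2 := by ring
  have h5 : 4 ≤ n ^ 2 := by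
    calc 4 = 2 ^ 2 := by norm_num
      _ ≤ n ^ 2 := Nat.pow_le_pow_left hn 2
  have h6 : n ^ (t + 1) * 4 ≤ n ^ (t + 1) * n ^ 2 := Nat.mul_le_mul_left _ h5
  rw [h4]
  omega

theorem nMul {E A B C : ℕ → Type} [Env E] [Env A] [Env B] [Env C] [∀ n, Fintype (A n)] [∀ n, Fintype (B n)]
    [∀ n, Fintype (C n)] {a : ∀ n : ℕ, E n → A n} {b : ∀ n : ℕ, E n → B n} {c : ∀ n : ℕ, E n → C n}
    (ha : Tm a) (hb : Tm b) (hc : Tm c) : DefP (fun n G X x => nv (a n x) * nv (b n x) = nv (c n x)) := by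
  obtain ⟨S, i1, i2, hS⟩ := exists_SS (2 * (dim A + dim B + dim C) + 20)
  have hp : Tm (fun n (y : E n × S n) => y.2) := Tm.snd Tm.id
  have hz := defP_zero (E := E) (S := S)
    (φ := fun n G X x => ((nv (a n x) : ℕ) : ℤ) * ((nv (b n x) : ℕ) : ℤ) - ((nv (c n x) : ℕ) : ℤ))
    (fun n => n * (dim A + dim B + dim C) + 1)
    (DefZ.sub hp (DefZ.mul hp (DefZ.nv' hp (ha.comp (Tm.fst Tm.id)))
      (DefZ.nv' hp (hb.comp (Tm.fst Tm.id)))) (DefZ.nv' hp (hc.comp (Tm.fst Tm.id))))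
    (fun n hn G X x => by
      have h1 : nv (a n x) * nv (b n x) ≤ 2 ^ (n * dim A + n * dim B) := by
        rw [pow_add]
        exact Nat.mul_le_mul (A2_nv _) (A2_nv _)
      have h2 := A2_abs _ _ _ _ h1 (A2_nv (c n x))
      have h3 : n * dim A + n * dim B + n * dim C + 1 = n * (dim A + dim B + dim C) + 1 := by ring
      rw [h3, Nat.cast_mul] at h2
      exact h2)
    (fun n hn => by
      rw [hS]
      exact A2_big n _ _ hn (A2_L2 n _ hn))
  refine DefP.congr (DefP.or hz (defP_card_le 1)) fun n G X x => ?_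
  by_cases hn : 2 ≤ n
  · constructor
    · rintro (⟨-, h⟩ | h)
      · have h1 : ((nv (a n x) * nv (b n x) : ℕ) : ℤ) = ((nv (c n x) : ℕ) : ℤ) := by
          rw [Nat.cast_mul]
          linarith
        exact_mod_cast h1
      · omega
    · intro h
      refine Or.inl ⟨hn, ?_⟩
      beta_reduce
      rw [← h, Nat.cast_mul, sub_self]
  · constructor
    · intro _
      rw [A2_zero hn, A2_zero hn, A2_zero hn]
    · intro _
      exact Or.inr (by omega)

theorem nPow {E A B C : ℕ → Type} [Env E] [Env A] [Env B] [Env C] [∀ n, Fintype (A n)] [∀ n, Fintype (B n)]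
    [∀ n, Fintype (C n)] {b : ∀ n : ℕ, E n → A n} {j : ∀ n : ℕ, E n → B n} {c : ∀ n : ℕ, E n → C n}
    (hb : Tm b) (hj : Tm j) (hc : Tm c) : DefP (fun n G X x => nv (b n x) ^ nv (j n x) = nv (c n x)) := by
  obtain ⟨S, i1, i2, hS⟩ := exists_SS (2 * (dim A + dim B + dim C) + 20)
  have hp : Tm (fun n (y : E n × S n) => y.2) := Tm.snd Tm.id
  have hz := defP_zero (E := E) (S := S)
    (φ := fun n G X x => ((nv (b n x) : ℕ) : ℤ) ^ nv (j n x) - ((nv (c n x) : ℕ) : ℤ))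
    (fun n => n * dim A * n ^ dim B + n * dim C + 1)
    (DefZ.sub hp (DefZ.pow hp (DefZ.nv' hp (hb.comp (Tm.fst Tm.id)))
      (hj.comp (Tm.fst Tm.id))) (DefZ.nv' hp (hc.comp (Tm.fst Tm.id))))
    (fun n hn G X x => by
      have h1 : nv (b n x) ^ nv (j n x) ≤ 2 ^ (n * dim A * n ^ dim B) := by
        calc nv (b n x) ^ nv (j n x) ≤ (2 ^ (n * dim A)) ^ nv (j n x) :=
              Nat.pow_le_pow_left (A2_nv _) _
          _ ≤ (2 ^ (n * dim A)) ^ n ^ dim B :=
              Nat.pow_le_pow_right (Nat.pow_pos two_pos) (nv_lt _).le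
          _ = 2 ^ (n * dim A * n ^ dim B) := (pow_mul _ _ _).symm
      have h2 := A2_abs _ _ _ _ h1 (A2_nv (c n x))
      rw [Nat.cast_pow] at h2
      exact h2)
    (fun n hn => by
      rw [hS]
      exact A2_big n _ _ hn (A2_L1 n _ _ _ hn))
  refine DefP.congr hz fun n G X x => ?_
  by_cases hn : 2 ≤ n
  · constructor
    · rintro ⟨-, h⟩
      have h1 : ((nv (b n x) ^ nv (j n x) : ℕ) : ℤ) = ((nv (c n x) : ℕ) : ℤ) := by
        rw [Nat.cast_pow]
        linarith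
      exact_mod_cast h1
    · intro h
      refine ⟨hn, ?_⟩
      beta_reduce
      rw [← h, Nat.cast_pow, sub_self]
  · constructor
    · rintro ⟨h, -⟩
      exact absurd h hn
    · intro h
      rw [A2_zero hn, A2_zero hn, A2_zero hn, pow_zero] at h
      omega

end QIC
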