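import Pool.Agent.Lib.MP_0087d5_lcQC.A2

/-!
# LEAF A3 (medium-): the digits are definable

PROOF. Let `m ≠ 0`, `r = R / m ^ j % m` (`dgt`). Formula: `¬ nv m = 0 ∧ ((∃ c q q' t a b : S n, nv m ^ nv j = nv c ∧ nv c * nv q = nv a ∧ nv a + nv t = nv R ∧ nv t < nv c ∧ nv m * nv q' = nv b ∧ nv b + nv r = nv q ∧ nv r < nv m) ∨
((¬ ∃ c : S n, nv m ^ nv j = nv c) ∧ nv r = 0))`: definable by `nPow`, `nMul` (leaf A2), `DefP.nAdd`, `DefP.nLt`, `DefP.nZero`. Equivalence: if some `c` has `nv c = m ^ j`: `q = R / c`, `t = R % c`, `q' = q / m`, `r = q % m`, all these numbers and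
`a = c q`, `b = m q'` are at most `R` (`nv_down'`); conversely `Nat.div_mod_unique`. If there is no such `c` then `m ^ j ≥ n ^ dim S > R` (`nv_surj`, `nv_lt`), so `R / m ^ j = 0` and the digit is `0`.
-/

set_option autoImplicit false
set_option linter.all false

namespace QIC

open Finset Pool.Agent Pool.Agent.PMNC MTC

private theorem A3_equiv {S : ℕ → Type} [Env S] {n : ℕ} (m R r : S n) (j : ℕ) (hm : nv m ≠ 0) :
    ((∃ w : S n × (S n × (S n × (S n × (S n × S n)))), nv m ^ j = nv w.1 ∧ nv w.1 * nv w.2.1 = nv w.2.2.1 ∧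
      nv w.2.2.1 + nv w.2.2.2.1 = nv R ∧ nv w.2.2.2.1 < nv w.1 ∧ nv m * nv w.2.2.2.2.1 = nv w.2.2.2.2.2 ∧
      nv w.2.2.2.2.2 + nv r = nv w.2.1 ∧ nv r < nv m) ∨
      ((¬ ∃ c : S n, nv m ^ j = nv c) ∧ nv r = 0)) ↔ nv r = dgt (nv m) (nv R) j := by
  have hm0 : 0 < nv m := Nat.pos_of_ne_zero hm
  have hbig : (¬ ∃ c : S n, nv m ^ j = nv c) → nv R / nv m ^ j = 0 := by
    intro h
    refine Nat.div_eq_of_lt (not_le.1 fun h1 => h ?_)
    obtain ⟨c, hc⟩ := nv_down' (b := R) h1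
    exact ⟨c, hc.symm⟩
  unfold dgt
  constructor
  · rintro (⟨⟨c, q, a, t, q', b⟩, h1, h2, h3, h4, h5, h6, h7⟩ | ⟨h1, h2⟩)
    · simp only at h1 h2 h3 h4 h5 h6 h7
      have hc0 : 0 < nv c := by omega
      have e1 : nv R / nv c = nv q := ((Nat.div_mod_unique hc0).2 ⟨by rw [h2]; omega, h4⟩).1
      have e2 : nv q % nv m = nv r := ((Nat.div_mod_unique hm0).2 ⟨by rw [h5]; omega, h7⟩).2
      rw [h1, e1, e2]
    · rw [hbig h1, h2, Nat.zero_mod]
  · intro h
    by_cases hc : ∃ c : S n, nv m ^ j = nv c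
    · left
      obtain ⟨c, hc⟩ := hc
      have hc0 : 0 < nv c := by
        rw [← hc]
        exact Nat.pow_pos hm0
      rw [hc] at h
      have e1 : nv c * (nv R / nv c) + nv R % nv c = nv R := Nat.div_add_mod _ _
      have e2 : nv m * (nv R / nv c / nv m) + nv R / nv c % nv m = nv R / nv c := Nat.div_add_mod _ _
      have e3 : nv R / nv c ≤ nv R := Nat.div_le_self _ _
      have e4 : nv R / nv c / nv m ≤ nv R / nv c := Nat.div_le_self _ _
      obtain ⟨q, hq⟩ := nv_down' (b := R) e3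
      obtain ⟨a, ha⟩ := nv_down' (b := R) (m := nv c * (nv R / nv c)) (by omega)
      obtain ⟨t, ht⟩ := nv_down' (b := R) (m := nv R % nv c) (by omega)
      obtain ⟨q', hq'⟩ := nv_down' (b := R) (e4.trans e3)
      obtain ⟨b, hb⟩ := nv_down' (b := R) (m := nv m * (nv R / nv c / nv m)) (by omega)
      refine ⟨(c, q, a, t, q', b), hc, ?_, ?_, ?_, ?_, ?_, ?_⟩
      · show nv c * nv q = nv a
        rw [hq, ha]
      · show nv a + nv t = nv R
        rw [ha, ht]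
        exact e1
      · show nv t < nv c
        rw [ht]
        exact Nat.mod_lt _ hc0
      · show nv m * nv q' = nv b
        rw [hq', hb]
      · show nv b + nv r = nv q
        rw [hb, hq, h]
        exact e2
      · rw [h]
        exact Nat.mod_lt _ hm0
    · right
      refine ⟨hc, ?_⟩
      rw [h, hbig hc, Nat.zero_mod]

theorem defP_dgt {E S H : ℕ → Type} [Env E] [Env S] [Env H] [∀ n, Fintype (S n)] [∀ n, Fintype (H n)]
    {m R r : ∀ n : ℕ, E n → S n} {j : ∀ n : ℕ, E n → H n} (hm : Tm m) (hR : Tm R) (hj : Tm j) (hr : Tm r) :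
    DefP (fun n G X x => ¬ nv (m n x) = 0 ∧ nv (r n x) = dgt (nv (m n x)) (nv (R n x)) (nv (j n x))) := by
  have hF : ∀ {f : ∀ n : ℕ, E n → S n}, Tm f →
      Tm (fun n (y : E n × (S n × (S n × (S n × (S n × (S n × S n)))))) => f n y.1) := fun hf => hf.comp (Tm.fst Tm.id)
  have hj' : Tm (fun n (y : E n × (S n × (S n × (S n × (S n × (S n × S n)))))) => j n y.1) := hj.comp (Tm.fst Tm.id)
  have T1 : Tm (E := fun n => E n × (S n × (S n × (S n × (S n × (S n × S n)))))) (F := S) (fun n e => e.2.1) :=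
    Tm.fst (Tm.snd Tm.id)
  have T2 : Tm (E := fun n => E n × (S n × (S n × (S n × (S n × (S n × S n)))))) (F := S) (fun n e => e.2.2.1) :=
    Tm.fst (Tm.snd (Tm.snd Tm.id))
  have T3 : Tm (E := fun n => E n × (S n × (S n × (S n × (S n × (S n × S n)))))) (F := S) (fun n e => e.2.2.2.1) :=
    Tm.fst (Tm.snd (Tm.snd (Tm.snd Tm.id)))
  have T4 : Tm (E := fun n => E n × (S n × (S n × (S n × (S n × (S n × S n)))))) (F := S) (fun n e => e.2.2.2.2.1) :=
    Tm.fst (Tm.snd (Tm.snd (Tm.snd (Tm.snd Tm.id))))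
  have T5 : Tm (E := fun n => E n × (S n × (S n × (S n × (S n × (S n × S n)))))) (F := S) (fun n e => e.2.2.2.2.2.1) :=
    Tm.fst (Tm.snd (Tm.snd (Tm.snd (Tm.snd (Tm.snd Tm.id)))))
  have T6 : Tm (E := fun n => E n × (S n × (S n × (S n × (S n × (S n × S n)))))) (F := S) (fun n e => e.2.2.2.2.2.2) :=
    Tm.snd (Tm.snd (Tm.snd (Tm.snd (Tm.snd (Tm.snd Tm.id)))))
  have h1 : DefP (fun n G X x => ∃ w : S n × (S n × (S n × (S n × (S n × S n)))),
      nv (m n x) ^ nv (j n x) = nv w.1 ∧ nv w.1 * nv w.2.1 = nv w.2.2.1 ∧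
      nv w.2.2.1 + nv w.2.2.2.1 = nv (R n x) ∧ nv w.2.2.2.1 < nv w.1 ∧
      nv (m n x) * nv w.2.2.2.2.1 = nv w.2.2.2.2.2 ∧
      nv w.2.2.2.2.2 + nv (r n x) = nv w.2.1 ∧ nv (r n x) < nv (m n x)) := by
    refine DefP.ex (F := fun n => S n × (S n × (S n × (S n × (S n × S n))))) ?_
    exact DefP.and (nPow (hF hm) hj' T1) (DefP.and (nMul T1 T2 T3) (DefP.and (DefP.nAdd T3 T4 (hF hR))
      (DefP.and (DefP.nLt T4 T1) (DefP.and (nMul (hF hm) T5 T6) (DefP.and (DefP.nAdd T6 (hF hr) T2)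
        (DefP.nLt (hF hr) (hF hm)))))))
  have h2 : DefP (fun n G X x => ∃ c : S n, nv (m n x) ^ nv (j n x) = nv c) :=
    DefP.ex (F := S) (nPow (hm.comp (Tm.fst Tm.id)) (hj.comp (Tm.fst Tm.id)) (Tm.snd Tm.id))
  have h3 := DefP.and (DefP.not (DefP.nZero hm)) (DefP.or h1 (DefP.and (DefP.not h2) (DefP.nZero hr)))
  refine h3.congr fun n G X x => ?_
  refine and_congr_right fun h0 => ?_
  exact A3_equiv (m n x) (R n x) (r n x) (nv (j n x)) h0

end QIC
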