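import Pool.Agent.Lib.MP_0087d5_lcQC.A2

/-!
# LEAF A4 (medium, five theorems): the number `kk n`

PROOF. `f k = k ^ log₂ k` is monotone for `k ≥ 1` (`Nat.pow_le_pow_left`, `Nat.pow_le_pow_right`, `Nat.log_mono_right`). `Nat.findGreatest_spec`, `Nat.le_findGreatest`, `Nat.findGreatest_le`; `f 1 = 1 ≤ n` for `1 ≤ n`, `f 2 = 2`.
`lt_kk_iff`: `v < kk n` iff `f (v + 1) ≤ n` (monotone), where `v + 1 ≤ n`.
`def_kk`: for `v : Fin n` (so `1 ≤ n`): `v < kk n` iff `(v + 1) ^ log₂ (v + 1) ≤ n`, iff for an `S` of dimension `3` (`exists_SS 3`) there are `a l c d : S n` with `nv a = v + 1` (`DefP.nSucc`), `nv (2) ^ nv l ≤ nv a < 2 ^ (nv l + 1)` (so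
`nv l = log₂ (v + 1)`, `Nat.log_eq_iff`; write `2` as an element `b : S n` with `nv b = 2`, i.e. the successor of the successor of zero, `nPow`; `2 ^ (l + 1)` is the double of `2 ^ l`: `DefP.nAdd`), `nv a ^ nv l = nv c` (`nPow`), and
`nv c ≤ n`, i.e. `nv c ≤ n ^ 1 ∧ 1 ≤ n`: `DefP.lePow 1`. For `n ≥ 2` all these numbers are less than `n ^ 3` if `c ≤ n`: `nv_surj` gives the elements. For `n = 1`: `v = 0`, `kk 1 = 1`, the statement is true; treat `n ≤ 1` separately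
(`defP_card_le 1 : DefP (n ≤ 1)`; the formula is `n ≤ 1 ∨ ..`).
-/

set_option autoImplicit false
set_option linter.all false

namespace QIC

open Finset Pool.Agent Pool.Agent.PMNC MTC

theorem kk_le (n : ℕ) : kk n ≤ n := by
  unfold kk
  exact Nat.findGreatest_le n

private theorem A4_mono {a b : ℕ} (ha : 1 ≤ a) (h : a ≤ b) : a ^ Nat.log 2 a ≤ b ^ Nat.log 2 b := by
  calc a ^ Nat.log 2 a ≤ b ^ Nat.log 2 a := Nat.pow_le_pow_left h _
    _ ≤ b ^ Nat.log 2 b := Nat.pow_le_pow_right (by omega) (Nat.log_mono_right h)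

theorem kk_pow {n : ℕ} (hn : 1 ≤ n) : kk n ^ Nat.log 2 (kk n) ≤ n := by
  have h1 : (fun k => k ^ Nat.log 2 k ≤ n) 1 := by
    show 1 ^ Nat.log 2 1 ≤ n
    rw [one_pow]
    exact hn
  exact Nat.findGreatest_spec (P := fun k => k ^ Nat.log 2 k ≤ n) hn h1

theorem kk_two {n : ℕ} (hn : 2 ≤ n) : 2 ≤ kk n := by
  have h1 : (fun k => k ^ Nat.log 2 k ≤ n) 2 := by
    show 2 ^ Nat.log 2 2 ≤ n
    have h2 : Nat.log 2 2 = 1 := by
      rw [Nat.log_eq_iff (Or.inl one_ne_zero)]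
      norm_num
    rw [h2, pow_one]
    exact hn
  exact Nat.le_findGreatest (P := fun k => k ^ Nat.log 2 k ≤ n) hn h1

theorem lt_kk_iff {n v : ℕ} (hv : v < n) : v < kk n ↔ (v + 1) ^ Nat.log 2 (v + 1) ≤ n := by
  constructor
  · intro h
    exact (A4_mono (Nat.succ_le_succ (Nat.zero_le v)) h).trans (kk_pow (by omega))
  · intro h
    exact Nat.le_findGreatest (P := fun k => k ^ Nat.log 2 k ≤ n) hv h

private theorem A4_equiv {S : ℕ → Type} [Env S] {n : ℕ} (hS : dim S = 3) (hn : 2 ≤ n) (v : Fin n) :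
    (∃ w : S n × (S n × (S n × (S n × (S n × (S n × (S n × S n)))))),
      nv w.1 = 0 ∧ nv w.1 + 1 = nv w.2.1 ∧ nv w.2.1 + 1 = nv w.2.2.1 ∧
      nv (S := fun n => Fin n) v + 1 = nv w.2.2.2.1 ∧ nv w.2.2.1 ^ nv w.2.2.2.2.1 = nv w.2.2.2.2.2.1 ∧
      nv w.2.2.2.2.2.1 ≤ nv w.2.2.2.1 ∧ nv w.2.2.2.2.2.1 + nv w.2.2.2.2.2.1 = nv w.2.2.2.2.2.2.1 ∧
      nv w.2.2.2.1 < nv w.2.2.2.2.2.2.1 ∧ nv w.2.2.2.1 ^ nv w.2.2.2.2.1 = nv w.2.2.2.2.2.2.2 ∧
      (nv w.2.2.2.2.2.2.2 ≤ n ^ 1 ∧ 1 ≤ n)) ↔ (v : ℕ) < kk n := by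
  rw [lt_kk_iff v.2, nv_fin]
  constructor
  · rintro ⟨⟨z, o, b, a, l, c, d, e⟩, h1, h2, h3, h4, h5, h6, h7, h8, h9, h10, -⟩
    simp only at h1 h2 h3 h4 h5 h6 h7 h8 h9 h10
    have hb : nv b = 2 := by omega
    rw [hb] at h5
    have hl : Nat.log 2 ((v : ℕ) + 1) = nv l := by
      rw [Nat.log_eq_iff (Or.inr ⟨by norm_num, by omega⟩), pow_succ]
      omega
    rw [hl, h4, h9]
    rw [pow_one] at h10
    exact h10
  · intro h
    set L := Nat.log 2 ((v : ℕ) + 1) with hL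
    have hv := v.2
    have hn3 : 4 * n ≤ n ^ dim S := by
      rw [hS]
      calc 4 * n ≤ n ^ 2 * n := Nat.mul_le_mul_right _ (by nlinarith)
        _ = n ^ 3 := by ring
    have hlt : L < (v : ℕ) + 1 := Nat.log_lt_self 2 (by omega)
    have hp := Nat.pow_log_le_self 2 (x := (v : ℕ) + 1) (by omega)
    have hq := Nat.lt_pow_succ_log_self (b := 2) (by norm_num) ((v : ℕ) + 1)
    rw [← hL] at hp hq
    rw [Nat.succ_eq_add_one, pow_succ] at hq
    obtain ⟨z, hz⟩ := nv_surj (S := S) (n := n) (m := 0) (by omega)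
    obtain ⟨o, ho⟩ := nv_surj (S := S) (n := n) (m := 1) (by omega)
    obtain ⟨b, hb⟩ := nv_surj (S := S) (n := n) (m := 2) (by omega)
    obtain ⟨a, ha⟩ := nv_surj (S := S) (n := n) (m := (v : ℕ) + 1) (by omega)
    obtain ⟨l, hl⟩ := nv_surj (S := S) (n := n) (m := L) (by omega)
    obtain ⟨c, hc⟩ := nv_surj (S := S) (n := n) (m := 2 ^ L) (by omega)
    obtain ⟨d, hd⟩ := nv_surj (S := S) (n := n) (m := 2 ^ L + 2 ^ L) (by omega)
    obtain ⟨e, he⟩ := nv_surj (S := S) (n := n) (m := ((v : ℕ) + 1) ^ L) (by omega)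
    refine ⟨(z, o, b, a, l, c, d, e), hz, ?_, ?_, ?_, ?_, ?_, ?_, ?_, ?_, ?_, by omega⟩
    · show nv z + 1 = nv o
      rw [hz, ho]
    · show nv o + 1 = nv b
      rw [ho, hb]
    · show (v : ℕ) + 1 = nv a
      rw [ha]
    · show nv b ^ nv l = nv c
      rw [hb, hl, hc]
    · show nv c ≤ nv a
      rw [hc, ha]
      exact hp
    · show nv c + nv c = nv d
      rw [hc, hd]
    · show nv a < nv d
      rw [ha, hd]
      omega
    · show nv a ^ nv l = nv e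
      rw [ha, hl, he]
    · show nv e ≤ n ^ 1
      rw [he, pow_one]
      exact h

private theorem A4_succ {E F H : ℕ → Type} [Env E] [Env F] [Env H] {f : ∀ n : ℕ, E n → F n} {g : ∀ n : ℕ, E n → H n}
    (hf : Tm f) (hg : Tm g) : DefP (fun n G X x => nv (f n x) + 1 = nv (g n x)) :=
  (DefP.nSucc hf hg).congr fun n G X x => eq_comm

theorem def_kk : DefP (E := fun n => Fin n) (fun n G X v => (v : ℕ) < kk n) := by
  obtain ⟨S, i1, i2, hS⟩ := exists_SS 3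
  have hv : Tm (E := fun n => Fin n × (S n × (S n × (S n × (S n × (S n × (S n × (S n × S n)))))))) (F := fun n => Fin n)
      (fun n e => e.1) := Tm.fst Tm.id
  have T0 : Tm (E := fun n => Fin n × (S n × (S n × (S n × (S n × (S n × (S n × (S n × S n)))))))) (F := S)
      (fun n e => e.2.1) := Tm.fst (Tm.snd Tm.id)
  have T1 : Tm (E := fun n => Fin n × (S n × (S n × (S n × (S n × (S n × (S n × (S n × S n)))))))) (F := S)
      (fun n e => e.2.2.1) := Tm.fst (Tm.snd (Tm.snd Tm.id))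
  have T2 : Tm (E := fun n => Fin n × (S n × (S n × (S n × (S n × (S n × (S n × (S n × S n)))))))) (F := S)
      (fun n e => e.2.2.2.1) := Tm.fst (Tm.snd (Tm.snd (Tm.snd Tm.id)))
  have T3 : Tm (E := fun n => Fin n × (S n × (S n × (S n × (S n × (S n × (S n × (S n × S n)))))))) (F := S)
      (fun n e => e.2.2.2.2.1) := Tm.fst (Tm.snd (Tm.snd (Tm.snd (Tm.snd Tm.id))))
  have T4 : Tm (E := fun n => Fin n × (S n × (S n × (S n × (S n × (S n × (S n × (S n × S n)))))))) (F := S)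
      (fun n e => e.2.2.2.2.2.1) := Tm.fst (Tm.snd (Tm.snd (Tm.snd (Tm.snd (Tm.snd Tm.id)))))
  have T5 : Tm (E := fun n => Fin n × (S n × (S n × (S n × (S n × (S n × (S n × (S n × S n)))))))) (F := S)
      (fun n e => e.2.2.2.2.2.2.1) := Tm.fst (Tm.snd (Tm.snd (Tm.snd (Tm.snd (Tm.snd (Tm.snd Tm.id))))))
  have T6 : Tm (E := fun n => Fin n × (S n × (S n × (S n × (S n × (S n × (S n × (S n × S n)))))))) (F := S)
      (fun n e => e.2.2.2.2.2.2.2.1) := Tm.fst (Tm.snd (Tm.snd (Tm.snd (Tm.snd (Tm.snd (Tm.snd (Tm.snd Tm.id)))))))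
  have T7 : Tm (E := fun n => Fin n × (S n × (S n × (S n × (S n × (S n × (S n × (S n × S n)))))))) (F := S)
      (fun n e => e.2.2.2.2.2.2.2.2) := Tm.snd (Tm.snd (Tm.snd (Tm.snd (Tm.snd (Tm.snd (Tm.snd (Tm.snd Tm.id)))))))
  have h1 : DefP (E := fun n => Fin n) (fun n G X v =>
      ∃ w : S n × (S n × (S n × (S n × (S n × (S n × (S n × S n)))))),
      nv w.1 = 0 ∧ nv w.1 + 1 = nv w.2.1 ∧ nv w.2.1 + 1 = nv w.2.2.1 ∧
      nv (S := fun n => Fin n) v + 1 = nv w.2.2.2.1 ∧ nv w.2.2.1 ^ nv w.2.2.2.2.1 = nv w.2.2.2.2.2.1 ∧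
      nv w.2.2.2.2.2.1 ≤ nv w.2.2.2.1 ∧ nv w.2.2.2.2.2.1 + nv w.2.2.2.2.2.1 = nv w.2.2.2.2.2.2.1 ∧
      nv w.2.2.2.1 < nv w.2.2.2.2.2.2.1 ∧ nv w.2.2.2.1 ^ nv w.2.2.2.2.1 = nv w.2.2.2.2.2.2.2 ∧
      (nv w.2.2.2.2.2.2.2 ≤ n ^ 1 ∧ 1 ≤ n)) := by
    refine DefP.ex (F := fun n => S n × (S n × (S n × (S n × (S n × (S n × (S n × S n))))))) ?_
    exact DefP.and (DefP.nZero T0) (DefP.and (A4_succ T0 T1) (DefP.and (A4_succ T1 T2)
      (DefP.and (A4_succ hv T3) (DefP.and (nPow T2 T4 T5) (DefP.and (DefP.nLe T5 T3)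
        (DefP.and (DefP.nAdd T5 T5 T6) (DefP.and (DefP.nLt T3 T6) (DefP.and (nPow T3 T4 T7)
          (DefP.lePow 1 T7)))))))))
  refine (DefP.or (defP_card_le 1) h1).congr fun n G X v => ?_
  by_cases hn : 2 ≤ n
  · constructor
    · rintro (h | h)
      · omega
      · exact (A4_equiv hS hn v).1 h
    · intro h
      exact Or.inr ((A4_equiv hS hn v).2 h)
  · have hv := v.2
    have hn1 : n = 1 := by omega
    subst hn1
    constructor
    · intro _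
      rw [lt_kk_iff hv]
      have h0 : (v : ℕ) = 0 := by omega
      rw [h0, zero_add, one_pow]
    · intro _
      exact Or.inl le_rfl

end QIC
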