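import Pool.Agent.Lib.MP_0087d5_lcQC.A3

/-!
# LEAF A5 (medium, two theorems): the weights are definable modulo a number

PROOF. Model: `defZ_powr`, `defZ_zr`, `sum_cnd_nv` in `Pool/Agent/Lib/MP_0087d5_lcMT/CA.lean`. (1) The digit as an integer modulo any `q`: `∑ r : S n, cnd (¬ nv m = 0 ∧ nv r = dgt (nv m) (nv R) (nv j)) (nv r) 0` (`DefZ.sum`, `DefZ.ite`, leaf A3 `defP_dgt`,
`DefZ.nv'`); for `m ≠ 0` it is `dgt m R j` because `dgt < m < n ^ dim S`. (2) `dgt ^ lab L u v` modulo `m`: if `u < v` it is `(dgt ^ u) ^ L * dgt ^ v`, otherwise `(dgt ^ v) ^ L * dgt ^ u` (`DefZ.pow` with `H := fun n => Fin n` and `H := S`,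
`nv_fin`, `DefZ.ite`, `DefP.lt`). (3) `dgt ^ lab % m` modulo `Q`: `∑ a : S n, cnd (rsd m a (dgt ^ lab)) (nv a) 0`: for `m ≠ 0` exactly one `a` counts, with `nv a = dgt ^ lab % m` (as in `defZ_powr`; `rsd_ex`, `rsd_unique`). (4) `wQ` modulo `Q`:
`∑ j : S n, cnd (nv j < nv s) (K ^ nv j * ..) 0` and `sum_cnd_nv`. (5) `defZ_pW`: `defZ_powr` with modulus `Q` for the exponent.
-/

set_option autoImplicit false
set_option linter.all false

namespace QIC

open Finset Pool.Agent Pool.Agent.PMNC MTC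

private theorem A5_dig {E S H : ℕ → Type} [Env E] [Env S] [Env H] [∀ n, Fintype (S n)] [∀ n, Fintype (H n)]
    {q m R : ∀ n : ℕ, E n → S n} {j : ∀ n : ℕ, E n → H n} (hq : Tm q) (hm : Tm m) (hR : Tm R) (hj : Tm j) :
    DefZ q (fun n G X x => cnd (nv (m n x) = 0) 0 ((dgt (nv (m n x)) (nv (R n x)) (nv (j n x)) : ℕ) : ℤ)) := by
  have h3 : DefZ q (fun n G X x => ∑ r : S n, cnd (¬ nv (m n x) = 0 ∧
      nv r = dgt (nv (m n x)) (nv (R n x)) (nv (j n x))) ((nv r : ℕ) : ℤ) 0) := by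
    refine DefZ.sum (F := S) hq (DefZ.ite (E := fun n => E n × S n) ?_ ?_ (DefZ.zero (hq.comp (Tm.fst Tm.id))))
    · exact defP_dgt (E := fun n => E n × S n) (S := S) (H := H) (m := fun n y => m n y.1) (R := fun n y => R n y.1)
        (r := fun n y => y.2) (j := fun n y => j n y.1) (hm.comp (Tm.fst Tm.id)) (hR.comp (Tm.fst Tm.id))
        (hj.comp (Tm.fst Tm.id)) (Tm.snd Tm.id)
    · exact DefZ.nv' (E := fun n => E n × S n) (H := S) (f := fun n y => y.2) (hq.comp (Tm.fst Tm.id)) (Tm.snd Tm.id)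
  refine h3.congr fun n G X x => ?_
  by_cases h0 : nv (m n x) = 0
  · rw [cnd_pos h0]
    exact Finset.sum_eq_zero fun e _ => cnd_neg (fun h => h.1 h0) _ _
  · rw [cnd_neg h0]
    have hlt : dgt (nv (m n x)) (nv (R n x)) (nv (j n x)) < nv (m n x) := Nat.mod_lt _ (Nat.pos_of_ne_zero h0)
    obtain ⟨e, he⟩ := nv_down hlt
    rw [Finset.sum_eq_single e]
    · rw [cnd_pos ⟨h0, he⟩, he]
    · intro e' _ hne
      exact cnd_neg (fun h => hne (nv_injective (h.2.trans he.symm))) _ _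
    · intro h
      exact absurd (Finset.mem_univ _) h

private theorem A5_lab {E S : ℕ → Type} [Env E] [Env S] [∀ n, Fintype (S n)] {q L : ∀ n : ℕ, E n → S n}
    (hq : Tm q) (hL : Tm L)
    {u v : ∀ n : ℕ, E n → Fin n} (hu : Tm (F := fun n => Fin n) u) (hv : Tm (F := fun n => Fin n) v)
    {φ : ∀ n : ℕ, SimpleGraph (Fin n) → Ctx n → E n → ℤ} (h : DefZ q φ) :
    DefZ q (fun n G X x => φ n G X x ^ lab (nv (L n x)) (u n x) (v n x)) := by
  have hU := DefZ.pow (H := fun n => Fin n) hq h hu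
  have hV := DefZ.pow (H := fun n => Fin n) hq h hv
  have h3 := DefZ.ite (DefP.lt hu hv) (DefZ.mul hq (DefZ.pow (H := S) hq hU hL) hV)
    (DefZ.mul hq (DefZ.pow (H := S) hq hV hL) hU)
  refine h3.congr fun n G X x => ?_
  unfold lab
  by_cases huv : u n x < v n x
  · rw [cnd_pos huv, nv_fin, nv_fin]
    have h1 : ((u n x : Fin n) : ℕ) ≤ (v n x : Fin n) := (Fin.lt_def.1 huv).le
    rw [min_eq_left h1, max_eq_right h1, pow_add, pow_mul]
  · rw [cnd_neg huv, nv_fin, nv_fin]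
    have h1 : ((v n x : Fin n) : ℕ) ≤ (u n x : Fin n) := Fin.le_def.1 (not_lt.1 huv)
    rw [min_eq_right h1, max_eq_left h1, pow_add, pow_mul]

private theorem A5_rem {E S : ℕ → Type} [Env E] [Env S] [∀ n, Fintype (S n)] {q m : ∀ n : ℕ, E n → S n}
    (hq : Tm q) (hm : Tm m)
    {φ : ∀ n : ℕ, SimpleGraph (Fin n) → Ctx n → E n → ℤ} (h : DefZ m φ) :
    DefZ q (fun n G X x => cnd (nv (m n x) = 0) 0 (φ n G X x % ((nv (m n x) : ℕ) : ℤ))) := by
  have h3 : DefZ q (fun n G X x => ∑ e : S n, cnd (rsd (m n x) e (φ n G X x)) ((nv e : ℕ) : ℤ) 0) := by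
    refine DefZ.sum (F := S) hq (DefZ.ite (E := fun n => E n × S n) h ?_ (DefZ.zero (hq.comp (Tm.fst Tm.id))))
    exact DefZ.nv' (E := fun n => E n × S n) (H := S) (f := fun n y => y.2) (hq.comp (Tm.fst Tm.id)) (Tm.snd Tm.id)
  refine h3.congr fun n G X x => ?_
  by_cases h0 : nv (m n x) = 0
  · rw [cnd_pos h0]
    refine Finset.sum_eq_zero fun e _ => cnd_neg (fun h => ?_) _ _
    have := h.1
    omega
  · rw [cnd_neg h0]
    have hpos : 0 < nv (m n x) := Nat.pos_of_ne_zero h0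
    obtain ⟨e, he⟩ := rsd_ex hpos (φ n G X x)
    have h4 : ((nv e : ℕ) : ℤ) = φ n G X x % ((nv (m n x) : ℕ) : ℤ) := by
      have h5 := he.1
      have h6 := he.2
      have h7 : ((nv e : ℕ) : ℤ) % ((nv (m n x) : ℕ) : ℤ) = φ n G X x % ((nv (m n x) : ℕ) : ℤ) :=
        (Int.modEq_iff_dvd).2 h6
      rw [← h7]
      exact (Int.emod_eq_of_lt (by omega) (by omega)).symm
    rw [Finset.sum_eq_single e]
    · rw [cnd_pos he, h4]
    · intro e' _ hne
      rw [cnd_neg]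
      intro h
      exact hne (rsd_unique h he (by simp))
    · intro h
      exact absurd (Finset.mem_univ _) h

theorem defZ_wQ {E S : ℕ → Type} [Env E] [Env S] [∀ n, Fintype (S n)] {K m s R L Q : ∀ n : ℕ, E n → S n}
    (hK : Tm K) (hm : Tm m) (hs : Tm s) (hR : Tm R) (hL : Tm L) (hQ : Tm Q)
    {u v : ∀ n : ℕ, E n → Fin n} (hu : Tm (F := fun n => Fin n) u) (hv : Tm (F := fun n => Fin n) v) :
    DefZ Q (fun n G X x => cnd (nv (m n x) = 0) 0
      ((wQ (nv (K n x)) (nv (m n x)) (nv (s n x)) (nv (R n x)) (lab (nv (L n x)) (u n x) (v n x)) : ℕ) : ℤ)) := by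
  have hc : ∀ {f : ∀ n : ℕ, E n → S n}, Tm f → Tm (fun n (y : E n × S n) => f n y.1) := fun hf =>
    hf.comp (Tm.fst Tm.id)
  have h1 := A5_dig (E := fun n => E n × S n) (S := S) (H := S) (q := fun n y => m n y.1) (m := fun n y => m n y.1)
    (R := fun n y => R n y.1) (j := fun n y => y.2) (hc hm) (hc hm) (hc hR) (Tm.snd Tm.id)
  have h2 := A5_lab (E := fun n => E n × S n) (S := S) (L := fun n y => L n y.1) (hc hm) (hc hL)
    (u := fun n y => u n y.1) (v := fun n y => v n y.1) (hu.comp (Tm.fst Tm.id)) (hv.comp (Tm.fst Tm.id)) h1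
  have h3 := A5_rem (E := fun n => E n × S n) (S := S) (q := fun n y => Q n y.1) (hc hQ) (hc hm) h2
  have hK' : DefZ (E := fun n => E n × S n) (fun n y => Q n y.1) (fun n G X y => ((nv (K n y.1) : ℕ) : ℤ) ^ nv y.2) :=
    DefZ.pow (E := fun n => E n × S n) (H := S) (f := fun n y => y.2) (hc hQ)
      (DefZ.nv' (E := fun n => E n × S n) (H := S) (f := fun n y => K n y.1) (hc hQ) (hc hK)) (Tm.snd Tm.id)
  have h4 : DefZ Q (fun n G X x => ∑ j : S n, cnd (nv j < nv (s n x)) (((nv (K n x) : ℕ) : ℤ) ^ nv j *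
      cnd (nv (m n x) = 0) 0 ((cnd (nv (m n x) = 0) 0 ((dgt (nv (m n x)) (nv (R n x)) (nv j) : ℕ) : ℤ)) ^
        lab (nv (L n x)) (u n x) (v n x) % ((nv (m n x) : ℕ) : ℤ))) 0) :=
    DefZ.sum (F := S) hQ (DefZ.ite (E := fun n => E n × S n)
      (DefP.nLt (F := S) (H := S) (Tm.snd Tm.id) (hc hs)) (DefZ.mul (hc hQ) hK' h3) (DefZ.zero (hc hQ)))
  refine h4.congr fun n G X x => ?_
  by_cases h0 : nv (m n x) = 0
  · rw [cnd_pos h0]
    refine Finset.sum_eq_zero fun e _ => ?_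
    rw [cnd_pos h0, mul_zero]
    by_cases he : nv e < nv (s n x)
    · exact cnd_pos he _ _
    · exact cnd_neg he _ _
  · rw [cnd_neg h0]
    have h5 := sum_cnd_nv (s n x) (fun j => ((nv (K n x) : ℕ) : ℤ) ^ j *
      (((dgt (nv (m n x)) (nv (R n x)) j : ℕ) : ℤ) ^ lab (nv (L n x)) (u n x) (v n x) % ((nv (m n x) : ℕ) : ℤ)))
    have h6 : ((wQ (nv (K n x)) (nv (m n x)) (nv (s n x)) (nv (R n x)) (lab (nv (L n x)) (u n x) (v n x)) : ℕ) : ℤ)
        = ∑ j ∈ range (nv (s n x)), ((nv (K n x) : ℕ) : ℤ) ^ j *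
      (((dgt (nv (m n x)) (nv (R n x)) j : ℕ) : ℤ) ^ lab (nv (L n x)) (u n x) (v n x) % ((nv (m n x) : ℕ) : ℤ)) := by
      unfold wQ
      push_cast
      rfl
    rw [h6, ← h5]
    refine Finset.sum_congr rfl fun e _ => ?_
    rw [cnd_neg h0, cnd_neg h0]

theorem defZ_pW {E S : ℕ → Type} [Env E] [Env S] [∀ n, Fintype (S n)] {K m s R L Q p : ∀ n : ℕ, E n → S n}
    (hK : Tm K) (hm : Tm m) (hs : Tm s) (hR : Tm R) (hL : Tm L) (hQ : Tm Q) (hp : Tm p)
    {u v : ∀ n : ℕ, E n → Fin n} (hu : Tm (F := fun n => Fin n) u) (hv : Tm (F := fun n => Fin n) v)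
    {ψ : ∀ n : ℕ, SimpleGraph (Fin n) → Ctx n → E n → ℤ} (hψ : DefZ p ψ) :
    DefZ p (fun n G X x => cnd (nv (m n x) = 0 ∨ nv (Q n x) = 0) 0
      (ψ n G X x ^ zWQ (nv (K n x)) (nv (m n x)) (nv (s n x)) (nv (R n x)) (nv (L n x)) (nv (Q n x)) (u n x) (v n x))) := by
  have h1 := defZ_powr (p := p) (q := Q) hp hQ (defZ_wQ hK hm hs hR hL hQ hu hv) hψ
  have h2 := DefZ.ite (DefP.nZero hm) (DefZ.zero hp) h1
  refine h2.congr fun n G X x => ?_
  by_cases h0 : nv (m n x) = 0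
  · rw [cnd_pos h0, cnd_pos (Or.inl h0)]
  · rw [cnd_neg h0, cnd_neg h0]
    by_cases hq : nv (Q n x) = 0
    · rw [cnd_pos hq, cnd_pos (Or.inr hq)]
    · rw [cnd_neg hq, cnd_neg (fun h => h.elim h0 hq)]
      rfl

end QIC
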