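import Pool.Agent.Lib.MP_0087d5_lcQC.A5

/-!
# LEAF A6 (medium, two theorems): the test is definable

PROOF. Copy `defZ_zM2` and `defP_acc2` of `Pool/Agent/Lib/MP_0087d5_lcLI/NC2.lean` (or `defZ_zM`, `defP_accA` of `MTC`, `Pool/Agent/Lib/MP_0087d5_lcMT/CA.lean`), with `defZ_pW` (leaf A5) for the power; the sign `zB G u v` is definable as there (now with the graph
`G` itself: `DefP.adj`), `u < k` by `hk` (`DefP.comp`), `u = v` by `DefP.eqFin`.
-/

set_option autoImplicit false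
set_option linter.all false

namespace QIC

open Finset Pool.Agent Pool.Agent.PMNC MTC

theorem defZ_qM {k : ℕ → ℕ} (hk : DefP (E := fun n => Fin n) (fun n G X v => (v : ℕ) < k n))
    {E S : ℕ → Type} [Env E] [Env S] [∀ n, Fintype (S n)] {K m s R L Q p z : ∀ n : ℕ, E n → S n}
    (hK : Tm K) (hm : Tm m) (hs : Tm s) (hR : Tm R) (hL : Tm L) (hQ : Tm Q) (hp : Tm p) (hz : Tm z)
    {u v : ∀ n : ℕ, E n → Fin n} (hu : Tm (F := fun n => Fin n) u) (hv : Tm (F := fun n => Fin n) v) :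
    DefZ p (fun n G X x => cnd (nv (m n x) = 0 ∨ nv (Q n x) = 0) 0
      (qM (k n) (nv (K n x)) (nv (m n x)) (nv (s n x)) (nv (R n x)) (nv (L n x)) (nv (Q n x)) G (nv (z n x)) (u n x) (v n x))) := by
  have hX := DefZ.nv' (H := S) hp hz
  have hpw := defZ_pW hK hm hs hR hL hQ hp hu hv hX
  have hB : DefZ p (fun n G X e => zB G (u n e) (v n e)) := by
    unfold zB
    exact DefZ.ite (DefP.adj hu hv) (DefZ.ite (DefP.lt hu hv) (DefZ.one hp) (DefZ.neg hp (DefZ.one hp))) (DefZ.zero hp)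
  have hku : DefP (fun n G X x => ((u n x : Fin n) : ℕ) < k n) := DefP.comp (F := fun n => Fin n) hk hu
  have hkv : DefP (fun n G X x => ((v n x : Fin n) : ℕ) < k n) := DefP.comp (F := fun n => Fin n) hk hv
  refine (DefZ.ite (DefP.or (DefP.nZero hm) (DefP.nZero hQ)) (DefZ.zero hp) (DefZ.ite (DefP.and hku hkv)
    (DefZ.mul hp hB hpw) (DefZ.ite (DefP.eqFin hu hv) (DefZ.one hp) (DefZ.zero hp)))).congr fun n G X x => ?_
  by_cases h0 : nv (m n x) = 0 ∨ nv (Q n x) = 0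
  · rw [cnd_pos h0, cnd_pos h0]
  · rw [cnd_neg h0, cnd_neg h0, cnd_neg h0]
    rfl

theorem defP_acc {k : ℕ → ℕ} (hk : DefP (E := fun n => Fin n) (fun n G X v => (v : ℕ) < k n))
    {S : ℕ → Type} [Env S] [∀ n, Fintype (S n)] :
    DefP (E := fun n => S n × (S n × (S n × (S n × (S n × (S n × (S n × S n))))))) (fun n G X e => acc (k n) G e) := by
  have T1 : Tm (E := fun n => S n × (S n × (S n × (S n × (S n × (S n × (S n × S n))))))) (F := S) (fun n e => e.1) := Tm.fst Tm.id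
  have T2 : Tm (E := fun n => S n × (S n × (S n × (S n × (S n × (S n × (S n × S n))))))) (F := S) (fun n e => e.2.1) := Tm.fst (Tm.snd Tm.id)
  have T3 : Tm (E := fun n => S n × (S n × (S n × (S n × (S n × (S n × (S n × S n))))))) (F := S) (fun n e => e.2.2.1) := Tm.fst (Tm.snd (Tm.snd Tm.id))
  have T4 : Tm (E := fun n => S n × (S n × (S n × (S n × (S n × (S n × (S n × S n))))))) (F := S) (fun n e => e.2.2.2.1) := Tm.fst (Tm.snd (Tm.snd (Tm.snd Tm.id)))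
  have T5 : Tm (E := fun n => S n × (S n × (S n × (S n × (S n × (S n × (S n × S n))))))) (F := S) (fun n e => e.2.2.2.2.1) := Tm.fst (Tm.snd (Tm.snd (Tm.snd (Tm.snd Tm.id))))
  have T6 : Tm (E := fun n => S n × (S n × (S n × (S n × (S n × (S n × (S n × S n))))))) (F := S) (fun n e => e.2.2.2.2.2.1) := Tm.fst (Tm.snd (Tm.snd (Tm.snd (Tm.snd (Tm.snd Tm.id)))))
  have T7 : Tm (E := fun n => S n × (S n × (S n × (S n × (S n × (S n × (S n × S n))))))) (F := S) (fun n e => e.2.2.2.2.2.2.1) := Tm.fst (Tm.snd (Tm.snd (Tm.snd (Tm.snd (Tm.snd (Tm.snd Tm.id))))))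
  have T8 : Tm (E := fun n => S n × (S n × (S n × (S n × (S n × (S n × (S n × S n))))))) (F := S) (fun n e => e.2.2.2.2.2.2.2) := Tm.snd (Tm.snd (Tm.snd (Tm.snd (Tm.snd (Tm.snd (Tm.snd Tm.id))))))
  have hc : ∀ {f : ∀ n : ℕ, (S n × (S n × (S n × (S n × (S n × (S n × (S n × S n))))))) → S n}, Tm f →
      Tm (fun n (y : (S n × (S n × (S n × (S n × (S n × (S n × (S n × S n))))))) × (Fin n × Fin n)) => f n y.1) :=
    fun hf => hf.comp (Tm.fst Tm.id)
  have hM := defZ_qM (k := k) hk (E := fun n => (S n × (S n × (S n × (S n × (S n × (S n × (S n × S n))))))) × (Fin n × Fin n))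
    (hc T1) (hc T2) (hc T3) (hc T4) (hc T5) (hc T6) (hc T7) (hc T8) (u := fun n y => y.2.1) (v := fun n y => y.2.2)
    (Tm.fst (Tm.snd Tm.id)) (Tm.snd (Tm.snd Tm.id))
  have hD := DefZ.det (E := fun n => S n × (S n × (S n × (S n × (S n × (S n × (S n × S n))))))) (T := fun n => Fin n)
    (M := fun n G X (e : S n × (S n × (S n × (S n × (S n × (S n × (S n × S n))))))) u v =>
      cnd (nv e.2.1 = 0 ∨ nv e.2.2.2.2.2.1 = 0) 0 (qM (k n) (nv e.1) (nv e.2.1) (nv e.2.2.1) (nv e.2.2.2.1)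
        (nv e.2.2.2.2.1) (nv e.2.2.2.2.2.1) G (nv e.2.2.2.2.2.2.2) u v)) T7 hM
  refine DefP.congr (DefP.and (DefP.prS T7) (DefP.and (DefP.not (DefP.nZero T2)) (DefP.and (DefP.not (DefP.nZero T6))
    (DefZ.ndvd T7 hD)))) fun n G X e => ?_
  by_cases h0 : nv e.2.1 = 0 ∨ nv e.2.2.2.2.2.1 = 0
  · rcases h0 with h0 | h0
    · exact ⟨fun h => absurd h0 h.2.1, fun h => absurd h0 h.2.1⟩
    · exact ⟨fun h => absurd h0 h.2.2.1, fun h => absurd h0 h.2.2.1⟩
  · have hE : (fun u v : Fin n => cnd (nv e.2.1 = 0 ∨ nv e.2.2.2.2.2.1 = 0) 0 (qM (k n) (nv e.1) (nv e.2.1)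
        (nv e.2.2.1) (nv e.2.2.2.1) (nv e.2.2.2.2.1) (nv e.2.2.2.2.2.1) G (nv e.2.2.2.2.2.2.2) u v)) =
        qM (k n) (nv e.1) (nv e.2.1) (nv e.2.2.1) (nv e.2.2.2.1) (nv e.2.2.2.2.1) (nv e.2.2.2.2.2.1) G
          (nv e.2.2.2.2.2.2.2) := by
      funext u v
      exact cnd_neg h0 _ _
    unfold acc nd zdet
    rw [hE]

end QIC
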