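import Pool.Agent.Lib.MP_0087d5_lcQC.Defs

/-!
# LEAF B1 (medium): the test is sound

PROOF. As `accA_sound` in `Pool/Agent/Lib/MP_0087d5_lcMT/CB.lean`. `h` gives `¬ p ∣ det (qM ..)`, so the integer determinant is not zero. Its rows `u ≥ k` are rows of the identity matrix: `Matrix.twoBlockTriangular_det'` or `Matrix.twoBlockTriangular_det` with the predicate `(u : ℕ) < k`
(or: expand; if `det (Matrix.of qM) ≠ 0` then the submatrix of the `u v < k` has a nonzero determinant; the other block is the identity matrix): the submatrix on `{v : Fin n // (v : ℕ) < k}`, with the entries `zB G u v * x ^ zWQ ..`, has a nonzero determinant.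
It is alternating (`zB_diag`, `zB_skew`; `zWQ` is symmetric because `lab` is) and its nonzero entries are edges (`zB_adj`): `Pool.Agent.FRC.Uni.exists_pm_of_det` for the graph `G.induce {v | (v : ℕ) < k}`.
-/

set_option autoImplicit false
set_option linter.all false

namespace QIC

open Finset Pool.Agent Pool.Agent.PMNC MTC Pool.Agent.FRC.Uni

private theorem B1_lab (L u v : ℕ) : lab L u v = lab L v u := by
  unfold lab
  rw [min_comm, max_comm]

private theorem B1_zWQ {n : ℕ} (K m s R L Q : ℕ) (u v : Fin n) : zWQ K m s R L Q u v = zWQ K m s R L Q v u := by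
  unfold zWQ
  rw [B1_lab]

private theorem B1_core {n : ℕ} (k : ℕ) (G : SimpleGraph (Fin n)) (w : Fin n → Fin n → ℕ)
    (hw : ∀ u v, w u v = w v u) (x : ℤ)
    (hd : (Matrix.of fun u v : Fin n => cnd ((u : ℕ) < k ∧ (v : ℕ) < k) (zB G u v * x ^ w u v)
      (cnd (u = v) 1 0)).det ≠ 0) :
    ∃ M : (G.induce {v : Fin n | (v : ℕ) < k}).Subgraph, M.IsPerfectMatching := by
  classical
  rw [Matrix.twoBlockTriangular_det' _ (fun v => v ∈ {v : Fin n | (v : ℕ) < k}) (by
    intro u hu v hv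
    rw [Matrix.of_apply, cnd_neg (fun h => hv h.2), cnd_neg]
    intro h
    rw [h] at hu
    exact hv hu)] at hd
  have hval : ∀ u v : {v : Fin n // v ∈ {v : Fin n | (v : ℕ) < k}},
      Matrix.toSquareBlockProp (Matrix.of fun u v : Fin n => cnd ((u : ℕ) < k ∧ (v : ℕ) < k) (zB G u v * x ^ w u v)
      (cnd (u = v) 1 0)) (fun v => v ∈ {v : Fin n | (v : ℕ) < k}) u v = zB G u.1 v.1 * x ^ w u.1 v.1 := by
    intro u v
    exact cnd_pos ⟨u.2, v.2⟩ _ _
  refine exists_pm_of_det (G := G.induce {v : Fin n | (v : ℕ) < k}) _ ?_ ?_ ?_ (left_ne_zero_of_mul hd)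
  · intro v
    rw [hval, zB_diag, zero_mul]
  · intro u v
    rw [hval, hval, zB_skew, hw, neg_mul]
  · intro u v huv
    rw [hval] at huv
    exact zB_adj G (left_ne_zero_of_mul huv)

theorem acc_sound {S : ℕ → Type} [Env S] [∀ n, Fintype (S n)] {n : ℕ} (k : ℕ) (G : SimpleGraph (Fin n))
    {e : S n × (S n × (S n × (S n × (S n × (S n × (S n × S n))))))} (h : acc k G e) :
    ∃ M : (G.induce {v : Fin n | (v : ℕ) < k}).Subgraph, M.IsPerfectMatching := by
  obtain ⟨-, -, -, hd⟩ := h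
  rw [zdet_eq (T := fun n => Fin n) inferInstance] at hd
  refine B1_core k G (zWQ (nv e.1) (nv e.2.1) (nv e.2.2.1) (nv e.2.2.2.1) (nv e.2.2.2.2.1) (nv e.2.2.2.2.2.1))
    (B1_zWQ _ _ _ _ _ _) (nv e.2.2.2.2.2.2.2) fun h0 => hd.2 ?_
  have h1 : (Matrix.of (qM k (nv e.1) (nv e.2.1) (nv e.2.2.1) (nv e.2.2.2.1) (nv e.2.2.2.2.1) (nv e.2.2.2.2.2.1) G
      (nv e.2.2.2.2.2.2.2))).det = 0 := h0
  rw [h1]
  exact dvd_zero _

end QIC
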