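import Pool.Agent.Lib.MP_0087d5_lcQC.Defs

/-!
# LEAF B2 (medium): isolating weights give a nonsingular matrix

PROOF. As `MTC.det_ne` in `Pool/Agent/Lib/MP_0087d5_lcMT/CB.lean`. Let `z ≠ 0` be in the kernel (`Matrix.exists_mulVec_eq_zero_iff`). For `u ≥ k` the row `u` is the row of the identity matrix (`qB k G u v = 0` for `v ≠ u`, `= 1` for `v = u`, `qW = 0`), so `z u = 0`. Let `V = {v : Fin n // (v : ℕ) < k}`
and `z' = z` restricted to `V`. For `u ∈ V` the row `u` gives `∑ v : V, (entry) * z' v = 0` (the terms with `v ≥ k` are zero: `qB = 0` there as `u ≠ v`). `hX_of_forcW` with `V`, `G.induce {v | (v : ℕ) < k}`, `X = ∅`, `b u v = ((zB G u v : ℤ) : ZMod (nv p))` and the weights `w` on `V`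
(`ForcW` from `hi`, `PMf`) gives `z' = 0`. So `z = 0`.
-/

set_option autoImplicit false
set_option linter.all false

namespace QIC

open Finset Pool.Agent Pool.Agent.PMNC MTC Pool.Agent.FRC.Uni

open Classical in
theorem qdet_ne {S : ℕ → Type} [Env S] [∀ n, Fintype (S n)] {n : ℕ} (p : S n) [Fact (nv p).Prime] (k : ℕ)
    (G : SimpleGraph (Fin n)) (w : Fin n → Fin n → ℕ) (hw : ∀ u v, w u v = w v u)
    (f : {v : Fin n | (v : ℕ) < k} → {v : Fin n | (v : ℕ) < k})
    (hf : MTC.IsPM (G.induce {v : Fin n | (v : ℕ) < k}).Adj f)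
    (hu : ∀ f', MTC.IsPM (G.induce {v : Fin n | (v : ℕ) < k}).Adj f' → f' ≠ f →
      MTC.tw (fun a b : {v : Fin n | (v : ℕ) < k} => w a b) f < MTC.tw (fun a b : {v : Fin n | (v : ℕ) < k} => w a b) f') :
    (wM (T := fun n => Fin n) p (qW k w) (qB k G)).det ≠ 0 := by
  have hF : ForcW (G.induce {v : Fin n | (v : ℕ) < k}) (fun a b : {v : Fin n | (v : ℕ) < k} => w a b) ∅ f :=
    ⟨⟨hf.1, hf.2⟩, fun v hv => absurd hv (Finset.notMem_empty v),
      fun f' h1 _ h3 => hu f' ⟨h1.invol, h1.adj⟩ h3⟩
  intro hdet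
  obtain ⟨z, hz, hz2⟩ := Matrix.exists_mulVec_eq_zero_iff.2 hdet
  apply hz
  have hent : ∀ u v : Fin n, wM (T := fun n => Fin n) p (qW k w) (qB k G) u v =
      algebraMap (Polynomial (ZMod (nv p))) (RatFunc (ZMod (nv p)))
        (Polynomial.C ((qB k G u v : ℤ) : ZMod (nv p)) * Polynomial.X ^ qW k w u v) := fun u v => rfl
  have hrow : ∀ u : Fin n, ∑ v : Fin n, wM (T := fun n => Fin n) p (qW k w) (qB k G) u v * z v = 0 :=
    fun u => congrFun hz2 u
  have hz0 : ∀ u : Fin n, ¬ (u : ℕ) < k → z u = 0 := by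
    intro u hu
    have h1 := hrow u
    rw [Finset.sum_eq_single u] at h1
    · rw [hent] at h1
      have e1 : qB k G u u = 1 := by
        unfold qB
        rw [cnd_neg (fun h => hu h.1), cnd_pos rfl]
      have e2 : qW k w u u = 0 := by
        unfold qW
        rw [if_neg (fun h => hu h.1)]
      rw [e1, e2, Int.cast_one, Polynomial.C_1, pow_zero, mul_one, map_one, one_mul] at h1
      exact h1
    · intro v _ hv
      rw [hent]
      have e1 : qB k G u v = 0 := by
        unfold qB
        rw [cnd_neg (fun h => hu h.1), cnd_neg (fun h => hv h.symm)]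
      rw [e1, Int.cast_zero, Polynomial.C_0, zero_mul, map_zero, zero_mul]
    · intro h
      exact absurd (Finset.mem_univ u) h
  have hz' : (fun v : {v : Fin n | (v : ℕ) < k} => z v) = 0 := by
    refine hX_of_forcW (F := ZMod (nv p)) (K := RatFunc (ZMod (nv p))) (aK_inj p)
      (G := G.induce {v : Fin n | (v : ℕ) < k})
      (fun u v : {v : Fin n | (v : ℕ) < k} => ((zB G u v : ℤ) : ZMod (nv p))) (fun v => ?_) (fun u v => ?_)
      (fun u v => ?_) (fun a b : {v : Fin n | (v : ℕ) < k} => w a b) (fun a b => hw _ _) hF _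
      (fun v hv => absurd hv (Finset.notMem_empty v)) (fun v _ => ?_)
    · show ((zB G v v : ℤ) : ZMod (nv p)) = 0
      rw [zB_diag, Int.cast_zero]
    · show ((zB G u v : ℤ) : ZMod (nv p)) = - ((zB G v u : ℤ) : ZMod (nv p))
      rw [zB_skew, Int.cast_neg]
    · constructor
      · intro h
        show G.Adj u v
        apply zB_adj
        intro h0
        apply h
        show ((zB G u v : ℤ) : ZMod (nv p)) = 0
        rw [h0, Int.cast_zero]
      · intro h
        show ((zB G u v : ℤ) : ZMod (nv p)) ≠ 0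
        have h' : G.Adj u v := h
        rcases zB_cases G h' with h1 | h1
        · rw [h1, Int.cast_one]
          exact one_ne_zero
        · rw [h1, Int.cast_neg, Int.cast_one]
          exact neg_ne_zero.2 one_ne_zero
    · have h1 : ∑ u : Fin n, wM (T := fun n => Fin n) p (qW k w) (qB k G) v u * z u =
          ∑ u ∈ Finset.univ.filter (fun u : Fin n => (u : ℕ) < k),
            wM (T := fun n => Fin n) p (qW k w) (qB k G) v u * z u := by
        symm
        refine Finset.sum_subset (Finset.filter_subset _ _) fun u _ hu => ?_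
        rw [hz0 u (fun h => hu (Finset.mem_filter.2 ⟨Finset.mem_univ u, h⟩)), mul_zero]
      have h2 : ∑ u ∈ Finset.univ.filter (fun u : Fin n => (u : ℕ) < k),
            wM (T := fun n => Fin n) p (qW k w) (qB k G) v u * z u =
          ∑ u : {v : Fin n | (v : ℕ) < k}, wM (T := fun n => Fin n) p (qW k w) (qB k G) v u * z u :=
        Finset.sum_subtype _ (fun u => by
          rw [Finset.mem_filter]
          exact ⟨fun h => h.2, fun h => ⟨Finset.mem_univ u, h⟩⟩) _
      have h3 : ∑ u : {v : Fin n | (v : ℕ) < k}, wM (T := fun n => Fin n) p (qW k w) (qB k G) v u * z u = 0 := by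
        rw [← h2, ← h1]
        exact hrow v
      show ∑ u : {v : Fin n | (v : ℕ) < k}, algebraMap (Polynomial (ZMod (nv p))) (RatFunc (ZMod (nv p)))
        (Polynomial.C ((zB G v u : ℤ) : ZMod (nv p)) * Polynomial.X ^ w v u) * z u = 0
      refine Eq.trans (Finset.sum_congr rfl fun u _ => ?_) h3
      have hvu : ((v : Fin n) : ℕ) < k ∧ ((u : Fin n) : ℕ) < k := ⟨v.2, u.2⟩
      have e1 : qB k G v u = zB G v u := by
        unfold qB
        rw [cnd_pos hvu]
      have e2 : qW k w v u = w v u := by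
        unfold qW
        rw [if_pos hvu]
      rw [hent, e1, e2]
  funext u
  by_cases hu' : (u : ℕ) < k
  · exact congrFun hz' ⟨u, hu'⟩
  · exact hz0 u hu'

end QIC
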