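import Pool.Agent.Lib.MP_0087d5_lcQC.Defs

/-!
# LEAF B3 (medium, four theorems): the weights as numbers

PROOF. `WS_eq`: `WS e K m r s u v = ∑ i ∈ range s, K ^ (s - 1 - i) * (r i ^ e u v % m)` (induction on `s`), reflected (`Finset.sum_range_reflect`): `∑ j ∈ range s, K ^ j * (r (s - 1 - j) ^ e u v % m)`. Let `R = ∑ j ∈ range s, r (s - 1 - j) * m ^ j`: `R < m ^ s` and the digit number
`j < s` of `R` is `r (s - 1 - j)`. General lemma, by induction on `s`: for `c : ℕ → ℕ` with `c j < m` for all `j` and `R = ∑ j ∈ range s, c j * m ^ j`: `R < m ^ s` and `R / m ^ j % m = c j` for `j < s` (or `Nat.ofDigits`).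
`wQ_lt`: every term is at most `K ^ j * (m - 1)` and `m - 1 ≤ K - 1`: `∑ j ∈ range s, K ^ j * (K - 1) + 1 = K ^ s` (`Nat.geomSum..`, or induction on `s`).
`pow_clog`: `clog₂ k ≤ log₂ k + 1 ≤ 2 * log₂ k` for `2 ≤ k`, so `a ^ clog₂ k ≤ (k ^ C) ^ (2 * log₂ k) = (k ^ log₂ k) ^ (2 * C) ≤ n ^ (2 * C)`.
`lab_Lab`: `min * k + max` with `max < k` determines `min` and `max` (`Nat.div`, `Nat.mod`), and is less than `k ^ 2`.
-/

set_option autoImplicit false
set_option linter.all false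

namespace QIC

open Finset Pool.Agent Pool.Agent.PMNC MTC

private theorem B3_succ {K m : ℕ} (s R e c : ℕ) (hc : c < m) :
    wQ K m (s + 1) (m * R + c) e = K * wQ K m s R e + c ^ e % m := by
  have hm : 0 < m := lt_of_le_of_lt (Nat.zero_le c) hc
  have h0 : dgt m (m * R + c) 0 = c := by
    unfold dgt
    rw [pow_zero, Nat.div_one, Nat.mul_add_mod, Nat.mod_eq_of_lt hc]
  have h1 : ∀ j, dgt m (m * R + c) (j + 1) = dgt m R j := by
    intro j
    unfold dgt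
    rw [pow_succ', ← Nat.div_div_eq_div_mul, Nat.mul_add_div hm, Nat.div_eq_of_lt hc, Nat.add_zero]
  unfold wQ
  rw [Finset.sum_range_succ', h0, pow_zero, one_mul, Finset.mul_sum]
  congr 1
  refine Finset.sum_congr rfl fun j _ => ?_
  rw [h1, pow_succ', mul_assoc]

theorem WS_eq {V : Type} (e : V → V → ℕ) {K m : ℕ} {r : ℕ → ℕ} (hr : ∀ i, r i < m) (s : ℕ) :
    ∃ R : ℕ, R < m ^ s ∧ ∀ u v, WS e K m r s u v = wQ K m s R (e u v) := by
  induction s with
  | zero =>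
    refine ⟨0, by rw [pow_zero]; exact Nat.one_pos, fun u v => ?_⟩
    show (0 : ℕ) = ∑ j ∈ range 0, K ^ j * (dgt m 0 j ^ e u v % m)
    rw [Finset.sum_range_zero]
  | succ s ih =>
    obtain ⟨R, hR, h⟩ := ih
    refine ⟨m * R + r s, ?_, fun u v => ?_⟩
    · calc m * R + r s < m * R + m := Nat.add_lt_add_left (hr s) _
        _ = m * (R + 1) := by ring
        _ ≤ m * m ^ s := Nat.mul_le_mul_left m hR
        _ = m ^ (s + 1) := (pow_succ' m s).symm
    · rw [B3_succ s R (e u v) (r s) (hr s), ← h u v]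
      rfl

theorem wQ_lt {K m s R e : ℕ} (hm : 0 < m) (hK : m ≤ K) : wQ K m s R e < K ^ s := by
  induction s with
  | zero =>
    unfold wQ
    rw [Finset.sum_range_zero, pow_zero]
    exact Nat.one_pos
  | succ s ih =>
    unfold wQ at ih ⊢
    rw [Finset.sum_range_succ, pow_succ]
    have h1 : dgt m R s ^ e % m < K := (Nat.mod_lt _ hm).trans_le hK
    have h2 : K ^ s * (dgt m R s ^ e % m + 1) ≤ K ^ s * K := Nat.mul_le_mul_left _ h1
    rw [Nat.mul_add, Nat.mul_one] at h2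
    omega

theorem pow_clog {k n C a : ℕ} (hk : 2 ≤ k) (hkn : k ^ Nat.log 2 k ≤ n) (ha : a ≤ k ^ C) :
    a ^ Nat.clog 2 k ≤ n ^ (2 * C) := by
  have h1 : Nat.clog 2 k ≤ Nat.log 2 k + 1 := by
    refine (Nat.clog_le_iff_le_pow (by norm_num)).2 ?_
    exact (Nat.lt_pow_succ_log_self (by norm_num) k).le
  have h2 : 0 < Nat.log 2 k := Nat.log_pos (by norm_num) hk
  have h3 : Nat.clog 2 k ≤ 2 * Nat.log 2 k := by omega
  have hk0 : 0 < k ^ C := pow_pos (by omega) _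
  calc a ^ Nat.clog 2 k ≤ (k ^ C) ^ Nat.clog 2 k := Nat.pow_le_pow_left ha _
    _ ≤ (k ^ C) ^ (2 * Nat.log 2 k) := Nat.pow_le_pow_right hk0 h3
    _ = (k ^ Nat.log 2 k) ^ (2 * C) := by
        rw [← pow_mul, ← pow_mul]
        congr 1
        ring
    _ ≤ n ^ (2 * C) := Nat.pow_le_pow_left hkn _

theorem lab_Lab {n : ℕ} (k : ℕ) : Lab k (fun a b : {v : Fin n | (v : ℕ) < k} => lab k (a : Fin n) (b : Fin n)) := by
  refine ⟨fun a b => ?_, fun a b a' b' hab h => ?_, fun a b => ?_⟩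
  · show min _ _ * k + max _ _ = min _ _ * k + max _ _
    rw [min_comm, max_comm]
  · have ha : ((a : Fin n) : ℕ) < k := a.2
    have hb : ((b : Fin n) : ℕ) < k := b.2
    have ha' : ((a' : Fin n) : ℕ) < k := a'.2
    have hb' : ((b' : Fin n) : ℕ) < k := b'.2
    have h1 : min ((a : Fin n) : ℕ) ((b : Fin n) : ℕ) * k + max ((a : Fin n) : ℕ) ((b : Fin n) : ℕ) =
        min ((a' : Fin n) : ℕ) ((b' : Fin n) : ℕ) * k + max ((a' : Fin n) : ℕ) ((b' : Fin n) : ℕ) := h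
    have hk : 0 < k := by omega
    have h2 := congrArg (fun x => x / k) h1
    have h3 := congrArg (fun x => x % k) h1
    simp only [Nat.mul_comm _ k, Nat.mul_add_div hk, Nat.mul_add_mod] at h2 h3
    rw [Nat.div_eq_of_lt (max_lt ha hb), Nat.div_eq_of_lt (max_lt ha' hb')] at h2
    rw [Nat.mod_eq_of_lt (max_lt ha hb), Nat.mod_eq_of_lt (max_lt ha' hb')] at h3
    have h4 : (((a : Fin n) : ℕ) = ((a' : Fin n) : ℕ) ∧ ((b : Fin n) : ℕ) = ((b' : Fin n) : ℕ)) ∨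
        (((a : Fin n) : ℕ) = ((b' : Fin n) : ℕ) ∧ ((b : Fin n) : ℕ) = ((a' : Fin n) : ℕ)) := by
      omega
    rcases h4 with ⟨h5, h6⟩ | ⟨h5, h6⟩
    · exact Or.inl ⟨Subtype.ext (Fin.ext h5), Subtype.ext (Fin.ext h6)⟩
    · exact Or.inr ⟨Subtype.ext (Fin.ext h5), Subtype.ext (Fin.ext h6)⟩
  · have ha : ((a : Fin n) : ℕ) < k := a.2
    have hb : ((b : Fin n) : ℕ) < k := b.2
    show min ((a : Fin n) : ℕ) ((b : Fin n) : ℕ) * k + max ((a : Fin n) : ℕ) ((b : Fin n) : ℕ) < k ^ 2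
    have h1 : max ((a : Fin n) : ℕ) ((b : Fin n) : ℕ) < k := max_lt ha hb
    have h2 : (min ((a : Fin n) : ℕ) ((b : Fin n) : ℕ) + 1) * k ≤ k * k :=
      Nat.mul_le_mul_right k (by omega)
    rw [Nat.add_mul, Nat.one_mul] at h2
    rw [pow_two]
    omega

end QIC
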