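import Pool.Agent.Lib.MP_0087d5_lcQC.B2
import Pool.Agent.Lib.MP_0087d5_lcQC.B3

/-!
# LEAF B4 (medium): the test is complete

PROOF. As `acc2_complete` in `Pool/Agent/Lib/MP_0087d5_lcLI/NC2.lean`. Let `V = {v : Fin n | (v : ℕ) < k}`, it has at most `k` elements. `A = (G.induce V).Adj`; from `hG` a function `f` with `MTC.IsPM A f` (the partner of `v` in `M`; compare `hasPM_iff` in `Pool/Agent/Lib/MP_0087d5_lc/PM.lean`).
Take a prime number `m` with `k ^ C < m ≤ 2 * k ^ C` (`Nat.exists_prime_lt_and_le_two_mul`), so `m ≤ k ^ (C + 1)`; `K = k * m + 1 ≤ k ^ (C + 3)`; `s = Nat.clog 2 k ≤ k`. The isolation theorem `hC` with `e = lab k` (`lab_Lab`) gives `r`, `f`; `WS_eq` gives `R < m ^ s ≤ n ^ (2 * (C + 1))`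
(`pow_clog`) and the weights `w u v = wQ K m s R (lab k u v) < K ^ s ≤ n ^ (2 * (C + 3))` (`wQ_lt`, `pow_clog`). `Q = n ^ (2 * C + 6)`: `zWQ K m s R k Q u v = wQ ..` (`rz`, `Int.emod_eq_of_lt`). `p` a prime number with `n ^ (2 * C + 8) < p ≤ 2 * n ^ (2 * C + 8) ≤ n ^ (2 * C + 9)`. All these
numbers are less than `n ^ dim S` (`nv_surj`). `qdet_ne` gives `det ≠ 0`, and `det_iff` with `Wok (T := fun n => Fin n) p (fun _ => False) (qW k w) (n ^ (2 * C + 6))` (`2 * n * n ^ (2 * C + 6) ≤ n ^ (2 * C + 8) < p`) gives `x` with `nd p (det (Matrix.of (wx (qW k w) (qB k G) x)))`; this is the matrix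
`qM` (for `u, v < k` the same; otherwise `cnd (u = v) 1 0 * x ^ 0`).
-/

set_option autoImplicit false
set_option linter.all false

namespace QIC

open Finset Pool.Agent Pool.Agent.PMNC MTC Pool.Agent.FRC.Uni

private theorem B4_pm {V : Type} {H : SimpleGraph V} (h : ∃ M : H.Subgraph, M.IsPerfectMatching) :
    ∃ f, MTC.IsPM H.Adj f := by
  obtain ⟨M, hM, hsp⟩ := h
  have h : ∀ v, ∃! w, M.Adj v w := fun v => hM (hsp v)
  choose f hf huniq using h
  refine ⟨f, fun v => ?_, fun v => M.adj_sub (hf v)⟩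
  exact (huniq (f v) v (hf v).symm).symm

private theorem B4_rz {Q a : ℕ} (h : a < Q) : rz Q ((a : ℕ) : ℤ) = a := by
  unfold rz
  rw [Int.emod_eq_of_lt (by omega) (by omega)]
  exact Int.toNat_natCast a

private theorem B4_lab (k u v : ℕ) : lab k u v = lab k v u := by
  unfold lab
  rw [min_comm, max_comm]

private theorem B4_qW {n : ℕ} (k : ℕ) {w : Fin n → Fin n → ℕ} (hw : ∀ u v, w u v = w v u) (u v : Fin n) :
    qW k w u v = qW k w v u := by
  unfold qW
  rw [hw u v]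
  by_cases h : (u : ℕ) < k ∧ (v : ℕ) < k
  · rw [if_pos h, if_pos ⟨h.2, h.1⟩]
  · rw [if_neg h, if_neg fun h' => h ⟨h'.2, h'.1⟩]

private theorem B4_card {n k : ℕ} [Fintype {v : Fin n | (v : ℕ) < k}] : Fintype.card {v : Fin n | (v : ℕ) < k} ≤ k := by
  have h := Fintype.card_le_of_injective (fun v : {v : Fin n | (v : ℕ) < k} => (⟨(v.1 : ℕ), v.2⟩ : Fin k)) (by
    intro a b hab
    have h1 : (⟨(a.1 : ℕ), a.2⟩ : Fin k) = ⟨(b.1 : ℕ), b.2⟩ := hab
    have h2 : ((a.1 : Fin n) : ℕ) = ((b.1 : Fin n) : ℕ) := congrArg (fun z : Fin k => (z : ℕ)) h1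
    exact Subtype.ext (Fin.ext h2))
  rw [Fintype.card_fin] at h
  exact h

theorem acc_complete {S : ℕ → Type} [Env S] [∀ n, Fintype (S n)] {C : ℕ} (hC : IsoStmt C) (hS : 2 * C + 20 ≤ dim S)
    {n k : ℕ} (hk : 2 ≤ k) (hkn : k ≤ n) (hkl : k ^ Nat.log 2 k ≤ n) (G : SimpleGraph (Fin n))
    (hG : ∃ M : (G.induce {v : Fin n | (v : ℕ) < k}).Subgraph, M.IsPerfectMatching) :
    ∃ e : S n × (S n × (S n × (S n × (S n × (S n × (S n × S n)))))), acc k G e := by
  classical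
  have hn : 2 ≤ n := hk.trans hkn
  have hlow : ∀ {a c : ℕ}, a ≤ n ^ c → c < dim S → a < n ^ dim S := fun ha hc =>
    lt_of_le_of_lt ha (Nat.pow_lt_pow_right (by omega) hc)
  -- the prime number m
  obtain ⟨m, hm, hm1, hm2⟩ := Nat.exists_prime_lt_and_le_two_mul (k ^ C) (by positivity)
  have hm3 : m ≤ k ^ (C + 1) := by
    calc m ≤ 2 * k ^ C := hm2
      _ ≤ k * k ^ C := Nat.mul_le_mul_right _ hk
      _ = k ^ (C + 1) := by ring
  obtain ⟨K, hKdef⟩ : ∃ K, K = k * m + 1 := ⟨_, rfl⟩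
  have hK1 : k * m < K := by omega
  have hK2 : K ≤ k ^ (C + 3) := by
    have h1 : k * m ≤ k * k ^ (C + 1) := Nat.mul_le_mul_left _ hm3
    have h2 : k * k ^ (C + 1) = k ^ (C + 2) := by ring
    have h3 : 1 ≤ k ^ (C + 2) := Nat.one_le_pow _ _ (by omega)
    calc K ≤ k ^ (C + 2) + k ^ (C + 2) := by omega
      _ = 2 * k ^ (C + 2) := by ring
      _ ≤ k * k ^ (C + 2) := Nat.mul_le_mul_right _ hk
      _ = k ^ (C + 3) := by ring
  have hmK : m ≤ K := by
    have h1 : m ≤ k * m := Nat.le_mul_of_pos_left _ (by omega)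
    omega
  obtain ⟨s, hs⟩ : ∃ s, s = Nat.clog 2 k := ⟨_, rfl⟩
  have hs1 : s ≤ n := by
    rw [hs]
    exact (Nat.clog_le_of_le_pow (Nat.lt_two_pow_self (n := k)).le).trans hkn
  have hms : m ^ s ≤ n ^ (2 * (C + 1)) := by
    rw [hs]
    exact pow_clog hk hkl hm3
  have hKs : K ^ s ≤ n ^ (2 * (C + 3)) := by
    rw [hs]
    exact pow_clog hk hkl hK2
  -- the isolation theorem
  obtain ⟨r, hr, f, hf, hu⟩ := hC {v : Fin n | (v : ℕ) < k} k hk B4_card
    (fun a b : {v : Fin n | (v : ℕ) < k} => lab k (a : Fin n) (b : Fin n)) (lab_Lab k) m hm hm1.le K hK1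
    (G.induce {v : Fin n | (v : ℕ) < k}).Adj (fun a b h => h.symm) (fun a h => h.ne rfl) (B4_pm hG)
  rw [← hs] at hu
  obtain ⟨R, hR, hWS⟩ := WS_eq (fun a b : {v : Fin n | (v : ℕ) < k} => lab k (a : Fin n) (b : Fin n)) (K := K) hr s
  obtain ⟨w, hwdef⟩ : ∃ w : Fin n → Fin n → ℕ, w = fun u v : Fin n => wQ K m s R (lab k u v) := ⟨_, rfl⟩
  have hWS' : WS (fun a b : {v : Fin n | (v : ℕ) < k} => lab k (a : Fin n) (b : Fin n)) K m r s =
      fun a b : {v : Fin n | (v : ℕ) < k} => w a b := by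
    funext a b
    rw [hWS, hwdef]
  rw [hWS'] at hu
  have hwsymm : ∀ u v, w u v = w v u := by
    intro u v
    rw [hwdef]
    show wQ K m s R (lab k u v) = wQ K m s R (lab k v u)
    rw [B4_lab]
  have hwlt : ∀ u v, w u v < n ^ (2 * C + 6) := by
    intro u v
    rw [hwdef]
    exact lt_of_lt_of_le (wQ_lt hm.pos hmK) (hKs.trans (le_of_eq (by ring_nf)))
  -- the prime number p
  obtain ⟨p₀, hp₀, hlt, hle⟩ := Nat.exists_prime_lt_and_le_two_mul (n ^ (2 * C + 8)) (by positivity)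
  have hp1 : p₀ < n ^ dim S := by
    refine hlow (c := 2 * C + 9) ?_ (by omega)
    calc p₀ ≤ 2 * n ^ (2 * C + 8) := hle
      _ ≤ n * n ^ (2 * C + 8) := Nat.mul_le_mul_right _ hn
      _ = n ^ (2 * C + 9) := by ring
  obtain ⟨p, rfl⟩ := nv_surj (S := S) hp1
  haveI : Fact (nv p).Prime := ⟨hp₀⟩
  -- the parameters
  obtain ⟨K', hK'⟩ := nv_surj (S := S) (n := n) (m := K)
    (hlow (c := C + 3) (hK2.trans (Nat.pow_le_pow_left hkn _)) (by omega))
  obtain ⟨m', hm'⟩ := nv_surj (S := S) (n := n) (m := m)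
    (hlow (c := C + 1) (hm3.trans (Nat.pow_le_pow_left hkn _)) (by omega))
  obtain ⟨s', hs'⟩ := nv_surj (S := S) (n := n) (m := s) (hlow (c := 1) (by rw [pow_one]; exact hs1) (by omega))
  obtain ⟨R', hR'⟩ := nv_surj (S := S) (n := n) (m := R) (hlow (c := 2 * (C + 1)) (hR.le.trans hms) (by omega))
  obtain ⟨L', hL'⟩ := nv_surj (S := S) (n := n) (m := k) (hlow (c := 1) (by rw [pow_one]; exact hkn) (by omega))
  obtain ⟨Q', hQ'⟩ := nv_surj (S := S) (n := n) (m := n ^ (2 * C + 6)) (hlow (c := 2 * C + 6) le_rfl (by omega))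
  have hd := qdet_ne p k G w hwsymm f hf hu
  have hw : Wok (T := fun n => Fin n) p (fun _ => False) (qW k w) (n ^ (2 * C + 6)) := by
    refine ⟨fun r c h => h.elim False.elim False.elim, B4_qW k hwsymm, fun u v => ?_, ?_⟩
    · unfold qW
      split_ifs
      · exact hwlt u v
      · exact Nat.pow_pos (by omega)
    · rw [Fintype.card_fin]
      refine lt_of_le_of_lt ?_ hlt
      calc 2 * n * n ^ (2 * C + 6) ≤ n * n * n ^ (2 * C + 6) := Nat.mul_le_mul_right _ (Nat.mul_le_mul_right _ hn)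
        _ = n ^ (2 * C + 8) := by ring
  have h := (det_iff (T := fun n => Fin n) (B := qB k G) hw).2 (use_inst (P := fun i => @Matrix.det (Fin n) i _ _ _
    (wM (T := fun n => Fin n) p (qW k w) (qB k G)) ≠ 0) _ hd)
  obtain ⟨x, hx⟩ := h
  refine ⟨(K', (m', (s', (R', (L', (Q', (p, x))))))), (prS_iff p).2 hp₀, ?_, ?_, ?_⟩
  · show ¬ nv m' = 0
    rw [hm']
    exact hm.ne_zero
  · show ¬ nv Q' = 0
    rw [hQ']
    exact (Nat.pow_pos (by omega)).ne'
  · show nd p (zdet (T := fun n => Fin n) (qM k (nv K') (nv m') (nv s') (nv R') (nv L') (nv Q') G (nv x)))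
    have hM : qM k (nv K') (nv m') (nv s') (nv R') (nv L') (nv Q') G (nv x) =
        wx (T := fun n => Fin n) (qW k w) (qB k G) x := by
      funext u v
      unfold qM wx qB
      rw [hK', hm', hs', hR', hL', hQ']
      unfold qW
      by_cases huv : (u : ℕ) < k ∧ (v : ℕ) < k
      · rw [cnd_pos huv, cnd_pos huv, if_pos huv]
        have h1 : zWQ K m s R k (n ^ (2 * C + 6)) u v = w u v := by
          have h2 := hwlt u v
          rw [hwdef] at h2 ⊢
          exact B4_rz h2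
        rw [h1]
      · rw [cnd_neg huv, cnd_neg huv, if_neg huv, pow_zero, mul_one]
    rw [hM, zdet_eq (T := fun n => Fin n) (fun a b => Classical.propDecidable (a = b))]
    exact hx

end QIC
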