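import Pool.Agent.Lib.MP_0087d5_lcQC.Defs
import Pool.Agent.Lib.MP_0087d5_lcQI.Iso

/-!
# The isolation theorem in the form which the circuits use
-/

set_option autoImplicit false
set_option linter.all false

namespace QIC

theorem WS_qis {V : Type} (e : V → V → ℕ) (K m : ℕ) (r : ℕ → ℕ) (i : ℕ) : WS e K m r i = QIS.WS e K m r i := by
  induction i with
  | zero => rfl
  | succ i ih =>
    funext u v
    show K * WS e K m r i u v + r i ^ e u v % m = K * QIS.WS e K m r i u v + r i ^ e u v % m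
    rw [ih]

theorem iso_stmt : ∃ C, IsoStmt C := by
  obtain ⟨C, hC⟩ := QIS.iso_weights
  refine ⟨C, ?_⟩
  intro V i1 i2 n hn hV e he m hm hCm K hK A hA1 hA2 hf
  obtain ⟨r, hr, f, hf1, hf2⟩ := hC V n hn hV e he m hm hCm K hK A hA1 hA2 hf
  refine ⟨r, hr, f, hf1, fun f' h1 h2 => ?_⟩
  rw [WS_qis]
  exact hf2 f' h1 h2

end QIC
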