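import Pool.Agent.Lib.MP_0087d5_lcQC.Main
import Pool.Agent.Lib.MP_0087d5_lcQC.Plug

/-!
# The decision: perfect matching of all graphs on `k` vertices by uniform circuits of size `k ^ O(log k)`
-/

set_option autoImplicit false

namespace QIC

open Pool.Agent

/-- It is in NC whether the graph induced by `G` on the first `k` vertices has a perfect matching, where `k` is the greatest number with `k ^ log₂ k ≤ n`. -/
theorem decision : UPM.InNC (fun n G =>
    ∃ M : (G.induce {v : Fin n | (v : ℕ) < Nat.findGreatest (fun k => k ^ Nat.log 2 k ≤ n) n}).Subgraph, M.IsPerfectMatching) :=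
  main iso_stmt

end QIC
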