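import Pool.Agent.Lib.MP_0087d5_lcMT.CB

/-!
# Quasi-polynomial circuits for perfect matching: definitions of the circuit block

`k = kk n` is the number of the real vertices, `n` the number of the vertices of the padded graph. All the parameters of the test are numbers less than `n ^ dim S`.
-/

set_option autoImplicit false
set_option linter.all false

namespace QIC

open Finset Pool.Agent Pool.Agent.PMNC MTC

/-- the greatest `k ≤ n` with `k ^ log₂ k ≤ n` (`log₂` rounded down) -/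
def kk (n : ℕ) : ℕ := Nat.findGreatest (fun k => k ^ Nat.log 2 k ≤ n) n

/-- the digit number `j` of `R` in base `m` -/
def dgt (m R j : ℕ) : ℕ := R / m ^ j % m

/-- the weight of the label `e` -/
def wQ (K m s R e : ℕ) : ℕ := ∑ j ∈ range s, K ^ j * (dgt m R j ^ e % m)

/-- the label of a pair of numbers -/
def lab (L u v : ℕ) : ℕ := min u v * L + max u v

section
variable {n : ℕ}

/-- the exponents -/
def zWQ (K m s R L Q : ℕ) (u v : Fin n) : ℕ := rz Q ((wQ K m s R (lab L u v) : ℕ) : ℤ)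

/-- the signs of the test: the vertices `≥ k` have an entry `1` on the diagonal -/
noncomputable def qB (k : ℕ) (G : SimpleGraph (Fin n)) (u v : Fin n) : ℤ :=
  cnd ((u : ℕ) < k ∧ (v : ℕ) < k) (zB G u v) (cnd (u = v) 1 0)

/-- the exponents of the test -/
def qW (k : ℕ) (w : Fin n → Fin n → ℕ) (u v : Fin n) : ℕ := if (u : ℕ) < k ∧ (v : ℕ) < k then w u v else 0

/-- the matrix of the test -/
noncomputable def qM (k K m s R L Q : ℕ) (G : SimpleGraph (Fin n)) (x : ℤ) (u v : Fin n) : ℤ :=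
  cnd ((u : ℕ) < k ∧ (v : ℕ) < k) (zB G u v * x ^ zWQ K m s R L Q u v) (cnd (u = v) 1 0)

end

section
variable {S : ℕ → Type} [Env S] {n : ℕ}

/-- the test; the parameters are `K, m, s, R, L, Q, p, x` -/
def acc (k : ℕ) (G : SimpleGraph (Fin n)) (e : S n × (S n × (S n × (S n × (S n × (S n × (S n × S n))))))) : Prop :=
  prS e.2.2.2.2.2.2.1 ∧ (¬ nv e.2.1 = 0) ∧ (¬ nv e.2.2.2.2.2.1 = 0) ∧
    nd e.2.2.2.2.2.2.1 (zdet (T := fun n => Fin n)
      (qM k (nv e.1) (nv e.2.1) (nv e.2.2.1) (nv e.2.2.2.1) (nv e.2.2.2.2.1) (nv e.2.2.2.2.2.1) G (nv e.2.2.2.2.2.2.2)))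

end

/-- the weights of the isolation theorem -/
def WS {V : Type} (e : V → V → ℕ) (K m : ℕ) (r : ℕ → ℕ) : ℕ → V → V → ℕ
  | 0, _, _ => 0
  | i + 1, u, v => K * WS e K m r i u v + r i ^ e u v % m

/-- labels of the pairs -/
def Lab {V : Type} (n : ℕ) (e : V → V → ℕ) : Prop :=
  (∀ a b, e a b = e b a) ∧ (∀ a b a' b', a ≠ b → e a b = e a' b' → (a = a' ∧ b = b') ∨ (a = b' ∧ b = a')) ∧
    ∀ a b, e a b < n ^ 2

/-- the isolation theorem with the exponent `C` -/
def IsoStmt (C : ℕ) : Prop :=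
  ∀ (V : Type) [Fintype V] [DecidableEq V] (n : ℕ), 2 ≤ n → Fintype.card V ≤ n → ∀ e : V → V → ℕ, Lab n e →
    ∀ m : ℕ, m.Prime → n ^ C ≤ m → ∀ K : ℕ, n * m < K → ∀ A : V → V → Prop, (∀ a b, A a b → A b a) → (∀ a, ¬ A a a) →
      (∃ f, MTC.IsPM A f) → ∃ r : ℕ → ℕ, (∀ i, r i < m) ∧ ∃ f, MTC.IsPM A f ∧ ∀ f', MTC.IsPM A f' → f' ≠ f →
        MTC.tw (WS e K m r (Nat.clog 2 n)) f < MTC.tw (WS e K m r (Nat.clog 2 n)) f'

end QIC
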