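import Pool.Agent.Lib.MP_0087d5_lcQC.A4
import Pool.Agent.Lib.MP_0087d5_lcQC.A6
import Pool.Agent.Lib.MP_0087d5_lcQC.B1
import Pool.Agent.Lib.MP_0087d5_lcQC.B4

/-!
# Perfect matching on the first `kk n` vertices is in NC
-/

set_option autoImplicit false
set_option linter.all false

namespace QIC

open Finset Pool.Agent Pool.Agent.PMNC MTC

theorem main (h : ∃ C, IsoStmt C) : UPM.InNC (fun n G =>
    ∃ M : (G.induce {v : Fin n | (v : ℕ) < kk n}).Subgraph, M.IsPerfectMatching) := by
  obtain ⟨C, hC⟩ := h
  obtain ⟨S, i1, i2, hS⟩ := exists_SS (2 * C + 20)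
  refine PMNC.InNC.circuits (inNC_small (Q := fun n G =>
    ∃ e : S n × (S n × (S n × (S n × (S n × (S n × (S n × S n)))))), acc (kk n) G e) ?_ ?_)
  · exact DefP.ex (F := fun n => S n × (S n × (S n × (S n × (S n × (S n × (S n × S n)))))))
      (DefP.comp (E := fun n => Unit × (S n × (S n × (S n × (S n × (S n × (S n × (S n × S n))))))))
        (F := fun n => S n × (S n × (S n × (S n × (S n × (S n × (S n × S n)))))))
        (f := fun n y => y.2) (defP_acc def_kk) (Tm.snd Tm.id))
  · intro n G hn
    constructor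
    · intro hG
      exact acc_complete hC (by omega) (kk_two hn) (kk_le n) (kk_pow (by omega)) G hG
    · rintro ⟨e, he⟩
      exact acc_sound (kk n) G he

end QIC
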