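import Pool.Agent.Lib.MP_0087d5_lcQC.SD

/-!
# LEAF SA (medium-): the determinant of the test is the determinant of the block of the vertices `< t`

PROOF. `zdet_eq` (the integer determinant `Matrix.det (Matrix.of ..)`; see its use in `Pool/Agent/Lib/MP_0087d5_lcQC/B1.lean`, `acc_sound`, or in `XC_det` of `Pool/Agent/Lib/MP_0087d5_lcPR/XC.lean`). Then `Matrix.twoBlockTriangular_det'` (or `Matrix.twoBlockTriangular_det`) with the
predicate `(u : ℕ) < t`: the rows `u ≥ t` are the rows of the identity matrix, the other diagonal block is the identity matrix (`Matrix.det_one`); the proof of `acc_sound` does the same.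
-/

set_option autoImplicit false
set_option linter.all false

namespace QIC

open Finset Pool.Agent Pool.Agent.PMNC MTC

theorem zdet_qM {n : ℕ} (t K m s R L Q : ℕ) (T : SimpleGraph (Fin n)) (x : ℤ) :
    zdet (T := fun n => Fin n) (qM t K m s R L Q T x) =
      Matrix.det (Matrix.of fun u v : {v : Fin n // (v : ℕ) < t} => zB T (u : Fin n) (v : Fin n) * x ^ zWQ K m s R L Q (u : Fin n) (v : Fin n)) := by
  classical
  rw [zdet_eq (T := fun n => Fin n) inferInstance]
  have h0 : (Matrix.of (qM t K m s R L Q T x)).det =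
      ((Matrix.of (qM t K m s R L Q T x)).toSquareBlockProp fun v : Fin n => (v : ℕ) < t).det *
        ((Matrix.of (qM t K m s R L Q T x)).toSquareBlockProp fun v : Fin n => ¬ (v : ℕ) < t).det := by
    refine Matrix.twoBlockTriangular_det' _ (fun v : Fin n => (v : ℕ) < t) ?_
    intro u hu v hv
    rw [Matrix.of_apply]
    unfold qM
    rw [cnd_neg (fun h => hv h.2), cnd_neg]
    intro h
    rw [h] at hu
    exact hv hu
  have h1 : ((Matrix.of (qM t K m s R L Q T x)).toSquareBlockProp fun v : Fin n => ¬ (v : ℕ) < t) = 1 := by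
    ext u v
    change cnd ((u.1 : ℕ) < t ∧ (v.1 : ℕ) < t) (zB T u.1 v.1 * x ^ zWQ K m s R L Q u.1 v.1) (cnd (u.1 = v.1) 1 0) = _
    rw [cnd_neg (fun h => u.2 h.1)]
    by_cases huv : u = v
    · rw [huv, cnd_pos rfl, Matrix.one_apply_eq]
    · rw [cnd_neg (fun h => huv (Subtype.ext h)), Matrix.one_apply_ne huv]
  have h2 : ((Matrix.of (qM t K m s R L Q T x)).toSquareBlockProp fun v : Fin n => (v : ℕ) < t) =
      Matrix.of fun u v : {v : Fin n // (v : ℕ) < t} => zB T (u : Fin n) (v : Fin n) * x ^ zWQ K m s R L Q (u : Fin n) (v : Fin n) := by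
    ext u v
    exact cnd_pos ⟨u.2, v.2⟩ _ _
  refine Eq.trans ?_ (h0.trans ?_)
  · rfl
  · rw [h1, Matrix.det_one, mul_one, h2]

end QIC
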