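import Pool.Agent.Lib.MP_0087d5_lcQC.SA

/-!
# LEAF SB (medium): the number `co` is a coefficient of the determinant

PROOF. Copy `XC_sum`, `XC_det`, `XC_co` (private) of `Pool/Agent/Lib/MP_0087d5_lcPR/XC.lean` (git show origin/main:..), with `zdet_qM` (leaf SA) instead of `zdet_eq`, and the vertices `{v : Fin n // (v : ℕ) < t}`: the image in `ZMod p` of the integer determinant is the value at `x` of the determinant of
the polynomial matrix `wm` (`RingHom.map_det`), and `PRS.sum_eval` (file PR/XA).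
-/

set_option autoImplicit false
set_option linter.all false

namespace QIC

open Finset Pool.Agent Pool.Agent.PMNC MTC

open Classical in
private theorem SB_sum {S : ℕ → Type} [Env S] [∀ n, Fintype (S n)] {n : ℕ} (p : S n) [Fact (nv p).Prime]
    (F : ZMod (nv p) → ZMod (nv p)) :
    ∑ x ∈ univ.filter (fun x : S n => nv x < nv p ∧ ¬ nv x = 0), F ((nv x : ℕ) : ZMod (nv p)) =
      ∑ z ∈ univ.filter (fun z : ZMod (nv p) => z ≠ 0), F z := by
  refine Finset.sum_bij (fun x _ => ((nv x : ℕ) : ZMod (nv p))) ?_ ?_ ?_ ?_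
  · intro x hx
    rw [Finset.mem_filter] at hx ⊢
    refine ⟨mem_univ _, fun h => ?_⟩
    rw [ZMod.natCast_eq_zero_iff] at h
    exact hx.2.2 (Nat.eq_zero_of_dvd_of_lt h hx.2.1)
  · intro x hx x' hx' h
    rw [Finset.mem_filter] at hx hx'
    have h1 := congrArg ZMod.val h
    rw [ZMod.val_natCast_of_lt hx.2.1, ZMod.val_natCast_of_lt hx'.2.1] at h1
    exact nv_injective h1
  · intro z hz
    rw [Finset.mem_filter] at hz
    obtain ⟨x, hx⟩ := nv_down (b := p) (m := z.val) (ZMod.val_lt z)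
    refine ⟨x, ?_, ?_⟩
    · rw [Finset.mem_filter]
      refine ⟨mem_univ _, by rw [hx]; exact ZMod.val_lt z, fun h => hz.2 ?_⟩
      rw [hx, ZMod.val_eq_zero] at h
      exact h
    · rw [hx, ZMod.natCast_zmod_val]
  · intro x _
    rfl

private theorem SB_det {n P : ℕ} (t K m s R L Q : ℕ) (T : SimpleGraph (Fin n)) (x : ℕ) :
    ((zdet (T := fun n => Fin n) (qM t K m s R L Q T (x : ℤ)) : ℤ) : ZMod P) =
      (Pool.Agent.FRC.Uni.wm (fun u v : {v : Fin n // (v : ℕ) < t} => ((zB T (u : Fin n) (v : Fin n) : ℤ) : ZMod P))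
        (fun u v => zWQ K m s R L Q (u : Fin n) (v : Fin n))).det.eval ((x : ℕ) : ZMod P) := by
  rw [zdet_qM]
  have h1 : ((Matrix.det (Matrix.of fun u v : {v : Fin n // (v : ℕ) < t} =>
      zB T (u : Fin n) (v : Fin n) * (x : ℤ) ^ zWQ K m s R L Q (u : Fin n) (v : Fin n)) : ℤ) : ZMod P) =
      Matrix.det ((Int.castRingHom (ZMod P)).mapMatrix (Matrix.of fun u v : {v : Fin n // (v : ℕ) < t} =>
      zB T (u : Fin n) (v : Fin n) * (x : ℤ) ^ zWQ K m s R L Q (u : Fin n) (v : Fin n))) :=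
    RingHom.map_det (Int.castRingHom (ZMod P)) _
  have h2 : (Pool.Agent.FRC.Uni.wm (fun u v : {v : Fin n // (v : ℕ) < t} => ((zB T (u : Fin n) (v : Fin n) : ℤ) : ZMod P))
        (fun u v => zWQ K m s R L Q (u : Fin n) (v : Fin n))).det.eval ((x : ℕ) : ZMod P) =
      Matrix.det ((Polynomial.evalRingHom ((x : ℕ) : ZMod P)).mapMatrix
        (Pool.Agent.FRC.Uni.wm (fun u v : {v : Fin n // (v : ℕ) < t} => ((zB T (u : Fin n) (v : Fin n) : ℤ) : ZMod P))
          (fun u v => zWQ K m s R L Q (u : Fin n) (v : Fin n)))) :=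
    RingHom.map_det (Polynomial.evalRingHom ((x : ℕ) : ZMod P)) _
  rw [h1, h2]
  congr 1
  ext u v
  simp [Pool.Agent.FRC.Uni.wm]

theorem co_eq {S : ℕ → Type} [Env S] [∀ n, Fintype (S n)] {n : ℕ} (t : ℕ) (T : SimpleGraph (Fin n))
    (K m s R L Q p e : S n) [Fact (nv p).Prime] (c : ℕ)
    (hdeg : (Pool.Agent.FRC.Uni.wm (fun u v : {v : Fin n // (v : ℕ) < t} => ((zB T (u : Fin n) (v : Fin n) : ℤ) : ZMod (nv p)))
      (fun u v => zWQ (nv K) (nv m) (nv s) (nv R) (nv L) (nv Q) (u : Fin n) (v : Fin n))).det.natDegree < nv p - 1)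
    (hc : c < nv p - 1) (he : nv e = nv p - 1 - c) :
    ((co t T (K, (m, (s, (R, (L, (Q, (p, e))))))) : ℤ) : ZMod (nv p)) =
      - (Pool.Agent.FRC.Uni.wm (fun u v : {v : Fin n // (v : ℕ) < t} => ((zB T (u : Fin n) (v : Fin n) : ℤ) : ZMod (nv p)))
        (fun u v => zWQ (nv K) (nv m) (nv s) (nv R) (nv L) (nv Q) (u : Fin n) (v : Fin n))).det.coeff c := by
  classical
  obtain ⟨D, hD⟩ : ∃ D, D = (Pool.Agent.FRC.Uni.wm (fun u v : {v : Fin n // (v : ℕ) < t} => ((zB T (u : Fin n) (v : Fin n) : ℤ) : ZMod (nv p)))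
      (fun u v => zWQ (nv K) (nv m) (nv s) (nv R) (nv L) (nv Q) (u : Fin n) (v : Fin n))).det := ⟨_, rfl⟩
  rw [← hD] at hdeg ⊢
  have h1 := PRS.sum_eval (nv p) D hdeg (nv e) (by omega) (by omega)
  have h2 : nv p - 1 - nv e = c := by omega
  rw [h2] at h1
  rw [← h1, ← SB_sum p (fun z => z ^ nv e * D.eval z), Finset.sum_filter]
  change (((∑ x : S n, cnd (nv x < nv p ∧ ¬ nv x = 0) (((nv x : ℕ) : ℤ) ^ nv e *
    zdet (T := fun n => Fin n) (qM t (nv K) (nv m) (nv s) (nv R) (nv L) (nv Q) T (nv x))) 0 : ℤ)) :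
      ZMod (nv p)) = _
  rw [Int.cast_sum]
  refine Finset.sum_congr rfl fun x _ => ?_
  by_cases hx : nv x < nv p ∧ ¬ nv x = 0
  · rw [cnd_pos hx, if_pos hx, Int.cast_mul, Int.cast_pow, Int.cast_natCast, SB_det, hD]
  · rw [cnd_neg hx, if_neg hx, Int.cast_zero]

end QIC
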