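import Pool.Agent.Lib.MP_0087d5_lcQC.SD

/-!
# LEAF SC (medium-): the coefficient tells the edges of the isolated perfect matching

PROOF. Copy `XC_supp`, `XC_mt`, `XC_coeff` (private) of `Pool/Agent/Lib/MP_0087d5_lcPR/XC.lean` (git show origin/main:..), with the vertices `{v : Fin n // (v : ℕ) < t}` instead of `Fin n`: `PRS.coeff_zero` (file PR/XA) and `Pool.Agent.FRC.Uni.coeff_det_wm`.
-/

set_option autoImplicit false
set_option linter.all false

namespace QIC

open Finset Pool.Agent Pool.Agent.PMNC MTC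

private theorem SC_supp {n P : ℕ} [Fact P.Prime] (G : SimpleGraph (Fin n)) (u v : Fin n) :
    ((zB G u v : ℤ) : ZMod P) ≠ 0 ↔ G.Adj u v := by
  constructor
  · intro h
    apply zB_adj
    intro h0
    apply h
    rw [h0, Int.cast_zero]
  · intro h
    rcases zB_cases G h with h1 | h1
    · rw [h1, Int.cast_one]
      exact one_ne_zero
    · rw [h1, Int.cast_neg, Int.cast_one]
      exact neg_ne_zero.2 one_ne_zero

private theorem SC_mt {n P : ℕ} [Fact P.Prime] (t : ℕ) (G : SimpleGraph (Fin n))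
    (m : {v : Fin n // (v : ℕ) < t} → {v : Fin n // (v : ℕ) < t}) :
    Pool.Agent.FRC.Uni.Mt (fun u v : {v : Fin n // (v : ℕ) < t} => ((zB G (u : Fin n) (v : Fin n) : ℤ) : ZMod P)) m ↔
      MTC.IsPM (fun a b : {v : Fin n // (v : ℕ) < t} => G.Adj (a : Fin n) (b : Fin n)) m := by
  constructor
  · intro h
    exact ⟨h.invol, fun v => (SC_supp G v (m v)).1 (h.supp v)⟩
  · intro h
    exact ⟨h.1, fun v he => G.ne_of_adj (h.2 v) (congrArg Subtype.val he).symm, fun v => (SC_supp G v (m v)).2 (h.2 v)⟩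

theorem coeff_iff {n P : ℕ} [Fact P.Prime] (t : ℕ) (T : SimpleGraph (Fin n))
    (w : {v : Fin n // (v : ℕ) < t} → {v : Fin n // (v : ℕ) < t} → ℕ) (hw : ∀ u v, w u v = w v u)
    {f : {v : Fin n // (v : ℕ) < t} → {v : Fin n // (v : ℕ) < t}}
    (hf : MTC.IsPM (fun a b : {v : Fin n // (v : ℕ) < t} => T.Adj (a : Fin n) (b : Fin n)) f)
    (hmin : ∀ f', MTC.IsPM (fun a b : {v : Fin n // (v : ℕ) < t} => T.Adj (a : Fin n) (b : Fin n)) f' → f' ≠ f → MTC.tw w f < MTC.tw w f')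
    {u v : {v : Fin n // (v : ℕ) < t}} (huv : T.Adj (u : Fin n) (v : Fin n)) :
    (Pool.Agent.FRC.Uni.wm (fun x y : {v : Fin n // (v : ℕ) < t} =>
      ((zB (PRS.del T ((u : Fin n), (v : Fin n))) (x : Fin n) (y : Fin n) : ℤ) : ZMod P)) w).det.coeff (MTC.tw w f) = 0 ↔ f u = v := by
  obtain ⟨D, hD⟩ : ∃ D : SimpleGraph (Fin n), D = PRS.del T ((u : Fin n), (v : Fin n)) := ⟨_, rfl⟩
  have hDa : ∀ x y : Fin n, D.Adj x y ↔ T.Adj x y ∧ ¬ ((x = (u : Fin n) ∧ y = (v : Fin n)) ∨ (x = (v : Fin n) ∧ y = (u : Fin n))) := by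
    intro x y
    rw [hD]
    rfl
  rw [← hD]
  have h0 : ∀ x : {v : Fin n // (v : ℕ) < t}, ((zB D (x : Fin n) (x : Fin n) : ℤ) : ZMod P) = 0 := fun x => by
    rw [zB_diag, Int.cast_zero]
  have hb : ∀ x y : {v : Fin n // (v : ℕ) < t}, ((zB D (x : Fin n) (y : Fin n) : ℤ) : ZMod P) =
      - ((zB D (y : Fin n) (x : Fin n) : ℤ) : ZMod P) := fun x y => by rw [zB_skew, Int.cast_neg]
  have hsub : ∀ m, MTC.IsPM (fun a b : {v : Fin n // (v : ℕ) < t} => D.Adj (a : Fin n) (b : Fin n)) m →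
      MTC.IsPM (fun a b : {v : Fin n // (v : ℕ) < t} => T.Adj (a : Fin n) (b : Fin n)) m :=
    fun m h => ⟨h.1, fun x => ((hDa _ _).1 (h.2 x)).1⟩
  constructor
  · intro h
    by_contra hne
    have hf' : MTC.IsPM (fun a b : {v : Fin n // (v : ℕ) < t} => D.Adj (a : Fin n) (b : Fin n)) f := by
      refine ⟨hf.1, fun x => (hDa _ _).2 ⟨hf.2 x, ?_⟩⟩
      rintro (⟨h1, h2⟩ | ⟨h1, h2⟩)
      · have h1' : x = u := Subtype.ext h1
        have h2' : f x = v := Subtype.ext h2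
        rw [h1'] at h2'
        exact hne h2'
      · have h1' : x = v := Subtype.ext h1
        have h2' : f x = u := Subtype.ext h2
        apply hne
        rw [← h2', hf.1, h1']
    have hm : Pool.Agent.FRC.Uni.Mt (fun x y : {v : Fin n // (v : ℕ) < t} => ((zB D (x : Fin n) (y : Fin n) : ℤ) : ZMod P)) f :=
      (SC_mt t D f).2 hf'
    have h1 := Pool.Agent.FRC.Uni.coeff_det_wm
      (fun x y : {v : Fin n // (v : ℕ) < t} => ((zB D (x : Fin n) (y : Fin n) : ℤ) : ZMod P)) h0 hb w hw hm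
      fun m' hm' hne' => hmin m' (hsub _ ((SC_mt t D m').1 hm')) hne'
    have h2 : (Pool.Agent.FRC.Uni.wm (fun x y : {v : Fin n // (v : ℕ) < t} =>
        ((zB D (x : Fin n) (y : Fin n) : ℤ) : ZMod P)) w).det.coeff (∑ v, w v (f v)) = 0 := h
    rw [h2] at h1
    have h3 : (((Equiv.Perm.sign hm.perm : ℤ) : ZMod P) *
        ∏ x : {v : Fin n // (v : ℕ) < t}, ((zB D ((f x : {v : Fin n // (v : ℕ) < t}) : Fin n) (x : Fin n) : ℤ) : ZMod P)) ≠ 0 := by
      refine mul_ne_zero ?_ (Finset.prod_ne_zero_iff.2 fun x _ => ?_)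
      · rcases Int.units_eq_one_or (Equiv.Perm.sign hm.perm) with e | e
        · rw [e]
          simp
        · rw [e]
          simp
      · rw [hb]
        exact neg_ne_zero.2 (hm.supp x)
    exact h3 h1.symm
  · intro h
    refine PRS.coeff_zero (fun x y : {v : Fin n // (v : ℕ) < t} => ((zB D (x : Fin n) (y : Fin n) : ℤ) : ZMod P))
      h0 hb w hw _ fun m' hm' => ?_
    have h1 := (SC_mt t D m').1 hm'
    refine hmin m' (hsub _ h1) fun he => ?_
    have h2 := ((hDa _ _).1 (h1.2 u)).2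
    apply h2
    left
    refine ⟨rfl, ?_⟩
    rw [he, h]

end QIC
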