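import Pool.Agent.Lib.MP_0087d5_lcQC.Defs
import Pool.Agent.Lib.MP_0087d5_lcPR.SDefs
import Pool.Agent.Lib.MP_0087d5_lcPR.XA

/-!
# Search with certificates on the first `k` vertices: definitions

The tested graph has the vertices `v < t`. For the search of a maximum matching of the graph with the edges of `G` inside the first `k` vertices, `t = k + d`, and the vertices `k, …, k + d - 1` are joined to all the vertices `< k`.
-/

set_option autoImplicit false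
set_option linter.all false

namespace QIC

open Finset Pool.Agent Pool.Agent.PMNC MTC

/-- the parameters `K, m, s, R, L, Q, p, e` -/
abbrev Par (S : ℕ → Type) (n : ℕ) : Type := S n × (S n × (S n × (S n × (S n × (S n × (S n × S n))))))

section
variable {n : ℕ}

/-- the edges of `G` inside the first `k` vertices -/
def cut (k : ℕ) (G : SimpleGraph (Fin n)) : SimpleGraph (Fin n) where
  Adj u v := G.Adj u v ∧ (u : ℕ) < k ∧ (v : ℕ) < k
  symm := ⟨fun _ _ h => ⟨h.1.symm, h.2.2, h.2.1⟩⟩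
  loopless := ⟨fun _ h => G.irrefl h.1⟩

/-- the tested graph: the edges of `G` inside the first `k` vertices, and all the edges between these and the other vertices -/
def T1 (k : ℕ) (G : SimpleGraph (Fin n)) : SimpleGraph (Fin n) where
  Adj u v := ((u : ℕ) < k ∧ (v : ℕ) < k ∧ G.Adj u v) ∨ ((u : ℕ) < k ∧ ¬ (v : ℕ) < k) ∨ (¬ (u : ℕ) < k ∧ (v : ℕ) < k)
  symm := ⟨by
    rintro u v (h | h | h)
    · exact Or.inl ⟨h.2.1, h.1, h.2.2.symm⟩
    · exact Or.inr (Or.inr ⟨h.2, h.1⟩)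
    · exact Or.inr (Or.inl ⟨h.2, h.1⟩)⟩
  loopless := ⟨by
    rintro u (h | h | h)
    · exact G.irrefl h.2.2
    · exact h.2 h.1
    · exact h.1 h.2⟩

/-- moreover the vertex `v` loses its neighbours among the first `k` vertices -/
def T2 (k : ℕ) (G : SimpleGraph (Fin n)) (v : Fin n) : SimpleGraph (Fin n) where
  Adj x y := (T1 k G).Adj x y ∧ ¬ ((x : ℕ) < k ∧ (y : ℕ) < k ∧ (x = v ∨ y = v))
  symm := ⟨fun x y h => ⟨h.1.symm, fun h1 => h.2 ⟨h1.2.1, h1.1, h1.2.2.symm⟩⟩⟩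
  loopless := ⟨fun _ h => (T1 k G).irrefl h.1⟩

/-- `f` is a perfect matching of `T` on the vertices `< t` -/
def PMt (t : ℕ) (T : SimpleGraph (Fin n)) (f : Fin n → Fin n) : Prop :=
  (∀ x, f (f x) = x) ∧ (∀ x : Fin n, (x : ℕ) < t → (f x : ℕ) < t ∧ T.Adj x (f x)) ∧ ∀ x : Fin n, ¬ (x : ℕ) < t → f x = x

/-- `R` is a perfect matching on the vertices `< t` -/
def PMq (t : ℕ) (R : Fin n → Fin n → Prop) : Prop :=
  (∀ u : Fin n, (u : ℕ) < t → ∃ v, R u v) ∧ (∀ u v w, R u v → R u w → v = w) ∧ ∀ u v, R u v → R v u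

end

section
variable {S : ℕ → Type} [Env S] [∀ n, Fintype (S n)] {n : ℕ}

/-- the sum over `x` of `x ^ e` times the determinant: the coefficient of `x ^ (p - 1 - e)` up to the sign -/
noncomputable def co (t : ℕ) (T : SimpleGraph (Fin n)) (a : Par S n) : ℤ :=
  ∑ x : S n, cnd (nv x < nv a.2.2.2.2.2.2.1 ∧ ¬ nv x = 0) (((nv x : ℕ) : ℤ) ^ nv a.2.2.2.2.2.2.2 *
    zdet (T := fun n => Fin n) (qM t (nv a.1) (nv a.2.1) (nv a.2.2.1) (nv a.2.2.2.1) (nv a.2.2.2.2.1) (nv a.2.2.2.2.2.1) T (nv x))) 0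

/-- the edge `u v` is read off as an edge of the matching -/
def edq (t : ℕ) (T : SimpleGraph (Fin n)) (a : Par S n) (u v : Fin n) : Prop :=
  prS a.2.2.2.2.2.2.1 ∧ (¬ nv a.2.1 = 0) ∧ (¬ nv a.2.2.2.2.2.1 = 0) ∧ ((u : ℕ) < t ∧ (v : ℕ) < t ∧ T.Adj u v) ∧
    ¬ nd a.2.2.2.2.2.2.1 (co t (PRS.del T (u, v)) a)

/-- the least parameters `d ≤ k, a` which give a perfect matching of the tested graph -/
def Lst (k : ℕ) (G : SimpleGraph (Fin n)) (e : Fin n × Par S n) : Prop :=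
  ((e.1 : ℕ) ≤ k ∧ PMq (k + (e.1 : ℕ)) (edq (k + (e.1 : ℕ)) (T1 k G) e.2)) ∧
    ∀ e' : Fin n × Par S n, ((e'.1 : ℕ) ≤ k ∧ PMq (k + (e'.1 : ℕ)) (edq (k + (e'.1 : ℕ)) (T1 k G) e'.2)) →
      e.1 < e'.1 ∨ (e.1 = e'.1 ∧ nv e.2 ≤ nv e'.2)

/-- the matching -/
def MR (S : ℕ → Type) [Env S] [∀ n, Fintype (S n)] {n : ℕ} (k : ℕ) (G : SimpleGraph (Fin n)) (u v : Fin n) : Prop :=
  (u : ℕ) < k ∧ (v : ℕ) < k ∧ ∃ e : Fin n × Par S n, Lst k G e ∧ edq (k + (e.1 : ℕ)) (T1 k G) e.2 u v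

/-- the set `D` of the decomposition of Gallai and Edmonds (its part among the first `k` vertices) -/
def DR (S : ℕ → Type) [Env S] [∀ n, Fintype (S n)] {n : ℕ} (k : ℕ) (G : SimpleGraph (Fin n)) (v : Fin n) : Prop :=
  (v : ℕ) < k ∧ ∃ e : Fin n × Par S n, Lst k G e ∧ ∃ b : Par S n, PMq (k + (e.1 : ℕ)) (edq (k + (e.1 : ℕ)) (T2 k G v) b)

/-- the set `A` of the decomposition of Gallai and Edmonds -/
def UR (S : ℕ → Type) [Env S] [∀ n, Fintype (S n)] {n : ℕ} (k : ℕ) (G : SimpleGraph (Fin n)) (w : Fin n) : Prop :=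
  (w : ℕ) < k ∧ ¬ DR S k G w ∧ ∃ u, DR S k G u ∧ G.Adj w u

/-- the matrix of the tested graph is read off correctly: a graph with a perfect matching on the vertices `< t` has parameters for which the relation `edq` is a perfect matching -/
def Complete (S : ℕ → Type) [Env S] [∀ n, Fintype (S n)] (n k : ℕ) : Prop :=
  ∀ t ≤ k, ∀ T : SimpleGraph (Fin n), (∃ f, PMt t T f) →
    ∃ (a : Par S n) (f : Fin n → Fin n), PMt t T f ∧ ∀ u v, edq t T a u v ↔ ((u : ℕ) < t ∧ f u = v)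

end

end QIC
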