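import Pool.Agent.Lib.MP_0087d5_lcQC.SB
import Pool.Agent.Lib.MP_0087d5_lcQC.SC
import Pool.Agent.Lib.MP_0087d5_lcQC.B3

/-!
# LEAF SE (medium): the edges of an isolated perfect matching are read off correctly

PROOF. As `acc_complete` (`Pool/Agent/Lib/MP_0087d5_lcQC/B4.lean`, copy the choice of `m, K, s, r, R, Q, p` and of the elements of `S`) and `ed_complete` (`Pool/Agent/Lib/MP_0087d5_lcPR/XC.lean`). Let `V = {v : Fin n // (v : ℕ) < t}`, `card V = t ≤ k`; from `PMt t T f₀` a function on `V` with `MTC.IsPM`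
for the adjacency `T.Adj`. The isolation theorem `hC` for `V` with its `n := k`, `e = lab k` on `V` (`lab_Lab k` gives `Lab k` on the vertices `< k`; restrict to the vertices `< t`), gives `r` and the isolated `f : V → V`; weights `w u v = wQ K m s R (lab k u v) < K ^ s ≤ n ^ (2 * C + 6)`
(`WS_eq`, `wQ_lt`, `pow_clog`), `Q = n ^ (2 * C + 6)` so `zWQ .. = w`; `tw w f ≤ t * n ^ (2 * C + 6) ≤ n ^ (2 * C + 7)`, prime number `p` with `n ^ (2 * C + 8) < p ≤ 2 * n ^ (2 * C + 8)`, `c = tw w f < p - 1`, `e = p - 1 - c`; degree of the determinant `< p - 1` (`det_deg` as in `ed_complete`).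
`co_eq` (leaf SB) and `coeff_iff` (leaf SC) for `T' = del T (u, v)` (`co t (del T (u, v)) a = 0` in `ZMod p` iff `f u = v`, for `u, v < t` adjacent). The function on `Fin n`: `f` on the vertices `< t`, the identity on the others.
-/

set_option autoImplicit false
set_option linter.all false

namespace QIC

open Finset Pool.Agent Pool.Agent.PMNC MTC

private theorem SE_rz {Q a : ℕ} (h : a < Q) : rz Q ((a : ℕ) : ℤ) = a := by
  unfold rz
  rw [Int.emod_eq_of_lt (by omega) (by omega)]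
  exact Int.toNat_natCast a

private theorem SE_lab (k u v : ℕ) : lab k u v = lab k v u := by
  unfold lab
  rw [min_comm, max_comm]

private theorem SE_Lab {n k t : ℕ} (htk : t ≤ k) :
    Lab k (fun a b : {v : Fin n // (v : ℕ) < t} => lab k ((a : Fin n) : ℕ) ((b : Fin n) : ℕ)) := by
  have h0 := lab_Lab (n := n) k
  have hj : ∀ {a b : {v : Fin n // (v : ℕ) < t}} {ha : (a : Fin n) ∈ {v : Fin n | (v : ℕ) < k}} {hb : (b : Fin n) ∈ {v : Fin n | (v : ℕ) < k}},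
      (⟨(a : Fin n), ha⟩ : {v : Fin n | (v : ℕ) < k}) = ⟨(b : Fin n), hb⟩ → a = b := by
    intro a b ha hb h
    have h1 : (a : Fin n) = b := congrArg (fun z : {v : Fin n | (v : ℕ) < k} => (z : Fin n)) h
    exact Subtype.ext h1
  refine ⟨fun a b => SE_lab _ _ _, fun a b a' b' hab h => ?_, fun a b => ?_⟩
  · rcases h0.2.1 ⟨a.1, lt_of_lt_of_le a.2 htk⟩ ⟨b.1, lt_of_lt_of_le b.2 htk⟩ ⟨a'.1, lt_of_lt_of_le a'.2 htk⟩
      ⟨b'.1, lt_of_lt_of_le b'.2 htk⟩ (fun h' => hab (hj h')) h with ⟨h1, h2⟩ | ⟨h1, h2⟩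
    · exact Or.inl ⟨hj h1, hj h2⟩
    · exact Or.inr ⟨hj h1, hj h2⟩
  · exact h0.2.2 ⟨a.1, lt_of_lt_of_le a.2 htk⟩ ⟨b.1, lt_of_lt_of_le b.2 htk⟩

private theorem SE_card {n t : ℕ} : Fintype.card {v : Fin n // (v : ℕ) < t} ≤ t := by
  have h := Fintype.card_le_of_injective (fun v : {v : Fin n // (v : ℕ) < t} => (⟨(v.1 : ℕ), v.2⟩ : Fin t)) (by
    intro a b hab
    have h1 : (⟨(a.1 : ℕ), a.2⟩ : Fin t) = ⟨(b.1 : ℕ), b.2⟩ := hab
    have h2 : ((a.1 : Fin n) : ℕ) = ((b.1 : Fin n) : ℕ) := congrArg (fun z : Fin t => (z : ℕ)) h1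
    exact Subtype.ext (Fin.ext h2))
  rw [Fintype.card_fin] at h
  exact h

theorem edq_complete {S : ℕ → Type} [Env S] [∀ n, Fintype (S n)] {C : ℕ} (hC : IsoStmt C) (hS : 2 * C + 20 ≤ dim S)
    {n k : ℕ} (hk : 2 ≤ k) (hkn : k ≤ n) (hkl : k ^ Nat.log 2 k ≤ n) : Complete S n k := by
  intro t htk T hT
  obtain ⟨f₀, hf₀1, hf₀2, hf₀3⟩ := hT
  have hn : 2 ≤ n := hk.trans hkn
  have hlow : ∀ {a c : ℕ}, a ≤ n ^ c → c < dim S → a < n ^ dim S := fun ha hc =>
    lt_of_le_of_lt ha (Nat.pow_lt_pow_right (by omega) hc)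
  -- the prime number m
  obtain ⟨m, hm, hm1, hm2⟩ := Nat.exists_prime_lt_and_le_two_mul (k ^ C) (by positivity)
  have hm3 : m ≤ k ^ (C + 1) := by
    calc m ≤ 2 * k ^ C := hm2
      _ ≤ k * k ^ C := Nat.mul_le_mul_right _ hk
      _ = k ^ (C + 1) := by ring
  obtain ⟨K, hKdef⟩ : ∃ K, K = k * m + 1 := ⟨_, rfl⟩
  have hK1 : k * m < K := by omega
  have hK2 : K ≤ k ^ (C + 3) := by
    have h1 : k * m ≤ k * k ^ (C + 1) := Nat.mul_le_mul_left _ hm3
    have h2 : k * k ^ (C + 1) = k ^ (C + 2) := by ring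
    have h3 : 1 ≤ k ^ (C + 2) := Nat.one_le_pow _ _ (by omega)
    calc K ≤ k ^ (C + 2) + k ^ (C + 2) := by omega
      _ = 2 * k ^ (C + 2) := by ring
      _ ≤ k * k ^ (C + 2) := Nat.mul_le_mul_right _ hk
      _ = k ^ (C + 3) := by ring
  have hmK : m ≤ K := by
    have h1 : m ≤ k * m := Nat.le_mul_of_pos_left _ (by omega)
    omega
  obtain ⟨s, hs⟩ : ∃ s, s = Nat.clog 2 k := ⟨_, rfl⟩
  have hs1 : s ≤ n := by
    rw [hs]
    exact (Nat.clog_le_of_le_pow (Nat.lt_two_pow_self (n := k)).le).trans hkn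
  have hms : m ^ s ≤ n ^ (2 * (C + 1)) := by
    rw [hs]
    exact pow_clog hk hkl hm3
  have hKs : K ^ s ≤ n ^ (2 * (C + 3)) := by
    rw [hs]
    exact pow_clog hk hkl hK2
  -- the isolation theorem
  have hpm : ∃ f, MTC.IsPM (fun a b : {v : Fin n // (v : ℕ) < t} => T.Adj (a : Fin n) (b : Fin n)) f :=
    ⟨fun a => ⟨f₀ a, (hf₀2 a a.2).1⟩, fun a => Subtype.ext (hf₀1 _), fun a => (hf₀2 a a.2).2⟩
  obtain ⟨r, hr, f, hf, hu⟩ := hC {v : Fin n // (v : ℕ) < t} k hk (SE_card.trans htk)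
    (fun a b : {v : Fin n // (v : ℕ) < t} => lab k (a : Fin n) (b : Fin n)) (SE_Lab htk) m hm hm1.le K hK1
    (fun a b : {v : Fin n // (v : ℕ) < t} => T.Adj (a : Fin n) (b : Fin n)) (fun a b h => h.symm)
    (fun a h => h.ne rfl) hpm
  rw [← hs] at hu
  obtain ⟨R, hR, hWS⟩ := WS_eq (fun a b : {v : Fin n // (v : ℕ) < t} => lab k (a : Fin n) (b : Fin n)) (K := K) hr s
  -- the prime number p
  obtain ⟨p₀, hp₀, hlt, hle⟩ := Nat.exists_prime_lt_and_le_two_mul (n ^ (2 * C + 8)) (by positivity)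
  have hp1 : p₀ < n ^ dim S := by
    refine hlow (c := 2 * C + 9) ?_ (by omega)
    calc p₀ ≤ 2 * n ^ (2 * C + 8) := hle
      _ ≤ n * n ^ (2 * C + 8) := Nat.mul_le_mul_right _ hn
      _ = n ^ (2 * C + 9) := by ring
  obtain ⟨p, rfl⟩ := nv_surj (S := S) hp1
  haveI : Fact (nv p).Prime := ⟨hp₀⟩
  -- the parameters
  obtain ⟨K', hK'⟩ := nv_surj (S := S) (n := n) (m := K)
    (hlow (c := C + 3) (hK2.trans (Nat.pow_le_pow_left hkn _)) (by omega))
  obtain ⟨m', hm'⟩ := nv_surj (S := S) (n := n) (m := m)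
    (hlow (c := C + 1) (hm3.trans (Nat.pow_le_pow_left hkn _)) (by omega))
  obtain ⟨s', hs'⟩ := nv_surj (S := S) (n := n) (m := s) (hlow (c := 1) (by rw [pow_one]; exact hs1) (by omega))
  obtain ⟨R', hR'⟩ := nv_surj (S := S) (n := n) (m := R) (hlow (c := 2 * (C + 1)) (hR.le.trans hms) (by omega))
  obtain ⟨L', hL'⟩ := nv_surj (S := S) (n := n) (m := k) (hlow (c := 1) (by rw [pow_one]; exact hkn) (by omega))
  obtain ⟨Q', hQ'⟩ := nv_surj (S := S) (n := n) (m := n ^ (2 * C + 6)) (hlow (c := 2 * C + 6) le_rfl (by omega))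
  obtain ⟨w, hw⟩ : ∃ w : {v : Fin n // (v : ℕ) < t} → {v : Fin n // (v : ℕ) < t} → ℕ,
      w = fun u v : {v : Fin n // (v : ℕ) < t} => zWQ (nv K') (nv m') (nv s') (nv R') (nv L') (nv Q') (u : Fin n) (v : Fin n) := ⟨_, rfl⟩
  have hlt0 : ∀ e : ℕ, wQ K m s R e < n ^ (2 * C + 6) := fun e =>
    lt_of_lt_of_le (wQ_lt hm.pos hmK) (hKs.trans (le_of_eq (by ring_nf)))
  have hweq : ∀ u v, w u v = wQ K m s R (lab k ((u : Fin n) : ℕ) ((v : Fin n) : ℕ)) := by
    intro u v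
    rw [hw]
    show rz (nv Q') ((wQ (nv K') (nv m') (nv s') (nv R') (lab (nv L') ((u : Fin n) : ℕ) ((v : Fin n) : ℕ)) : ℕ) : ℤ) = _
    rw [hK', hm', hs', hR', hL', hQ']
    exact SE_rz (hlt0 _)
  have hWS' : WS (fun a b : {v : Fin n // (v : ℕ) < t} => lab k (a : Fin n) (b : Fin n)) K m r s = w := by
    funext a b
    rw [hWS, hweq]
  rw [hWS'] at hu
  have hwlt : ∀ u v, w u v < n ^ (2 * C + 6) := fun u v => by
    rw [hweq]
    exact hlt0 _
  have hws : ∀ u v, w u v = w v u := fun u v => by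
    rw [hweq, hweq, SE_lab]
  have hcard : Fintype.card {v : Fin n // (v : ℕ) < t} ≤ n := SE_card.trans (htk.trans hkn)
  have hN : Fintype.card {v : Fin n // (v : ℕ) < t} * n ^ (2 * C + 6) < nv p - 1 := by
    have h0 : Fintype.card {v : Fin n // (v : ℕ) < t} * n ^ (2 * C + 6) ≤ n * n ^ (2 * C + 6) :=
      Nat.mul_le_mul_right _ hcard
    have h1 : n * n ^ (2 * C + 6) = n ^ (2 * C + 7) := by ring
    have h2 : n ^ (2 * C + 7) < n ^ (2 * C + 8) := Nat.pow_lt_pow_right (by omega) (by omega)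
    omega
  have hc : MTC.tw w f < nv p - 1 := by
    refine lt_of_le_of_lt ?_ hN
    unfold MTC.tw
    refine (Finset.sum_le_card_nsmul _ _ (n ^ (2 * C + 6)) fun u _ => (hwlt _ _).le).trans ?_
    rw [Finset.card_univ, smul_eq_mul]
  obtain ⟨e, he⟩ := nv_surj (S := S) (n := n) (m := nv p - 1 - MTC.tw w f) (by omega)
  have hdeg : ∀ T' : SimpleGraph (Fin n),
      (Pool.Agent.FRC.Uni.wm (fun u v : {v : Fin n // (v : ℕ) < t} => ((zB T' (u : Fin n) (v : Fin n) : ℤ) : ZMod (nv p)))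
        w).det.natDegree < nv p - 1 := by
    intro T'
    refine lt_of_le_of_lt (det_deg _ (n ^ (2 * C + 6)) fun r c => ?_) hN
    exact (Polynomial.natDegree_C_mul_X_pow_le _ _).trans (hwlt r c).le
  have hco : ∀ T' : SimpleGraph (Fin n),
      ((co t T' (K', (m', (s', (R', (L', (Q', (p, e))))))) : ℤ) : ZMod (nv p)) =
        - (Pool.Agent.FRC.Uni.wm (fun u v : {v : Fin n // (v : ℕ) < t} => ((zB T' (u : Fin n) (v : Fin n) : ℤ) : ZMod (nv p)))
          w).det.coeff (MTC.tw w f) := by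
    intro T'
    have h1 := hdeg T'
    rw [hw] at h1 ⊢
    rw [hw] at hc he
    exact co_eq t T' K' m' s' R' L' Q' p e _ h1 hc he
  have hcf : ∀ {u v : {v : Fin n // (v : ℕ) < t}}, T.Adj (u : Fin n) (v : Fin n) →
      ((co t (PRS.del T ((u : Fin n), (v : Fin n))) (K', (m', (s', (R', (L', (Q', (p, e))))))) : ℤ) : ZMod (nv p)) = 0 →
      f u = v := by
    intro u v huv h3
    rw [hco, neg_eq_zero] at h3
    exact (coeff_iff (P := nv p) t T w hws hf hu huv).1 h3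
  have hcb : ∀ {u v : {v : Fin n // (v : ℕ) < t}}, T.Adj (u : Fin n) (v : Fin n) → f u = v →
      ((co t (PRS.del T ((u : Fin n), (v : Fin n))) (K', (m', (s', (R', (L', (Q', (p, e))))))) : ℤ) : ZMod (nv p)) = 0 := by
    intro u v huv h3
    rw [hco, neg_eq_zero]
    exact (coeff_iff (P := nv p) t T w hws hf hu huv).2 h3
  -- the function on all the vertices
  obtain ⟨F, hFdef⟩ : ∃ F : Fin n → Fin n, F = fun x : Fin n => if h : (x : ℕ) < t then ((f ⟨x, h⟩ : {v : Fin n // (v : ℕ) < t}) : Fin n) else x := ⟨_, rfl⟩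
  have hFp : ∀ {x : Fin n} (h : (x : ℕ) < t), F x = ((f ⟨x, h⟩ : {v : Fin n // (v : ℕ) < t}) : Fin n) := by
    intro x h
    rw [hFdef]
    exact dif_pos h
  have hFn : ∀ {x : Fin n}, ¬ (x : ℕ) < t → F x = x := by
    intro x h
    rw [hFdef]
    exact dif_neg h
  refine ⟨(K', (m', (s', (R', (L', (Q', (p, e))))))), F, ⟨fun x => ?_, fun x hx => ?_, fun x hx => hFn hx⟩,
    fun u v => ?_⟩
  · by_cases hx : (x : ℕ) < t
    · have h1 : ((F x : Fin n) : ℕ) < t := by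
        rw [hFp hx]
        exact (f ⟨x, hx⟩).2
      rw [hFp h1]
      have h2 : (⟨F x, h1⟩ : {v : Fin n // (v : ℕ) < t}) = f ⟨x, hx⟩ := Subtype.ext (hFp hx)
      rw [h2, hf.1]
    · rw [hFn hx, hFn hx]
  · rw [hFp hx]
    exact ⟨(f ⟨x, hx⟩).2, hf.2 ⟨x, hx⟩⟩
  · constructor
    · rintro ⟨-, -, -, ⟨hu1, hv1, huv⟩, hnd⟩
      refine ⟨hu1, ?_⟩
      have h1 : ((nv p : ℕ) : ℤ) ∣ co t (PRS.del T (u, v)) (K', (m', (s', (R', (L', (Q', (p, e))))))) := by
        by_contra h2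
        exact hnd ⟨hp₀.pos, h2⟩
      have h3 := (ZMod.intCast_zmod_eq_zero_iff_dvd _ _).2 h1
      have h4 := hcf (u := ⟨u, hu1⟩) (v := ⟨v, hv1⟩) huv h3
      rw [hFp hu1, h4]
    · rintro ⟨hu1, h⟩
      have hv1 : (v : ℕ) < t := by
        rw [← h, hFp hu1]
        exact (f ⟨u, hu1⟩).2
      have h4 : f ⟨u, hu1⟩ = ⟨v, hv1⟩ := by
        apply Subtype.ext
        rw [← hFp hu1]
        exact h
      have huv : T.Adj u v := by
        have h5 := hf.2 ⟨u, hu1⟩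
        rw [h4] at h5
        exact h5
      refine ⟨(prS_iff p).2 hp₀, ?_, ?_, ⟨hu1, hv1, huv⟩, fun hnd => hnd.2 ?_⟩
      · show ¬ nv m' = 0
        rw [hm']
        exact hm.ne_zero
      · show ¬ nv Q' = 0
        rw [hQ']
        exact (Nat.pow_pos (by omega)).ne'
      · rw [← ZMod.intCast_zmod_eq_zero_iff_dvd]
        exact hcb (u := ⟨u, hu1⟩) (v := ⟨v, hv1⟩) huv h4

end QIC
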