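import Pool.Agent.Lib.MP_0087d5_lcQC.A5
import Pool.Agent.Lib.MP_0087d5_lcQC.SD

/-!
# LEAF SF (medium-): the matrix of the test is definable, with parameters

PROOF. Copy `defZ_qM` of `Pool/Agent/Lib/MP_0087d5_lcQC/A6.lean`; now the graph is `T n G b` and the threshold `t n b` with the parameter `b`, as in `defZ_zM2` of `Pool/Agent/Lib/MP_0087d5_lcLI/NC2.lean`: `(T n G (b n x)).Adj ..` by `DefP.comp` from `hT` (as `zB` there), `(u : ℕ) < t n (b n x)` by `DefP.comp` from `ht`.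
-/

set_option autoImplicit false
set_option linter.all false

namespace QIC

open Finset Pool.Agent Pool.Agent.PMNC MTC

theorem defZ_qMB {B : ℕ → Type} [Env B] {t : ∀ n : ℕ, B n → ℕ}
    (ht : DefP (E := fun n => B n × Fin n) (fun n G X y => (y.2 : ℕ) < t n y.1))
    {T : ∀ n : ℕ, SimpleGraph (Fin n) → B n → SimpleGraph (Fin n)}
    (hT : DefP (E := fun n => B n × (Fin n × Fin n)) (fun n G X y => (T n G y.1).Adj y.2.1 y.2.2))
    {E S : ℕ → Type} [Env E] [Env S] [∀ n, Fintype (S n)] {b : ∀ n : ℕ, E n → B n} (hb : Tm b)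
    {K m s R L Q p z : ∀ n : ℕ, E n → S n}
    (hK : Tm K) (hm : Tm m) (hs : Tm s) (hR : Tm R) (hL : Tm L) (hQ : Tm Q) (hp : Tm p) (hz : Tm z)
    {u v : ∀ n : ℕ, E n → Fin n} (hu : Tm (F := fun n => Fin n) u) (hv : Tm (F := fun n => Fin n) v) :
    DefZ p (fun n G X x => cnd (nv (m n x) = 0 ∨ nv (Q n x) = 0) 0
      (qM (t n (b n x)) (nv (K n x)) (nv (m n x)) (nv (s n x)) (nv (R n x)) (nv (L n x)) (nv (Q n x)) (T n G (b n x)) (nv (z n x)) (u n x) (v n x))) := by
  have hX := DefZ.nv' (H := S) hp hz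
  have hpw := defZ_pW hK hm hs hR hL hQ hp hu hv hX
  have hB : DefZ p (fun n G X e => zB (T n G (b n e)) (u n e) (v n e)) := by
    unfold zB
    exact DefZ.ite (DefP.comp (F := fun n => B n × (Fin n × Fin n)) (f := fun n x => (b n x, (u n x, v n x))) hT
      (Tm.pair hb (Tm.pair (F := fun n => Fin n) (H := fun n => Fin n) hu hv)))
      (DefZ.ite (DefP.lt hu hv) (DefZ.one hp) (DefZ.neg hp (DefZ.one hp))) (DefZ.zero hp)
  have hku : DefP (fun n G X x => ((u n x : Fin n) : ℕ) < t n (b n x)) :=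
    DefP.comp (F := fun n => B n × Fin n) (f := fun n x => (b n x, u n x)) ht (Tm.pair (H := fun n => Fin n) hb hu)
  have hkv : DefP (fun n G X x => ((v n x : Fin n) : ℕ) < t n (b n x)) :=
    DefP.comp (F := fun n => B n × Fin n) (f := fun n x => (b n x, v n x)) ht (Tm.pair (H := fun n => Fin n) hb hv)
  refine (DefZ.ite (DefP.or (DefP.nZero hm) (DefP.nZero hQ)) (DefZ.zero hp) (DefZ.ite (DefP.and hku hkv)
    (DefZ.mul hp hB hpw) (DefZ.ite (DefP.eqFin hu hv) (DefZ.one hp) (DefZ.zero hp)))).congr fun n G X x => ?_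
  by_cases h0 : nv (m n x) = 0 ∨ nv (Q n x) = 0
  · rw [cnd_pos h0, cnd_pos h0]
  · rw [cnd_neg h0, cnd_neg h0, cnd_neg h0]
    rfl

end QIC
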