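import Pool.Agent.Lib.MP_0087d5_lcQC.SF

/-!
# LEAF SG (medium): the relation `edq` is definable

PROOF. Copy `defP_ed` of `Pool/Agent/Lib/MP_0087d5_lcPR/XD.lean` (git show origin/main:..), with `defZ_qMB` (leaf SF) instead of `defZ_zM2`, `B' := fun n => B n × (Fin n × Fin n)` and the graph `PRS.del (T n G b) e`. The factor `cnd (nv m = 0 ∨ nv Q = 0) 0 _` is treated as the factor `cnd (nv q = 0) 0 _` there.
-/

set_option autoImplicit false
set_option linter.all false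

namespace QIC

open Finset Pool.Agent Pool.Agent.PMNC MTC

theorem defP_edq {S B : ℕ → Type} [Env S] [Env B] [∀ n, Fintype (S n)] {t : ∀ n : ℕ, B n → ℕ}
    (ht : DefP (E := fun n => B n × Fin n) (fun n G X y => (y.2 : ℕ) < t n y.1))
    {T : ∀ n : ℕ, SimpleGraph (Fin n) → B n → SimpleGraph (Fin n)}
    (hT : DefP (E := fun n => B n × (Fin n × Fin n)) (fun n G X y => (T n G y.1).Adj y.2.1 y.2.2)) :
    DefP (E := fun n => (B n × Par S n) × (Fin n × Fin n)) (fun n G X y => edq (t n y.1.1) (T n G y.1.1) y.1.2 y.2.1 y.2.2) := by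
  have ht' : DefP (E := fun n => (B n × (Fin n × Fin n)) × Fin n) (fun n G X y => (y.2 : ℕ) < t n y.1.1) :=
    DefP.comp (E := fun n => (B n × (Fin n × Fin n)) × Fin n) (F := fun n => B n × Fin n)
      (f := fun n y => (y.1.1, y.2)) ht (Tm.pair (Tm.fst (Tm.fst Tm.id)) (Tm.snd Tm.id))
  have hT' : DefP (E := fun n => (B n × (Fin n × Fin n)) × (Fin n × Fin n))
      (fun n G X y => (PRS.del (T n G y.1.1) y.1.2).Adj y.2.1 y.2.2) := by
    have h1 : DefP (E := fun n => (B n × (Fin n × Fin n)) × (Fin n × Fin n)) (fun n G X y => (T n G y.1.1).Adj y.2.1 y.2.2) :=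
      DefP.comp (E := fun n => (B n × (Fin n × Fin n)) × (Fin n × Fin n)) (F := fun n => B n × (Fin n × Fin n))
        (f := fun n y => (y.1.1, y.2)) hT (Tm.pair (Tm.fst (Tm.fst Tm.id)) (Tm.snd Tm.id))
    have u1 : Tm (E := fun n => (B n × (Fin n × Fin n)) × (Fin n × Fin n)) (F := fun n => Fin n) (fun n y => y.2.1) :=
      Tm.fst (Tm.snd Tm.id)
    have u2 : Tm (E := fun n => (B n × (Fin n × Fin n)) × (Fin n × Fin n)) (F := fun n => Fin n) (fun n y => y.2.2) :=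
      Tm.snd (Tm.snd Tm.id)
    have w1 : Tm (E := fun n => (B n × (Fin n × Fin n)) × (Fin n × Fin n)) (F := fun n => Fin n) (fun n y => y.1.2.1) :=
      Tm.fst (Tm.snd (Tm.fst Tm.id))
    have w2 : Tm (E := fun n => (B n × (Fin n × Fin n)) × (Fin n × Fin n)) (F := fun n => Fin n) (fun n y => y.1.2.2) :=
      Tm.snd (Tm.snd (Tm.fst Tm.id))
    exact DefP.congr (DefP.and h1 (DefP.not (DefP.or (DefP.and (DefP.eqFin u1 w1) (DefP.eqFin u2 w2))
      (DefP.and (DefP.eqFin u1 w2) (DefP.eqFin u2 w1))))) fun n G X y => Iff.rfl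
  have T0 : Tm (E := fun n => (B n × Par S n) × (Fin n × Fin n)) (F := fun n => Par S n) (fun n e => e.1.2) := Tm.snd (Tm.fst Tm.id)
  have T1 : Tm (E := fun n => (B n × Par S n) × (Fin n × Fin n)) (F := S) (fun n e => e.1.2.1) := Tm.fst T0
  have R1 : Tm (E := fun n => (B n × Par S n) × (Fin n × Fin n)) (F := fun n => S n × (S n × (S n × (S n × (S n × (S n × S n))))))
    (fun n e => e.1.2.2) := Tm.snd T0
  have T2 : Tm (E := fun n => (B n × Par S n) × (Fin n × Fin n)) (F := S) (fun n e => e.1.2.2.1) := Tm.fst R1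
  have T3 : Tm (E := fun n => (B n × Par S n) × (Fin n × Fin n)) (F := S) (fun n e => e.1.2.2.2.1) := Tm.fst (Tm.snd R1)
  have T4 : Tm (E := fun n => (B n × Par S n) × (Fin n × Fin n)) (F := S) (fun n e => e.1.2.2.2.2.1) := Tm.fst (Tm.snd (Tm.snd R1))
  have T5 : Tm (E := fun n => (B n × Par S n) × (Fin n × Fin n)) (F := S) (fun n e => e.1.2.2.2.2.2.1) := Tm.fst (Tm.snd (Tm.snd (Tm.snd R1)))
  have T6 : Tm (E := fun n => (B n × Par S n) × (Fin n × Fin n)) (F := S) (fun n e => e.1.2.2.2.2.2.2.1) :=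
    Tm.fst (Tm.snd (Tm.snd (Tm.snd (Tm.snd R1))))
  have T7 : Tm (E := fun n => (B n × Par S n) × (Fin n × Fin n)) (F := S) (fun n e => e.1.2.2.2.2.2.2.2.1) :=
    Tm.fst (Tm.snd (Tm.snd (Tm.snd (Tm.snd (Tm.snd R1)))))
  have T8 : Tm (E := fun n => (B n × Par S n) × (Fin n × Fin n)) (F := S) (fun n e => e.1.2.2.2.2.2.2.2.2) :=
    Tm.snd (Tm.snd (Tm.snd (Tm.snd (Tm.snd (Tm.snd R1)))))
  have hc : ∀ {f : ∀ n : ℕ, ((B n × Par S n) × (Fin n × Fin n)) → S n}, Tm (E := fun n => (B n × Par S n) × (Fin n × Fin n)) f →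
      Tm (E := fun n => ((B n × Par S n) × (Fin n × Fin n)) × S n) (fun n y => f n y.1) :=
    fun hf => hf.comp (Tm.fst Tm.id)
  have hc2 : ∀ {f : ∀ n : ℕ, ((B n × Par S n) × (Fin n × Fin n)) → S n}, Tm (E := fun n => (B n × Par S n) × (Fin n × Fin n)) f →
      Tm (E := fun n => (((B n × Par S n) × (Fin n × Fin n)) × S n) × (Fin n × Fin n)) (fun n y => f n y.1.1) :=
    fun hf => hf.comp (Tm.fst (Tm.fst Tm.id))
  have hM := defZ_qMB (E := fun n => (((B n × Par S n) × (Fin n × Fin n)) × S n) × (Fin n × Fin n)) (B := fun n => B n × (Fin n × Fin n))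
    (t := fun n b => t n b.1) ht' (T := fun n G b => PRS.del (T n G b.1) b.2) hT'
    (b := fun n y => (y.1.1.1.1, y.1.1.2)) (Tm.pair (Tm.fst (Tm.fst (Tm.fst (Tm.fst Tm.id)))) (Tm.snd (Tm.fst (Tm.fst Tm.id))))
    (hc2 T1) (hc2 T2) (hc2 T3) (hc2 T4) (hc2 T5) (hc2 T6) (hc2 T7) (z := fun n y => y.1.2) (Tm.snd (Tm.fst Tm.id))
    (u := fun n y => y.2.1) (v := fun n y => y.2.2) (Tm.fst (Tm.snd Tm.id)) (Tm.snd (Tm.snd Tm.id))
  have hD := DefZ.det (E := fun n => ((B n × Par S n) × (Fin n × Fin n)) × S n) (T := fun n => Fin n)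
    (M := fun n G X (y : ((B n × Par S n) × (Fin n × Fin n)) × S n) u v =>
      cnd (nv y.1.1.2.2.1 = 0 ∨ nv y.1.1.2.2.2.2.2.2.1 = 0) 0
        (qM (t n y.1.1.1) (nv y.1.1.2.1) (nv y.1.1.2.2.1) (nv y.1.1.2.2.2.1) (nv y.1.1.2.2.2.2.1) (nv y.1.1.2.2.2.2.2.1)
          (nv y.1.1.2.2.2.2.2.2.1) (PRS.del (T n G y.1.1.1) y.1.2) (nv y.2) u v)) (hc T7) hM
  have hx : Tm (E := fun n => ((B n × Par S n) × (Fin n × Fin n)) × S n) (F := S) (fun n y => y.2) := Tm.snd Tm.id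
  have hP := DefZ.pow (H := S) (hc T7) (DefZ.nv' (H := S) (hc T7) hx) (hc T8)
  have hI := DefZ.ite (DefP.and (DefP.nLt hx (hc T7)) (DefP.not (DefP.nZero hx))) (DefZ.mul (hc T7) hP hD) (DefZ.zero (hc T7))
  have hS := DefZ.sum (E := fun n => (B n × Par S n) × (Fin n × Fin n)) (F := S) T7
    (φ := fun n G X (e : (B n × Par S n) × (Fin n × Fin n)) (x : S n) =>
      cnd (nv x < nv e.1.2.2.2.2.2.2.2.1 ∧ ¬ nv x = 0) (((nv x : ℕ) : ℤ) ^ nv e.1.2.2.2.2.2.2.2.2 *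
        zdet (T := fun n => Fin n) (fun u v : Fin n =>
          cnd (nv e.1.2.2.1 = 0 ∨ nv e.1.2.2.2.2.2.2.1 = 0) 0
            (qM (t n e.1.1) (nv e.1.2.1) (nv e.1.2.2.1) (nv e.1.2.2.2.1) (nv e.1.2.2.2.2.1) (nv e.1.2.2.2.2.2.1)
              (nv e.1.2.2.2.2.2.2.1) (PRS.del (T n G e.1.1) e.2) (nv x) u v))) 0) hI
  have hAdj : DefP (E := fun n => (B n × Par S n) × (Fin n × Fin n)) (fun n G X y => (T n G y.1.1).Adj y.2.1 y.2.2) :=
    DefP.comp (E := fun n => (B n × Par S n) × (Fin n × Fin n)) (F := fun n => B n × (Fin n × Fin n))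
      (f := fun n y => (y.1.1, y.2)) hT (Tm.pair (Tm.fst (Tm.fst Tm.id)) (Tm.snd Tm.id))
  have hlu : DefP (E := fun n => (B n × Par S n) × (Fin n × Fin n)) (fun n G X y => (y.2.1 : ℕ) < t n y.1.1) :=
    DefP.comp (E := fun n => (B n × Par S n) × (Fin n × Fin n)) (F := fun n => B n × Fin n)
      (f := fun n y => (y.1.1, y.2.1)) ht (Tm.pair (Tm.fst (Tm.fst Tm.id)) (Tm.fst (Tm.snd Tm.id)))
  have hlv : DefP (E := fun n => (B n × Par S n) × (Fin n × Fin n)) (fun n G X y => (y.2.2 : ℕ) < t n y.1.1) :=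
    DefP.comp (E := fun n => (B n × Par S n) × (Fin n × Fin n)) (F := fun n => B n × Fin n)
      (f := fun n y => (y.1.1, y.2.2)) ht (Tm.pair (Tm.fst (Tm.fst Tm.id)) (Tm.snd (Tm.snd Tm.id)))
  refine DefP.congr (DefP.and (DefP.prS T7) (DefP.and (DefP.not (DefP.nZero T2)) (DefP.and (DefP.not (DefP.nZero T6))
    (DefP.and (DefP.and hlu (DefP.and hlv hAdj)) (DefP.not (DefZ.ndvd T7 hS))))))
    fun n G X e => ?_
  by_cases h0 : nv e.1.2.2.1 = 0 ∨ nv e.1.2.2.2.2.2.2.1 = 0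
  · constructor
    · intro h
      rcases h0 with h0 | h0
      · exact absurd h0 h.2.1
      · exact absurd h0 h.2.2.1
    · intro h
      rcases h0 with h0 | h0
      · exact absurd h0 h.2.1
      · exact absurd h0 h.2.2.1
  · have hE : ∀ x : S n, (fun u v : Fin n => cnd (nv e.1.2.2.1 = 0 ∨ nv e.1.2.2.2.2.2.2.1 = 0) 0
            (qM (t n e.1.1) (nv e.1.2.1) (nv e.1.2.2.1) (nv e.1.2.2.2.1) (nv e.1.2.2.2.2.1) (nv e.1.2.2.2.2.2.1)
              (nv e.1.2.2.2.2.2.2.1) (PRS.del (T n G e.1.1) e.2) (nv x) u v)) =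
        qM (t n e.1.1) (nv e.1.2.1) (nv e.1.2.2.1) (nv e.1.2.2.2.1) (nv e.1.2.2.2.2.1) (nv e.1.2.2.2.2.2.1)
              (nv e.1.2.2.2.2.2.2.1) (PRS.del (T n G e.1.1) e.2) (nv x) := by
      intro x
      funext u v
      exact cnd_neg h0 _ _
    have hsum : (∑ x : S n, cnd (nv x < nv e.1.2.2.2.2.2.2.2.1 ∧ ¬ nv x = 0) (((nv x : ℕ) : ℤ) ^ nv e.1.2.2.2.2.2.2.2.2 *
        zdet (T := fun n => Fin n) (fun u v : Fin n =>
          cnd (nv e.1.2.2.1 = 0 ∨ nv e.1.2.2.2.2.2.2.1 = 0) 0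
            (qM (t n e.1.1) (nv e.1.2.1) (nv e.1.2.2.1) (nv e.1.2.2.2.1) (nv e.1.2.2.2.2.1) (nv e.1.2.2.2.2.2.1)
              (nv e.1.2.2.2.2.2.2.1) (PRS.del (T n G e.1.1) e.2) (nv x) u v))) 0) =
        co (t n e.1.1) (PRS.del (T n G e.1.1) (e.2.1, e.2.2)) e.1.2 := by
      unfold co
      refine Finset.sum_congr rfl fun x _ => ?_
      rw [hE x]
    unfold edq nd
    rw [hsum]

end QIC
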