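import Pool.Agent.Lib.MP_0087d5_lcQC.A4
import Pool.Agent.Lib.MP_0087d5_lcQC.SD

/-!
# LEAF SH (medium-, five theorems): the tested graphs are definable

PROOF. `v < kk n / 2 ↔ 2 * v + 1 < kk n`: there is `w : Fin n` with `v + v + 1 = w` and `w < kk n` (`def_kk`, `DefP.exFin`, `DefP.nAdd`, `DefP.nSucc`, or `v + v = w'`, `w' < w`, and no element between; `nv_fin`; compare `XE_add` in `Pool/Agent/Lib/MP_0087d5_lcPR/XE.lean` and `def_lo` in MT/Y3).
`def_hd`: `v < kk n / 2 + d` iff `v < d` or there is `w : Fin n` with `d + w = v` and `w < kk n / 2`. `def_hl`: `d ≤ kk n / 2` iff all `w < d` satisfy `w < kk n / 2`. `def_T1`, `def_T2`: with `DefP.adj`, `DefP.eqFin`, `DefP.and`, `DefP.or`, `DefP.not` and `def_hh` (`DefP.comp`).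
-/

set_option autoImplicit false
set_option linter.all false

namespace QIC

open Finset Pool.Agent Pool.Agent.PMNC MTC

private theorem SH_nv {n : ℕ} (v : Fin n) : nv (S := fun n => Fin n) v = (v : ℕ) := by
  simp only [nv_fin]

theorem def_hh : DefP (E := fun n => Fin n) (fun n G X v => (v : ℕ) < kk n / 2) := by
  refine DefP.congr (P := fun n G X v => ∃ w : Fin n, ∃ w' : Fin n, nv (S := fun n => Fin n) v + nv (S := fun n => Fin n) v =
    nv (S := fun n => Fin n) w ∧ w < w' ∧ (w' : ℕ) < kk n) ?_ (fun n G X v => ?_)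
  · refine DefP.ex (F := fun n => Fin n) (DefP.ex (F := fun n => Fin n) (DefP.and ?_ (DefP.and ?_ ?_)))
    · refine DefP.nAdd (F := fun n => Fin n) (H := fun n => Fin n) (K := fun n => Fin n) ?_ ?_ ?_
      · exact Tm.fst (Tm.fst Tm.id)
      · exact Tm.fst (Tm.fst Tm.id)
      · exact Tm.snd (Tm.fst Tm.id)
    · exact DefP.lt (Tm.snd (Tm.fst Tm.id)) (Tm.snd Tm.id)
    · exact DefP.comp (F := fun n => Fin n) def_kk (Tm.snd Tm.id)
  · simp only [SH_nv]
    have hk := kk_le n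
    constructor
    · rintro ⟨w, w', h1, h2, h3⟩
      rw [Fin.lt_def] at h2
      omega
    · intro h
      refine ⟨⟨2 * (v : ℕ), by omega⟩, ⟨2 * (v : ℕ) + 1, by omega⟩, ?_, ?_, ?_⟩
      · simp only
        omega
      · rw [Fin.lt_def]
        simp only
        omega
      · simp only
        omega

private theorem SH_hh {E : ℕ → Type} [Env E] {f : ∀ n : ℕ, E n → Fin n} (hf : Tm (F := fun n => Fin n) f) :
    DefP (fun n G X x => ((f n x : Fin n) : ℕ) < kk n / 2) :=
  DefP.comp (F := fun n => Fin n) def_hh hf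

theorem def_hd : DefP (E := fun n => Fin n × Fin n) (fun n G X y => (y.2 : ℕ) < kk n / 2 + (y.1 : ℕ)) := by
  have h1 : Tm (E := fun n => Fin n × Fin n) (F := fun n => Fin n) (fun n y => y.1) := Tm.fst Tm.id
  have h2 : Tm (E := fun n => Fin n × Fin n) (F := fun n => Fin n) (fun n y => y.2) := Tm.snd Tm.id
  refine DefP.congr (P := fun n G X y => y.2 < y.1 ∨ ∃ w : Fin n, nv (S := fun n => Fin n) y.1 + nv (S := fun n => Fin n) w =
    nv (S := fun n => Fin n) y.2 ∧ (w : ℕ) < kk n / 2) ?_ (fun n G X y => ?_)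
  · refine DefP.or (DefP.lt h2 h1) (DefP.ex (F := fun n => Fin n) (DefP.and ?_ ?_))
    · refine DefP.nAdd (F := fun n => Fin n) (H := fun n => Fin n) (K := fun n => Fin n) ?_ ?_ ?_
      · exact Tm.fst (Tm.fst Tm.id)
      · exact Tm.snd Tm.id
      · exact Tm.snd (Tm.fst Tm.id)
    · exact SH_hh (Tm.snd Tm.id)
  · simp only [SH_nv, Fin.lt_def]
    constructor
    · rintro (h | ⟨w, h3, h4⟩) <;> omega
    · intro h
      by_cases h3 : (y.2 : ℕ) < (y.1 : ℕ)
      · exact Or.inl h3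
      · refine Or.inr ⟨⟨(y.2 : ℕ) - (y.1 : ℕ), by have := y.2.2; omega⟩, ?_, ?_⟩
        · simp only
          omega
        · simp only
          omega

theorem def_hl : DefP (E := fun n => Fin n) (fun n G X d => (d : ℕ) ≤ kk n / 2) := by
  refine DefP.congr (P := fun n G X d => ∀ w : Fin n, w < d → (w : ℕ) < kk n / 2) ?_ (fun n G X d => ?_)
  · refine DefP.all (F := fun n => Fin n) (DefP.imp ?_ ?_)
    · exact DefP.lt (Tm.snd Tm.id) (Tm.fst Tm.id)
    · exact SH_hh (Tm.snd Tm.id)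
  · simp only [Fin.lt_def]
    constructor
    · intro h
      by_contra h1
      have h2 := h ⟨kk n / 2, by have := d.2; omega⟩ (by simp only; omega)
      simp only at h2
      omega
    · intro h w hw
      omega

private theorem SH_T1 {E : ℕ → Type} [Env E] {u v : ∀ n : ℕ, E n → Fin n} (hu : Tm (F := fun n => Fin n) u)
    (hv : Tm (F := fun n => Fin n) v) : DefP (fun n G X x => (T1 (kk n / 2) G).Adj (u n x) (v n x)) := by
  refine DefP.congr (P := fun n G X x =>
    (((u n x : Fin n) : ℕ) < kk n / 2 ∧ ((v n x : Fin n) : ℕ) < kk n / 2 ∧ G.Adj (u n x) (v n x)) ∨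
    (((u n x : Fin n) : ℕ) < kk n / 2 ∧ ¬ ((v n x : Fin n) : ℕ) < kk n / 2) ∨
    (¬ ((u n x : Fin n) : ℕ) < kk n / 2 ∧ ((v n x : Fin n) : ℕ) < kk n / 2)) ?_ (fun n G X x => Iff.rfl)
  exact DefP.or (DefP.and (SH_hh hu) (DefP.and (SH_hh hv) (DefP.adj hu hv)))
    (DefP.or (DefP.and (SH_hh hu) (DefP.not (SH_hh hv))) (DefP.and (DefP.not (SH_hh hu)) (SH_hh hv)))

theorem def_T1 : DefP (E := fun n => Fin n × Fin n) (fun n G X y => (T1 (kk n / 2) G).Adj y.1 y.2) :=
  SH_T1 (Tm.fst (F := fun n => Fin n) (H := fun n => Fin n) Tm.id) (Tm.snd (F := fun n => Fin n) (H := fun n => Fin n) Tm.id)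

theorem def_T2 : DefP (E := fun n => Fin n × (Fin n × Fin n)) (fun n G X y => (T2 (kk n / 2) G y.1).Adj y.2.1 y.2.2) := by
  have v : Tm (E := fun n => Fin n × (Fin n × Fin n)) (F := fun n => Fin n) (fun n y => y.1) :=
    Tm.fst (F := fun n => Fin n) (H := fun n => Fin n × Fin n) Tm.id
  have a : Tm (E := fun n => Fin n × (Fin n × Fin n)) (F := fun n => Fin n × Fin n) (fun n y => y.2) :=
    Tm.snd (F := fun n => Fin n) (H := fun n => Fin n × Fin n) Tm.id
  have x := Tm.fst (F := fun n => Fin n) (H := fun n => Fin n) a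
  have y := Tm.snd (F := fun n => Fin n) (H := fun n => Fin n) a
  refine DefP.congr (P := fun n G X z => (T1 (kk n / 2) G).Adj z.2.1 z.2.2 ∧
    ¬ ((z.2.1 : ℕ) < kk n / 2 ∧ (z.2.2 : ℕ) < kk n / 2 ∧ (z.2.1 = z.1 ∨ z.2.2 = z.1))) ?_ (fun n G X z => Iff.rfl)
  exact DefP.and (SH_T1 x y) (DefP.not (DefP.and (SH_hh x) (DefP.and (SH_hh y) (DefP.or (DefP.eqFin x v) (DefP.eqFin y v)))))

end QIC
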