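import Pool.Agent.Lib.MP_0087d5_lcQC.SG
import Pool.Agent.Lib.MP_0087d5_lcQC.SH

/-!
# LEAF SI (medium, three theorems): the matching, the set and the decision are definable

PROOF. Model: `Pool/Agent/Lib/MP_0087d5_lcPR/XG.lean` (git show origin/main:..). `defP_edq` (leaf SG) with `B := fun n => Fin n`, `t n d = kk n / 2 + d`, `T n G d = T1 (kk n / 2) G` (`def_hd`, `def_T1` composed with the projection); with `B := fun n => Fin n × Fin n`, `t n (d, v) = kk n / 2 + d`, `T n G (d, v) = T2 (kk n / 2) G v` for `DR`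
(`def_hd`, `def_T2`); with `B := fun n => Unit`, `t = kk n / 2`, `T n G _ = G` for `def_dec` (`def_hh`, `DefP.adj`). `PMq` by `DefP.allFin`, `DefP.exFin`, `DefP.imp`, `DefP.eqFin`; `Lst` by `DefP.all (F := fun n => Fin n × Par S n)`, `DefP.lt`, `DefP.nLe`, `DefP.eqFin`, `def_hl`; `MR`, `DR`, `UR` by `DefP.ex`.
-/

set_option autoImplicit false
set_option linter.all false

namespace QIC

open Finset Pool.Agent Pool.Agent.PMNC MTC

private theorem SI_pmq {E : ℕ → Type} [Env E] {t : ∀ n : ℕ, E n → ℕ}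
    {R : ∀ n : ℕ, SimpleGraph (Fin n) → E n → Fin n → Fin n → Prop}
    (ht : DefP (E := fun n => E n × Fin n) (fun n G X y => (y.2 : ℕ) < t n y.1))
    (hR : DefP (E := fun n => E n × (Fin n × Fin n)) (fun n G X y => R n G y.1 y.2.1 y.2.2)) :
    DefP (E := E) (fun n G X x => PMq (t n x) (R n G x)) := by
  unfold PMq
  have hR2 : ∀ {H : ℕ → Type} [Env H] {e : ∀ n : ℕ, H n → E n} {u v : ∀ n : ℕ, H n → Fin n}, Tm (F := E) e →
      Tm (F := fun n => Fin n) u → Tm (F := fun n => Fin n) v → DefP (E := H) (fun n G X x => R n G (e n x) (u n x) (v n x)) := by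
    intro H _ e u v he hu hv
    exact DefP.comp (F := fun n => E n × (Fin n × Fin n)) (f := fun n x => (e n x, (u n x, v n x))) hR
      (Tm.pair (F := E) (H := fun n => Fin n × Fin n) he (Tm.pair (F := fun n => Fin n) (H := fun n => Fin n) hu hv))
  have e2 : Tm (E := fun n => (E n × Fin n) × Fin n) (F := E) (fun n y => y.1.1) := Tm.fst (Tm.fst Tm.id)
  have a2 : Tm (E := fun n => (E n × Fin n) × Fin n) (F := fun n => Fin n) (fun n y => y.1.2) := Tm.snd (Tm.fst Tm.id)
  have b2 : Tm (E := fun n => (E n × Fin n) × Fin n) (F := fun n => Fin n) (fun n y => y.2) := Tm.snd Tm.id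
  have e3 : Tm (E := fun n => ((E n × Fin n) × Fin n) × Fin n) (F := E) (fun n y => y.1.1.1) := Tm.fst (Tm.fst (Tm.fst Tm.id))
  have a3 : Tm (E := fun n => ((E n × Fin n) × Fin n) × Fin n) (F := fun n => Fin n) (fun n y => y.1.1.2) :=
    Tm.snd (Tm.fst (Tm.fst Tm.id))
  have b3 : Tm (E := fun n => ((E n × Fin n) × Fin n) × Fin n) (F := fun n => Fin n) (fun n y => y.1.2) := Tm.snd (Tm.fst Tm.id)
  have c3 : Tm (E := fun n => ((E n × Fin n) × Fin n) × Fin n) (F := fun n => Fin n) (fun n y => y.2) := Tm.snd Tm.id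
  refine DefP.and (DefP.allFin (DefP.imp ht (DefP.exFin (hR2 e2 a2 b2)))) (DefP.and ?_ ?_)
  · exact DefP.allFin (DefP.allFin (DefP.allFin (DefP.imp (hR2 e3 a3 b3) (DefP.imp (hR2 e3 a3 c3) (DefP.eqFin b3 c3)))))
  · exact DefP.allFin (DefP.allFin (DefP.imp (hR2 e2 a2 b2) (hR2 e2 b2 a2)))

section
variable {S : ℕ → Type} [Env S] [∀ n, Fintype (S n)]

private theorem SI_ed : DefP (E := fun n => (Fin n × Par S n) × (Fin n × Fin n))
    (fun n G X y => edq (kk n / 2 + (y.1.1 : ℕ)) (T1 (kk n / 2) G) y.1.2 y.2.1 y.2.2) := by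
  refine defP_edq (S := S) (B := fun n => Fin n) (t := fun n d => kk n / 2 + (d : ℕ)) (T := fun n G _ => T1 (kk n / 2) G) def_hd ?_
  exact DefP.comp (F := fun n => Fin n × Fin n) (f := fun n (y : Fin n × (Fin n × Fin n)) => y.2) def_T1 (Tm.snd Tm.id)

private theorem SI_pm {E : ℕ → Type} [Env E] {e : ∀ n : ℕ, E n → Fin n × Par S n} (he : Tm (F := fun n => Fin n × Par S n) e) :
    DefP (E := E) (fun n G X x => ((e n x).1 : ℕ) ≤ kk n / 2 ∧
      PMq (kk n / 2 + ((e n x).1 : ℕ)) (edq (kk n / 2 + ((e n x).1 : ℕ)) (T1 (kk n / 2) G) (e n x).2)) := by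
  have h1 : DefP (E := fun n => Fin n × Par S n) (fun n G X y => (y.1 : ℕ) ≤ kk n / 2) :=
    DefP.comp (F := fun n => Fin n) (f := fun n (y : Fin n × Par S n) => y.1) def_hl
      (Tm.fst (F := fun n => Fin n) (H := fun n => Par S n) Tm.id)
  have h2 : DefP (E := fun n => (Fin n × Par S n) × Fin n) (fun n G X y => (y.2 : ℕ) < kk n / 2 + (y.1.1 : ℕ)) :=
    DefP.comp (F := fun n => Fin n × Fin n) (f := fun n (y : (Fin n × Par S n) × Fin n) => (y.1.1, y.2)) def_hd
      (Tm.pair (F := fun n => Fin n) (H := fun n => Fin n)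
        (Tm.fst (F := fun n => Fin n) (H := fun n => Par S n) (Tm.fst Tm.id)) (Tm.snd Tm.id))
  have h3 : DefP (E := fun n => Fin n × Par S n) (fun n G X y => (y.1 : ℕ) ≤ kk n / 2 ∧
      PMq (kk n / 2 + (y.1 : ℕ)) (edq (kk n / 2 + (y.1 : ℕ)) (T1 (kk n / 2) G) y.2)) :=
    DefP.and h1 (SI_pmq (E := fun n => Fin n × Par S n) (t := fun n y => kk n / 2 + (y.1 : ℕ))
      (R := fun n G y => edq (kk n / 2 + (y.1 : ℕ)) (T1 (kk n / 2) G) y.2) h2 SI_ed)
  exact DefP.comp (F := fun n => Fin n × Par S n) (f := e) h3 he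

private theorem SI_lst {E : ℕ → Type} [Env E] {e : ∀ n : ℕ, E n → Fin n × Par S n} (he : Tm (F := fun n => Fin n × Par S n) e) :
    DefP (E := E) (fun n G X x => Lst (kk n / 2) G (e n x)) := by
  unfold Lst
  have f : Tm (E := fun n => E n × (Fin n × Par S n)) (F := fun n => Fin n × Par S n) (fun n y => y.2) := Tm.snd Tm.id
  have e1 : Tm (E := fun n => E n × (Fin n × Par S n)) (F := fun n => Fin n × Par S n) (fun n y => e n y.1) :=
    Tm.comp (g := e) (F := E) he (Tm.fst Tm.id)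
  have fa := Tm.fst (F := fun n => Fin n) (H := fun n => Par S n) f
  have fb := Tm.snd (F := fun n => Fin n) (H := fun n => Par S n) f
  have ea := Tm.fst (F := fun n => Fin n) (H := fun n => Par S n) e1
  have eb := Tm.snd (F := fun n => Fin n) (H := fun n => Par S n) e1
  refine DefP.and (SI_pm he) (DefP.all (F := fun n => Fin n × Par S n) (DefP.imp (SI_pm f) (DefP.or (DefP.lt ea fa)
    (DefP.and (DefP.eqFin ea fa) (DefP.nLe (F := fun n => Par S n) (H := fun n => Par S n) eb fb)))))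

private theorem SI_pm2 : DefP (E := fun n => (Fin n × Fin n) × Par S n) (fun n G X y =>
    PMq (kk n / 2 + (y.1.1 : ℕ)) (edq (kk n / 2 + (y.1.1 : ℕ)) (T2 (kk n / 2) G y.1.2) y.2)) := by
  have h1 : DefP (E := fun n => (Fin n × Fin n) × Fin n) (fun n G X y => (y.2 : ℕ) < kk n / 2 + (y.1.1 : ℕ)) :=
    DefP.comp (F := fun n => Fin n × Fin n) (f := fun n (y : (Fin n × Fin n) × Fin n) => (y.1.1, y.2)) def_hd
      (Tm.pair (F := fun n => Fin n) (H := fun n => Fin n)
        (Tm.fst (F := fun n => Fin n) (H := fun n => Fin n) (Tm.fst Tm.id)) (Tm.snd Tm.id))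
  have h2 : DefP (E := fun n => (Fin n × Fin n) × (Fin n × Fin n)) (fun n G X y => (T2 (kk n / 2) G y.1.2).Adj y.2.1 y.2.2) :=
    DefP.comp (F := fun n => Fin n × (Fin n × Fin n)) (f := fun n (y : (Fin n × Fin n) × (Fin n × Fin n)) => (y.1.2, y.2)) def_T2
      (Tm.pair (F := fun n => Fin n) (H := fun n => Fin n × Fin n)
        (Tm.snd (F := fun n => Fin n) (H := fun n => Fin n) (Tm.fst Tm.id)) (Tm.snd Tm.id))
  have h3 := defP_edq (S := S) (B := fun n => Fin n × Fin n) (t := fun n y => kk n / 2 + (y.1 : ℕ))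
    (T := fun n G y => T2 (kk n / 2) G y.2) h1 h2
  have h4 : DefP (E := fun n => ((Fin n × Fin n) × Par S n) × Fin n) (fun n G X y => (y.2 : ℕ) < kk n / 2 + (y.1.1.1 : ℕ)) :=
    DefP.comp (F := fun n => Fin n × Fin n) (f := fun n (y : ((Fin n × Fin n) × Par S n) × Fin n) => (y.1.1.1, y.2)) def_hd
      (Tm.pair (F := fun n => Fin n) (H := fun n => Fin n)
        (Tm.fst (F := fun n => Fin n) (H := fun n => Fin n) (Tm.fst (F := fun n => Fin n × Fin n) (H := fun n => Par S n) (Tm.fst Tm.id)))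
        (Tm.snd Tm.id))
  exact SI_pmq (E := fun n => (Fin n × Fin n) × Par S n) (t := fun n y => kk n / 2 + (y.1.1 : ℕ))
    (R := fun n G y => edq (kk n / 2 + (y.1.1 : ℕ)) (T2 (kk n / 2) G y.1.2) y.2) h4 h3

private theorem SI_dr {E : ℕ → Type} [Env E] {v : ∀ n : ℕ, E n → Fin n} (hv : Tm (F := fun n => Fin n) v) :
    DefP (E := E) (fun n G X x => DR S (kk n / 2) G (v n x)) := by
  unfold DR
  have f : Tm (E := fun n => E n × (Fin n × Par S n)) (F := fun n => Fin n × Par S n) (fun n y => y.2) := Tm.snd Tm.id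
  refine DefP.and (DefP.comp (F := fun n => Fin n) (f := v) def_hh hv) (DefP.ex (F := fun n => Fin n × Par S n)
    (DefP.and (SI_lst f) (DefP.ex (F := fun n => Par S n) ?_)))
  have g : Tm (E := fun n => (E n × (Fin n × Par S n)) × Par S n) (F := fun n => Fin n) (fun n y => y.1.2.1) :=
    Tm.fst (F := fun n => Fin n) (H := fun n => Par S n) (Tm.snd (Tm.fst Tm.id))
  have w : Tm (E := fun n => (E n × (Fin n × Par S n)) × Par S n) (F := fun n => Fin n) (fun n y => v n y.1.1) :=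
    Tm.comp (g := v) (F := E) hv (Tm.fst (Tm.fst Tm.id))
  have b : Tm (E := fun n => (E n × (Fin n × Par S n)) × Par S n) (F := fun n => Par S n) (fun n y => y.2) := Tm.snd Tm.id
  exact DefP.comp (F := fun n => (Fin n × Fin n) × Par S n)
    (f := fun n (y : (E n × (Fin n × Par S n)) × Par S n) => ((y.1.2.1, v n y.1.1), y.2)) SI_pm2
    (Tm.pair (F := fun n => Fin n × Fin n) (H := fun n => Par S n) (Tm.pair (F := fun n => Fin n) (H := fun n => Fin n) g w) b)

end

theorem def_MR {S : ℕ → Type} [Env S] [∀ n, Fintype (S n)] :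
    DefP (E := fun n => Fin n × Fin n) (fun n G X y => MR S (kk n / 2) G y.1 y.2) := by
  unfold MR
  have u : Tm (E := fun n => Fin n × Fin n) (F := fun n => Fin n) (fun n y => y.1) := Tm.fst Tm.id
  have v : Tm (E := fun n => Fin n × Fin n) (F := fun n => Fin n) (fun n y => y.2) := Tm.snd Tm.id
  have f : Tm (E := fun n => (Fin n × Fin n) × (Fin n × Par S n)) (F := fun n => Fin n × Par S n) (fun n y => y.2) := Tm.snd Tm.id
  have h : DefP (E := fun n => (Fin n × Fin n) × (Fin n × Par S n)) (fun n G X y =>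
      edq (kk n / 2 + (y.2.1 : ℕ)) (T1 (kk n / 2) G) y.2.2 y.1.1 y.1.2) :=
    DefP.comp (F := fun n => (Fin n × Par S n) × (Fin n × Fin n))
      (f := fun n (y : (Fin n × Fin n) × (Fin n × Par S n)) => (y.2, y.1)) SI_ed
      (Tm.pair (F := fun n => Fin n × Par S n) (H := fun n => Fin n × Fin n) f (Tm.fst Tm.id))
  exact DefP.and (DefP.comp (F := fun n => Fin n) (f := fun n (y : Fin n × Fin n) => y.1) def_hh u)
    (DefP.and (DefP.comp (F := fun n => Fin n) (f := fun n (y : Fin n × Fin n) => y.2) def_hh v)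
      (DefP.ex (F := fun n => Fin n × Par S n) (DefP.and (SI_lst f) h)))

theorem def_UR {S : ℕ → Type} [Env S] [∀ n, Fintype (S n)] :
    DefP (E := fun n => Fin n) (fun n G X v => UR S (kk n / 2) G v) := by
  unfold UR
  have v : Tm (E := fun n => Fin n) (F := fun n => Fin n) (fun n y => y) := Tm.id
  have u1 : Tm (E := fun n => Fin n × Fin n) (F := fun n => Fin n) (fun n y => y.1) := Tm.fst Tm.id
  have v1 : Tm (E := fun n => Fin n × Fin n) (F := fun n => Fin n) (fun n y => y.2) := Tm.snd Tm.id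
  exact DefP.and def_hh (DefP.and (DefP.not (SI_dr v)) (DefP.exFin (DefP.and (SI_dr v1) (DefP.adj u1 v1))))

theorem def_dec {S : ℕ → Type} [Env S] [∀ n, Fintype (S n)] :
    DefP (E := fun n => Unit) (fun n G X y => ∃ a : Par S n, PMq (kk n / 2) (edq (kk n / 2) G a)) := by
  refine DefP.ex (F := fun n => Par S n) ?_
  have h1 : DefP (E := fun n => Unit × Fin n) (fun n G X y => (y.2 : ℕ) < kk n / 2) :=
    DefP.comp (F := fun n => Fin n) (f := fun n (y : Unit × Fin n) => y.2) def_hh (Tm.snd Tm.id)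
  have h2 : DefP (E := fun n => Unit × (Fin n × Fin n)) (fun n G X y => G.Adj y.2.1 y.2.2) :=
    DefP.adj (Tm.fst (F := fun n => Fin n) (H := fun n => Fin n) (Tm.snd Tm.id))
      (Tm.snd (F := fun n => Fin n) (H := fun n => Fin n) (Tm.snd Tm.id))
  have h3 := defP_edq (S := S) (B := fun n => Unit) (t := fun n _ => kk n / 2) (T := fun n G _ => G) h1 h2
  have h4 : DefP (E := fun n => (Unit × Par S n) × Fin n) (fun n G X y => (y.2 : ℕ) < kk n / 2) :=
    DefP.comp (F := fun n => Fin n) (f := fun n (y : (Unit × Par S n) × Fin n) => y.2) def_hh (Tm.snd Tm.id)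
  exact SI_pmq (E := fun n => Unit × Par S n) (t := fun n _ => kk n / 2) (R := fun n G y => edq (kk n / 2) G y.2) h4 h3

end QIC
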