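import Pool.Agent.Lib.MP_0087d5_lcQC.SD

/-!
# LEAF SJ (medium, four theorems): the perfect matchings of the tested graphs

PROOF. Model: `Pool/Agent/Lib/MP_0087d5_lcPR/XF.lean` (git show origin/main:..). Let `E = {x : k ≤ x < k + d}`, it has `d` elements (`k + d ≤ n`). `t1_restrict`: `g u = f u` if `u < k` and `f u < k`, otherwise `g u = u`. The vertices of `E` are matched by `f` with vertices `< k` (no edges of `T1` inside `E`), so exactly `d` vertices `< k` are fixed by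
`g`, and the `n - k` vertices `≥ k`. `t1_char`: (→) by `t1_restrict`; (←) `g` maps the vertices `< k` to vertices `< k` (`Mt (cut k G)`), and has exactly `d` fixed points `< k`: choose a bijection `β` between these and `E` (`Finite.equivFin`, `Fintype.card`/`Nat.card` equal), and let `f x = g x` for `x < k` not fixed, `f x = β x` for
`x < k` fixed, `f y = β⁻¹ y` for `y ∈ E`, `f x = x` for `x ≥ k + d`. `t2_char`: `T2 k G v = T1 k G'` with `G'` the graph `G` without the edges at `v` (as `v < k`; or at least they have the same adjacency), and `Mt (cut k G') g ↔ Mt (cut k G) g ∧ g v = v`. `mis_ge`: the vertices `≥ k` are fixed by every `g` with `Mt (cut k G) g`.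
-/

set_option autoImplicit false
set_option linter.all false

namespace QIC

open Finset Pool.Agent Pool.Agent.PMNC MTC

private lemma SJ_ico {n a b : ℕ} (hb : b ≤ n) :
    (Finset.univ.filter (fun x : Fin n => a ≤ (x : ℕ) ∧ (x : ℕ) < b)).card = b - a := by
  rw [← Nat.card_Ico a b]
  refine Finset.card_bij (fun x _ => (x : ℕ)) ?_ ?_ ?_
  · intro x hx
    rw [Finset.mem_filter] at hx
    exact Finset.mem_Ico.2 hx.2
  · intro x _ y _ h
    exact Fin.ext h
  · intro y hy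
    have h1 := Finset.mem_Ico.1 hy
    exact ⟨⟨y, lt_of_lt_of_le h1.2 hb⟩, Finset.mem_filter.2 ⟨Finset.mem_univ _, h1⟩, rfl⟩

private lemma SJ_mis {n : ℕ} (g : Fin n → Fin n) : ZER.mis g = (Finset.univ.filter (fun x : Fin n => g x = x)).card := by
  classical
  unfold ZER.mis
  rw [Nat.card_eq_fintype_card, Fintype.card_subtype]

private lemma SJ_hi {n k : ℕ} {G : SimpleGraph (Fin n)} {g : Fin n → Fin n} (hg : ZER.Mt (cut k G) g) (x : Fin n)
    (hx : ¬ (x : ℕ) < k) : g x = x := by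
  by_contra h
  exact hx (hg.2 x h).2.1

private lemma SJ_lo {n k : ℕ} {G : SimpleGraph (Fin n)} {g : Fin n → Fin n} (hg : ZER.Mt (cut k G) g) (x : Fin n)
    (hx : (x : ℕ) < k) : (g x : ℕ) < k := by
  by_cases h : g x = x
  · rw [h]
    exact hx
  · exact (hg.2 x h).2.2

private lemma SJ_split {n k : ℕ} (hk : k ≤ n) (g : Fin n → Fin n) (hg : ∀ x : Fin n, ¬ (x : ℕ) < k → g x = x) :
    ZER.mis g = (n - k) + (Finset.univ.filter (fun x : Fin n => (x : ℕ) < k ∧ g x = x)).card := by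
  classical
  rw [SJ_mis, ← SJ_ico (n := n) (a := k) (b := n) le_rfl, ← Finset.card_union_of_disjoint]
  · congr 1
    ext x
    simp only [Finset.mem_filter, Finset.mem_union, Finset.mem_univ, true_and]
    constructor
    · intro h
      by_cases hx : (x : ℕ) < k
      · exact Or.inr ⟨hx, h⟩
      · exact Or.inl ⟨not_lt.1 hx, x.2⟩
    · rintro (h | h)
      · exact hg x (not_lt.2 h.1)
      · exact h.2
  · rw [Finset.disjoint_left]
    intro x h1 h2
    rw [Finset.mem_filter] at h1 h2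
    exact absurd h2.2.1 (not_lt.2 h1.2.1)

theorem t1_restrict {n k : ℕ} (G : SimpleGraph (Fin n)) {d : ℕ} (hd : k + d ≤ n) (f : Fin n → Fin n)
    (hf : PMt (k + d) (T1 k G) f) : ∃ g : Fin n → Fin n, ZER.Mt (cut k G) g ∧ ZER.mis g = (n - k) + d ∧
      ∀ u v : Fin n, (u : ℕ) < k → (v : ℕ) < k → (f u = v ↔ (g u = v ∧ u ≠ v)) := by
  classical
  obtain ⟨hinv, hlo, hhi⟩ := hf
  have hne : ∀ x : Fin n, (x : ℕ) < k + d → f x ≠ x := fun x hx h => by
    have h1 := (hlo x hx).2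
    rw [h] at h1
    exact (T1 k G).irrefl h1
  have hgk : ∀ x : Fin n, (x : ℕ) < k → (f x : ℕ) < k → G.Adj x (f x) := by
    intro x hx hfx
    rcases (hlo x (by omega)).2 with h | h | h
    · exact h.2.2
    · exact absurd hfx h.2
    · exact absurd hx h.1
  have hup : ∀ x : Fin n, ¬ (x : ℕ) < k → (x : ℕ) < k + d → (f x : ℕ) < k := by
    intro x hx hxd
    rcases (hlo x hxd).2 with h | h | h
    · exact absurd h.1 hx
    · exact absurd h.1 hx
    · exact h.2
  obtain ⟨g, hg1, hg2⟩ : ∃ g : Fin n → Fin n, (∀ u : Fin n, (u : ℕ) < k → (f u : ℕ) < k → g u = f u) ∧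
      ∀ u : Fin n, ¬ ((u : ℕ) < k ∧ (f u : ℕ) < k) → g u = u :=
    ⟨fun u => if (u : ℕ) < k ∧ (f u : ℕ) < k then f u else u, fun u h1 h2 => if_pos ⟨h1, h2⟩, fun u h => if_neg h⟩
  have hinvg : ∀ u, g (g u) = u := by
    intro u
    by_cases h : (u : ℕ) < k ∧ (f u : ℕ) < k
    · rw [hg1 u h.1 h.2, hg1 (f u) h.2 (by rw [hinv]; exact h.1), hinv]
    · rw [hg2 u h, hg2 u h]
  refine ⟨g, ⟨hinvg, ?_⟩, ?_, ?_⟩
  · intro u hu
    by_cases h : (u : ℕ) < k ∧ (f u : ℕ) < k
    · rw [hg1 u h.1 h.2]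
      exact ⟨hgk u h.1 h.2, h.1, h.2⟩
    · exact absurd (hg2 u h) hu
  · rw [SJ_split (by omega : k ≤ n) g (fun x hx => hg2 x fun h => hx h.1)]
    congr 1
    have h1 : (Finset.univ.filter (fun x : Fin n => k ≤ (x : ℕ) ∧ (x : ℕ) < k + d)).card = d := by
      rw [SJ_ico hd]
      omega
    rw [← h1]
    refine Finset.card_bij (fun x _ => f x) ?_ ?_ ?_
    · intro x hx
      rw [Finset.mem_filter] at hx ⊢
      have h2 : ¬ (f x : ℕ) < k := fun h => by
        have h3 := hx.2.2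
        rw [hg1 x hx.2.1 h] at h3
        exact hne x (by omega) h3
      exact ⟨Finset.mem_univ _, not_lt.1 h2, (hlo x (by omega)).1⟩
    · intro x _ y _ h
      rw [← hinv x, h, hinv]
    · intro y hy
      rw [Finset.mem_filter] at hy
      have h2 := hup y (not_lt.2 hy.2.1) hy.2.2
      refine ⟨f y, Finset.mem_filter.2 ⟨Finset.mem_univ _, h2, hg2 _ fun h => ?_⟩, hinv y⟩
      rw [hinv] at h
      exact absurd h.2 (not_lt.2 hy.2.1)
  · intro u v hu hv
    constructor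
    · intro h
      refine ⟨?_, ?_⟩
      · rw [hg1 u hu (by rw [h]; exact hv), h]
      · rintro rfl
        exact hne u (by omega) h
    · rintro ⟨h, h1⟩
      by_cases h2 : (u : ℕ) < k ∧ (f u : ℕ) < k
      · rw [← hg1 u h2.1 h2.2, h]
      · exact absurd ((hg2 u h2).symm.trans h) h1

theorem t1_char {n k : ℕ} (G : SimpleGraph (Fin n)) {d : ℕ} (hd : k + d ≤ n) :
    (∃ f, PMt (k + d) (T1 k G) f) ↔ ∃ g, ZER.Mt (cut k G) g ∧ ZER.mis g = (n - k) + d := by
  classical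
  constructor
  · rintro ⟨f, hf⟩
    obtain ⟨g, h1, h2, -⟩ := t1_restrict G hd f hf
    exact ⟨g, h1, h2⟩
  · rintro ⟨g, hg, hm⟩
    have hhi := SJ_hi hg
    have hlo := SJ_lo hg
    have hinv := hg.1
    have hc : (Finset.univ.filter (fun x : Fin n => (x : ℕ) < k ∧ g x = x)).card = d := by
      have h1 := SJ_split (by omega : k ≤ n) g hhi
      omega
    have hc' : (Finset.univ.filter (fun x : Fin n => k ≤ (x : ℕ) ∧ (x : ℕ) < k + d)).card = d := by
      rw [SJ_ico hd]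
      omega
    have e1 : {x : Fin n // (x : ℕ) < k ∧ g x = x} ≃ {x : Fin n // k ≤ (x : ℕ) ∧ (x : ℕ) < k + d} :=
      Fintype.equivOfCardEq (by rw [Fintype.card_subtype, Fintype.card_subtype, hc, hc'])
    obtain ⟨f, hf1, hf2, hf3⟩ : ∃ f : Fin n → Fin n, (∀ x : {x : Fin n // (x : ℕ) < k ∧ g x = x}, f x = e1 x) ∧
        (∀ y : {x : Fin n // k ≤ (x : ℕ) ∧ (x : ℕ) < k + d}, f y = e1.symm y) ∧
        ∀ x : Fin n, ¬ ((x : ℕ) < k ∧ g x = x) → ¬ (k ≤ (x : ℕ) ∧ (x : ℕ) < k + d) → f x = g x := by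
      refine ⟨fun x => if h : (x : ℕ) < k ∧ g x = x then e1 ⟨x, h⟩ else
        if h' : k ≤ (x : ℕ) ∧ (x : ℕ) < k + d then e1.symm ⟨x, h'⟩ else g x, ?_, ?_, ?_⟩
      · rintro ⟨x, hx⟩
        simp only [dif_pos hx]
      · rintro ⟨y, hy⟩
        have h1 : ¬ ((y : ℕ) < k ∧ g y = y) := fun h => absurd h.1 (not_lt.2 hy.1)
        simp only [dif_neg h1, dif_pos hy]
      · intro x h1 h2
        simp only [dif_neg h1, dif_neg h2]
    refine ⟨f, ?_, ?_, ?_⟩
    · intro x
      by_cases h1 : (x : ℕ) < k ∧ g x = x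
      · have h2 := hf1 ⟨x, h1⟩
        simp only at h2
        rw [h2, hf2, Equiv.symm_apply_apply]
      · by_cases h2 : k ≤ (x : ℕ) ∧ (x : ℕ) < k + d
        · have h3 := hf2 ⟨x, h2⟩
          simp only at h3
          rw [h3, hf1, Equiv.apply_symm_apply]
        · rw [hf3 x h1 h2]
          by_cases hx : (x : ℕ) < k
          · rw [hf3 (g x), hinv]
            · rintro ⟨-, h3⟩
              rw [hinv] at h3
              exact h1 ⟨hx, h3.symm⟩
            · rintro ⟨h3, -⟩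
              have h4 := hlo x hx
              omega
          · rw [hhi x hx, hf3 x h1 h2, hhi x hx]
    · intro x hx
      by_cases h1 : (x : ℕ) < k ∧ g x = x
      · have h2 := hf1 ⟨x, h1⟩
        simp only at h2
        rw [h2]
        have h3 := (e1 ⟨x, h1⟩).2
        exact ⟨h3.2, Or.inr (Or.inl ⟨h1.1, not_lt.2 h3.1⟩)⟩
      · by_cases h2 : k ≤ (x : ℕ) ∧ (x : ℕ) < k + d
        · have h3 := hf2 ⟨x, h2⟩
          simp only at h3
          rw [h3]
          have h4 := (e1.symm ⟨x, h2⟩).2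
          exact ⟨by omega, Or.inr (Or.inr ⟨not_lt.2 h2.1, h4.1⟩)⟩
        · have hxk : (x : ℕ) < k := by omega
          have hne : g x ≠ x := fun h => h1 ⟨hxk, h⟩
          have h3 := hg.2 x hne
          rw [hf3 x h1 h2]
          exact ⟨by have := h3.2.2; omega, Or.inl ⟨hxk, h3.2.2, h3.1⟩⟩
    · intro x hx
      rw [hf3 x (fun h => by omega) (fun h => by omega)]
      exact hhi x (by omega)

private def SJ_G' {n : ℕ} (G : SimpleGraph (Fin n)) (v : Fin n) : SimpleGraph (Fin n) where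
  Adj a b := G.Adj a b ∧ a ≠ v ∧ b ≠ v
  symm := ⟨fun _ _ h => ⟨h.1.symm, h.2.2, h.2.1⟩⟩
  loopless := ⟨fun _ h => G.irrefl h.1⟩

theorem t2_char {n k : ℕ} (G : SimpleGraph (Fin n)) {d : ℕ} (hd : k + d ≤ n) {v : Fin n} (hv : (v : ℕ) < k) :
    (∃ f, PMt (k + d) (T2 k G v) f) ↔ ∃ g, ZER.Mt (cut k G) g ∧ ZER.mis g = (n - k) + d ∧ g v = v := by
  have hT : T2 k G v = T1 k (SJ_G' G v) := by
    ext x y
    constructor
    · rintro ⟨h | h | h, h2⟩
      · refine Or.inl ⟨h.1, h.2.1, h.2.2, ?_, ?_⟩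
        · rintro rfl
          exact h2 ⟨h.1, h.2.1, Or.inl rfl⟩
        · rintro rfl
          exact h2 ⟨h.1, h.2.1, Or.inr rfl⟩
      · exact Or.inr (Or.inl h)
      · exact Or.inr (Or.inr h)
    · rintro (h | h | h)
      · refine ⟨Or.inl ⟨h.1, h.2.1, h.2.2.1⟩, ?_⟩
        rintro ⟨-, -, h4 | h4⟩
        · exact h.2.2.2.1 h4
        · exact h.2.2.2.2 h4
      · exact ⟨Or.inr (Or.inl h), fun h1 => h.2 h1.2.1⟩
      · exact ⟨Or.inr (Or.inr h), fun h1 => h.1 h1.1⟩
  rw [hT, t1_char (SJ_G' G v) hd]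
  constructor
  · rintro ⟨g, ⟨hinv, hadj⟩, hm⟩
    refine ⟨g, ⟨hinv, fun x hx => ⟨(hadj x hx).1.1, (hadj x hx).2⟩⟩, hm, ?_⟩
    by_contra h
    exact (hadj v h).1.2.1 rfl
  · rintro ⟨g, ⟨hinv, hadj⟩, hm, hgv⟩
    refine ⟨g, ⟨hinv, fun x hx => ⟨⟨(hadj x hx).1, ?_, ?_⟩, (hadj x hx).2⟩⟩, hm⟩
    · rintro rfl
      exact hx hgv
    · intro h
      have h1 : x = v := by rw [← hinv x, h, hgv]
      rw [h1] at hx
      exact hx hgv

theorem mis_ge {n k : ℕ} (hk : k ≤ n) (G : SimpleGraph (Fin n)) (g : Fin n → Fin n) (hg : ZER.Mt (cut k G) g) :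
    n - k ≤ ZER.mis g ∧ ZER.mis g ≤ n ∧ ∀ x : Fin n, ¬ (x : ℕ) < k → g x = x := by
  have hhi := SJ_hi hg
  have h1 := SJ_split hk g hhi
  have h2 := ZER.mis_add g
  exact ⟨by omega, by omega, hhi⟩

end QIC
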