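import Pool.Agent.Lib.MP_0087d5_lcQC.SJ
import Pool.Agent.Lib.MP_0087d5_lcPR.GE

/-!
# LEAF SK (medium, two theorems): correctness of the search

PROOF. Model: `Pool/Agent/Lib/MP_0087d5_lcPR/XH.lean` (git show origin/main:..). `mr_matching`: the least parameters are unique (`nv_injective`), `PMq`, and the adjacency in `T1` of two vertices `< k` is the one of `G`. `mr_main`: let `H = cut k G`, `m₀` the least value of `ZER.mis g`, `ZER.Mt H g` (the identity has `mis = n`), `m₀ = (n - k) + d₀` with `d₀ ≤ k`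
(`mis_ge`). If `PMq (k + d) (edq (k + d) (T1 k G) a)` then choosing the partners gives `f` with `PMt (k + d) (T1 k G) f` (outside of the vertices `< k + d` let `f x = x`), so `d ≥ d₀` by `t1_char` and the minimality; for `d = d₀` there are parameters by `hc` (`k + d₀ ≤ 2 * k`). So there are least parameters `(d₀, a)`, `Lst k G (d₀, a)`, and the
relation `edq ..` is a perfect matching `f`; `t1_restrict` gives `g` with `ZER.mis g = m₀`, and `MR S k G u v ↔ (g u = v ∧ u ≠ v)`; its uncovered vertices are the fixed points of `g`, `m₀` in number. `DR S k G v ↔ v < k ∧ ∃ g, Mt H g ∧ mis g = m₀ ∧ g v = v` (`t2_char`, `hc` for `T2 k G v`). The set `NA H (fun v => ∃ g, Mt H g ∧ mis g = m₀ ∧ g v = v)` is `UR S k G`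
(the edges of `H` join vertices `< k`), so `ZER.ge_all H m₀` is the statement.
-/

set_option autoImplicit false
set_option linter.all false

namespace QIC

open Finset Pool.Agent Pool.Agent.PMNC MTC

private theorem SK_uniq {S : ℕ → Type} [Env S] [∀ n, Fintype (S n)] {n k : ℕ} {G : SimpleGraph (Fin n)}
    {e e' : Fin n × Par S n} (h : Lst k G e) (h' : Lst k G e') : e = e' := by
  have h1 := h.2 e' h'.1
  have h2 := h'.2 e h.1
  have e1 : e.1 = e'.1 := by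
    rcases h1 with h1 | h1
    · rcases h2 with h2 | h2
      · exact absurd h1 (lt_asymm h2)
      · exact h2.1.symm
    · exact h1.1
  have e2 : nv e.2 = nv e'.2 := by
    rcases h1 with h1 | h1
    · exact absurd e1 (ne_of_lt h1)
    · rcases h2 with h2 | h2
      · exact absurd e1.symm (ne_of_lt h2)
      · exact le_antisymm h1.2 h2.2
  exact Prod.ext e1 (nv_injective e2)

private theorem SK_B {S : ℕ → Type} [Env S] [∀ n, Fintype (S n)] {n : ℕ} (t : ℕ) (T : SimpleGraph (Fin n)) (a : Par S n)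
    (h : PMq t (edq t T a)) : ∃ f : Fin n → Fin n, PMt t T f ∧ ∀ u v, edq t T a u v ↔ ((u : ℕ) < t ∧ f u = v) := by
  classical
  have h0 : ∀ u : Fin n, ∃ v, ((u : ℕ) < t → edq t T a u v) ∧ (¬ (u : ℕ) < t → v = u) := by
    intro u
    by_cases hu : (u : ℕ) < t
    · obtain ⟨v, hv⟩ := h.1 u hu
      exact ⟨v, fun _ => hv, fun h' => absurd hu h'⟩
    · exact ⟨u, fun h' => absurd h' hu, fun _ => rfl⟩
  choose f hf hf' using h0
  have hfv : ∀ u v, edq t T a u v ↔ ((u : ℕ) < t ∧ f u = v) := by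
    intro u v
    constructor
    · intro h1
      have hu : (u : ℕ) < t := h1.2.2.2.1.1
      exact ⟨hu, h.2.1 u _ _ (hf u hu) h1⟩
    · rintro ⟨hu, h1⟩
      rw [← h1]
      exact hf u hu
  refine ⟨f, ⟨fun x => ?_, fun x hx => ?_, fun x hx => hf' x hx⟩, hfv⟩
  · by_cases hx : (x : ℕ) < t
    · exact ((hfv _ _).1 (h.2.2 _ _ (hf x hx))).2
    · rw [hf' x hx, hf' x hx]
  · have h1 := hf x hx
    exact ⟨h1.2.2.2.1.2.1, h1.2.2.2.1.2.2⟩

private theorem SK_C {S : ℕ → Type} [Env S] [∀ n, Fintype (S n)] {n : ℕ} (t : ℕ) (T : SimpleGraph (Fin n)) (a : Par S n)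
    (f : Fin n → Fin n) (hf : PMt t T f) (h : ∀ u v, edq t T a u v ↔ ((u : ℕ) < t ∧ f u = v)) : PMq t (edq t T a) := by
  refine ⟨fun u hu => ⟨f u, (h _ _).2 ⟨hu, rfl⟩⟩, fun u v w h1 h2 => ?_, fun u v h1 => ?_⟩
  · exact ((h _ _).1 h1).2.symm.trans ((h _ _).1 h2).2
  · obtain ⟨hu, h2⟩ := (h _ _).1 h1
    refine (h _ _).2 ⟨?_, ?_⟩
    · rw [← h2]
      exact (hf.2.1 u hu).1
    · rw [← h2]
      exact hf.1 u

theorem mr_matching {S : ℕ → Type} [Env S] [∀ n, Fintype (S n)] {n : ℕ} (k : ℕ) (G : SimpleGraph (Fin n)) :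
    (∀ u v, MR S k G u v → (cut k G).Adj u v) ∧ (∀ u v, MR S k G u v → MR S k G v u) ∧
    ∀ u v w, MR S k G u v → MR S k G u w → v = w := by
  refine ⟨?_, ?_, ?_⟩
  · rintro u v ⟨hu, hv, e, -, he⟩
    have h1 := he.2.2.2.1.2.2
    refine ⟨?_, hu, hv⟩
    rcases h1 with h2 | h2 | h2
    · exact h2.2.2
    · exact absurd hv h2.2
    · exact absurd hu h2.1
  · rintro u v ⟨h1, h2, e, hL, he⟩
    exact ⟨h2, h1, e, hL, hL.1.2.2.2 _ _ he⟩
  · rintro u v w ⟨-, -, e, hL, he⟩ ⟨-, -, e', hL', he'⟩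
    have h1 := SK_uniq hL hL'
    subst h1
    exact hL.1.2.2.1 _ _ _ he he'

theorem mr_main {S : ℕ → Type} [Env S] [∀ n, Fintype (S n)] {n k : ℕ} (hn : 1 ≤ n) (hk : 2 * k ≤ n) (hc : Complete S n (2 * k))
    (G : SimpleGraph (Fin n)) :
    Nat.card {v // ZER.oddRep (cut k G) (fun w => UR S k G w) v} =
      Nat.card {w : Fin n // UR S k G w} + Nat.card {v : Fin n // ∀ w : Fin n, ¬ MR S k G v w} := by
  classical
  -- the least deficiency
  have hkn : k ≤ n := by omega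
  have hex : ∃ d, ∃ f, ZER.Mt (cut k G) f ∧ ZER.mis f = d := by
    refine ⟨_, id, ⟨fun x => rfl, fun x hx => absurd rfl hx⟩, rfl⟩
  obtain ⟨m₀, ⟨f0, hf0, hm0⟩, hmin⟩ : ∃ d, (∃ f, ZER.Mt (cut k G) f ∧ ZER.mis f = d) ∧
      ∀ f, ZER.Mt (cut k G) f → d ≤ ZER.mis f :=
    ⟨Nat.find hex, Nat.find_spec hex, fun f hf => Nat.find_min' hex ⟨f, hf, rfl⟩⟩
  obtain ⟨hm1, hm2, -⟩ := mis_ge hkn G f0 hf0
  rw [hm0] at hm1 hm2
  obtain ⟨d₀, hd₀⟩ : ∃ d₀, m₀ = (n - k) + d₀ := ⟨m₀ - (n - k), by omega⟩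
  have hdk : d₀ ≤ k := by omega
  have hd : d₀ < n := by omega
  obtain ⟨dF, hdF⟩ : ∃ dF : Fin n, (dF : ℕ) = d₀ := ⟨⟨d₀, hd⟩, rfl⟩
  have hge : ∀ (d : Fin n) (a : Par S n), (d : ℕ) ≤ k → PMq (k + (d : ℕ)) (edq (k + (d : ℕ)) (T1 k G) a) → dF ≤ d := by
    intro d a hdk' h
    obtain ⟨f, hf, -⟩ := SK_B _ _ a h
    obtain ⟨f', hf', hm'⟩ := (t1_char G (show k + (d : ℕ) ≤ n by omega)).1 ⟨f, hf⟩
    have h1 := hmin f' hf'
    rw [hm', hd₀] at h1
    have h2 : (dF : ℕ) ≤ (d : ℕ) := by omega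
    exact h2
  -- there are least parameters
  obtain ⟨a, ha, hamin⟩ : ∃ a : Par S n,
      PMq (k + (dF : ℕ)) (edq (k + (dF : ℕ)) (T1 k G) a) ∧
      ∀ a' : Par S n, PMq (k + (dF : ℕ)) (edq (k + (dF : ℕ)) (T1 k G) a') → nv a ≤ nv a' := by
    have hpm : ∃ f, PMt (k + (dF : ℕ)) (T1 k G) f :=
      (t1_char G (show k + (dF : ℕ) ≤ n by omega)).2 ⟨f0, hf0, by rw [hm0, hd₀, hdF]⟩
    obtain ⟨a1, f1, hf1, he1⟩ := hc (k + (dF : ℕ)) (by omega) (T1 k G) hpm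
    have ha1 := SK_C _ _ a1 f1 hf1 he1
    have hex2 : ∃ m, ∃ a : Par S n, PMq (k + (dF : ℕ)) (edq (k + (dF : ℕ)) (T1 k G) a) ∧ nv a = m :=
      ⟨_, a1, ha1, rfl⟩
    obtain ⟨a, ha, hav⟩ := Nat.find_spec hex2
    refine ⟨a, ha, fun a' ha' => ?_⟩
    rw [hav]
    exact Nat.find_min' hex2 ⟨a', ha', rfl⟩
  have hL : Lst k G (dF, a) := by
    refine ⟨⟨by show (dF : ℕ) ≤ k; omega, ha⟩, fun e' he' => ?_⟩
    rcases lt_or_eq_of_le (hge _ _ he'.1 he'.2) with h1 | h1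
    · exact Or.inl h1
    · refine Or.inr ⟨h1, hamin _ ?_⟩
      obtain ⟨d', a'⟩ := e'
      simp only at h1
      subst h1
      exact he'.2
  obtain ⟨f, hf, hfe⟩ := SK_B _ _ a ha
  obtain ⟨g, hg, hgm, hgf⟩ := t1_restrict G (show k + (dF : ℕ) ≤ n by omega) f hf
  have hgm0 : ZER.mis g = m₀ := by rw [hgm, hdF, hd₀]
  obtain ⟨-, -, hgk⟩ := mis_ge hkn G g hg
  have hMR : ∀ u v : Fin n, MR S k G u v ↔ (g u = v ∧ u ≠ v) := by
    intro u v
    constructor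
    · rintro ⟨hu, hv, e, he, h1⟩
      have h2 := SK_uniq he hL
      rw [h2] at h1
      exact (hgf u v hu hv).1 ((hfe _ _).1 h1).2
    · intro h1
      have hu : (u : ℕ) < k := by
        by_contra h2
        exact h1.2 (by rw [← hgk u h2]; exact h1.1)
      have hv : (v : ℕ) < k := by
        by_contra h2
        have h3 := hgk v h2
        rw [← h1.1, hg.1 u] at h3
        exact h1.2 (h3.trans h1.1)
      exact ⟨hu, hv, (dF, a), hL, (hfe _ _).2 ⟨by omega, (hgf u v hu hv).2 h1⟩⟩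
  have hDR : ∀ v : Fin n, DR S k G v ↔ ((v : ℕ) < k ∧ ∃ f, ZER.Mt (cut k G) f ∧ ZER.mis f = m₀ ∧ f v = v) := by
    intro v
    constructor
    · rintro ⟨hv, e, he, b, hb⟩
      have h2 := SK_uniq he hL
      rw [h2] at hb
      obtain ⟨f', hf', -⟩ := SK_B _ _ b hb
      obtain ⟨f'', h3, h4, h5⟩ := (t2_char G (show k + (dF : ℕ) ≤ n by omega) hv).1 ⟨f', hf'⟩
      exact ⟨hv, f'', h3, by rw [h4, hdF, hd₀], h5⟩
    · rintro ⟨hv, f', h3, h4, h5⟩
      have hpm : ∃ f, PMt (k + (dF : ℕ)) (T2 k G v) f :=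
        (t2_char G (show k + (dF : ℕ) ≤ n by omega) hv).2 ⟨f', h3, by rw [h4, hd₀, hdF], h5⟩
      obtain ⟨b, f1, hf1, he1⟩ := hc (k + (dF : ℕ)) (by omega) (T2 k G v) hpm
      exact ⟨hv, (dF, a), hL, b, SK_C _ _ b f1 hf1 he1⟩
  have hUR : (fun w : Fin n => UR S k G w) =
      ZER.NA (cut k G) (fun v => ∃ f, ZER.Mt (cut k G) f ∧ ZER.mis f = m₀ ∧ f v = v) := by
    funext w
    refine propext ⟨?_, ?_⟩
    · rintro ⟨hw, h1, u, h2, h3⟩
      exact ⟨fun h4 => h1 ((hDR w).2 ⟨hw, h4⟩), u, ((hDR u).1 h2).2, h3, hw, h2.1⟩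
    · rintro ⟨h1, u, h2, h3⟩
      exact ⟨h3.2.1, fun h4 => h1 ((hDR w).1 h4).2, u, (hDR u).2 ⟨h3.2.2, h2⟩, h3.1⟩
  have hcard : Nat.card {v : Fin n // ∀ w : Fin n, ¬ MR S k G v w} = m₀ := by
    rw [← hgm0]
    unfold ZER.mis
    have h1 : (fun v : Fin n => ∀ w : Fin n, ¬ MR S k G v w) = fun v => g v = v := by
      funext v
      refine propext ⟨fun h => ?_, fun h w h2 => ?_⟩
      · by_contra h2
        exact h (g v) ((hMR _ _).2 ⟨rfl, fun h3 => h2 h3.symm⟩)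
      · have h3 := (hMR _ _).1 h2
        exact h3.2 (h.symm.trans h3.1)
    exact congrArg (fun P : Fin n → Prop => Nat.card {v // P v}) h1
  have hmain := ZER.ge_all (cut k G) m₀ ⟨f0, hf0, hm0⟩ hmin
  rw [hcard]
  have e1 : Nat.card {w : Fin n // UR S k G w} =
      Nat.card {v // ZER.NA (cut k G) (fun v => ∃ f, ZER.Mt (cut k G) f ∧ ZER.mis f = m₀ ∧ f v = v) v} :=
    congrArg (fun P : Fin n → Prop => Nat.card {v // P v}) hUR
  rw [e1, hUR]
  exact hmain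

end QIC
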