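import Pool.Agent.Lib.MP_0087d5_lcQC.SD

/-!
# LEAF SL (medium-): the decision

PROOF. (→) from a perfect matching `M` of the induced graph the function `f x =` the partner of `x` for `x < t`, `f x = x` otherwise, satisfies `PMt t G f` (compare the beginning of the proof of `acc_complete` in `Pool/Agent/Lib/MP_0087d5_lcQC/B4.lean` or `hasPM_iff` in `Pool/Agent/Lib/MP_0087d5_lc/PM.lean`); `hc` gives `a` and `f` with
`edq t G a u v ↔ (u < t ∧ f u = v)`, and this relation satisfies `PMq` by `PMt`. (←) from `PMq t (edq t G a)`: the relation is symmetric, unique, total on the vertices `< t` and contained in the adjacency of `G` among the vertices `< t` (definition of `edq`): it is the adjacency of a perfect matching of the induced graph (the subgraph with all vertices).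
-/

set_option autoImplicit false
set_option linter.all false

namespace QIC

open Finset Pool.Agent Pool.Agent.PMNC MTC

theorem dec_iff {S : ℕ → Type} [Env S] [∀ n, Fintype (S n)] {n k t : ℕ} (ht : t ≤ k) (hc : Complete S n k) (G : SimpleGraph (Fin n)) :
    (∃ M : (G.induce {v : Fin n | (v : ℕ) < t}).Subgraph, M.IsPerfectMatching) ↔ ∃ a : Par S n, PMq t (edq t G a) := by
  constructor
  · rintro ⟨M, hM, hsp⟩
    have hex : ∀ v : {v : Fin n | (v : ℕ) < t}, ∃ w, M.Adj v w ∧ ∀ y, M.Adj v y → y = w := by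
      intro v
      obtain ⟨w, hw, hu⟩ := hM (hsp v)
      exact ⟨w, hw, hu⟩
    choose p hp hpu using hex
    have hpp : ∀ v, p (p v) = v := fun v => (hpu (p v) v (hp v).symm).symm
    have key : ∃ f : Fin n → Fin n, PMt t G f := by
      refine ⟨fun x => if h : (x : ℕ) < t then (p ⟨x, h⟩).1 else x, ?_, ?_, ?_⟩
      · intro x
        by_cases h : (x : ℕ) < t
        · have h2 : (((p ⟨x, h⟩).1 : Fin n) : ℕ) < t := (p ⟨x, h⟩).2
          have e1 : (if h : (x : ℕ) < t then (p ⟨x, h⟩).1 else x) = (p ⟨x, h⟩).1 := dif_pos h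
          show (if h' : (((if h : (x : ℕ) < t then (p ⟨x, h⟩).1 else x) : Fin n) : ℕ) < t then
            (p ⟨(if h : (x : ℕ) < t then (p ⟨x, h⟩).1 else x), h'⟩).1 else (if h : (x : ℕ) < t then (p ⟨x, h⟩).1 else x)) = x
          simp only [e1]
          rw [dif_pos h2]
          have h3 : (⟨(p ⟨x, h⟩).1, h2⟩ : {v : Fin n | (v : ℕ) < t}) = p ⟨x, h⟩ := rfl
          rw [h3, hpp]
        · have e1 : (if h : (x : ℕ) < t then (p ⟨x, h⟩).1 else x) = x := dif_neg h
          show (if h' : (((if h : (x : ℕ) < t then (p ⟨x, h⟩).1 else x) : Fin n) : ℕ) < t then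
            (p ⟨(if h : (x : ℕ) < t then (p ⟨x, h⟩).1 else x), h'⟩).1 else (if h : (x : ℕ) < t then (p ⟨x, h⟩).1 else x)) = x
          simp only [e1]
      · intro x h
        have e1 : (if h : (x : ℕ) < t then (p ⟨x, h⟩).1 else x) = (p ⟨x, h⟩).1 := dif_pos h
        show (((if h : (x : ℕ) < t then (p ⟨x, h⟩).1 else x) : Fin n) : ℕ) < t ∧ G.Adj x (if h : (x : ℕ) < t then (p ⟨x, h⟩).1 else x)
        rw [e1]
        exact ⟨(p ⟨x, h⟩).2, M.adj_sub (hp ⟨x, h⟩)⟩
      · intro x h
        exact dif_neg h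
    obtain ⟨a, f, hf, he⟩ := hc t ht G key
    refine ⟨a, ?_, ?_, ?_⟩
    · intro u hu
      exact ⟨f u, (he u (f u)).2 ⟨hu, rfl⟩⟩
    · intro u v w h1 h2
      exact ((he u v).1 h1).2.symm.trans ((he u w).1 h2).2
    · intro u v h1
      obtain ⟨h2, h3⟩ := (he u v).1 h1
      subst h3
      exact (he (f u) u).2 ⟨(hf.2.1 u h2).1, hf.1 u⟩
  · rintro ⟨a, h1, h2, h3⟩
    refine ⟨{ verts := Set.univ
              Adj := fun u v => edq t G a u.1 v.1
              adj_sub := ?_
              edge_vert := ?_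
              symm := ?_ }, ?_, ?_⟩
    · intro u v h
      exact h.2.2.2.1.2.2
    · intro u v _
      exact Set.mem_univ u
    · exact ⟨fun u v h => h3 _ _ h⟩
    · intro v _
      obtain ⟨w, hw⟩ := h1 v.1 v.2
      refine ⟨⟨w, hw.2.2.2.1.2.1⟩, hw, ?_⟩
      intro y hy
      exact Subtype.ext (h2 _ _ _ hy hw)
    · intro v
      exact Set.mem_univ v

end QIC
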