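import Pool.Agent.Lib.MP_0087d5_lcQC.SE
import Pool.Agent.Lib.MP_0087d5_lcQC.SI
import Pool.Agent.Lib.MP_0087d5_lcQC.SK
import Pool.Agent.Lib.MP_0087d5_lcQC.SL
import Pool.Agent.Lib.MP_0087d5_lcPR.XI

/-!
# Decision, search and certificates on the first `kk n / 2` vertices are in NC
-/

set_option autoImplicit false
set_option linter.all false

namespace QIC

open Finset Pool.Agent Pool.Agent.PMNC MTC ZER

/-- the matching -/
def MM (S : ℕ → Type) [Env S] [∀ n, Fintype (S n)] (n : ℕ) (G : SimpleGraph (Fin n)) : SimpleGraph (Fin n) where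
  Adj u v := MR S (kk n / 2) G u v
  symm := ⟨fun u v h => (mr_matching (kk n / 2) G).2.1 u v h⟩
  loopless := ⟨fun u h => (cut (kk n / 2) G).irrefl ((mr_matching (kk n / 2) G).1 u u h)⟩

/-- the set -/
def UU (S : ℕ → Type) [Env S] [∀ n, Fintype (S n)] (n : ℕ) (G : SimpleGraph (Fin n)) : Set (Fin n) :=
  {w | UR S (kk n / 2) G w}

private theorem odd_eq {n : ℕ} (G : SimpleGraph (Fin n)) (U : Set (Fin n)) :
    Nat.card {v // oddRep G (fun w => w ∈ U) v} = ((⊤ : G.Subgraph).deleteVerts U).coe.oddComponents.ncard := by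
  refine oc_eq G (fun w => w ∈ U) ((⊤ : G.Subgraph).deleteVerts U).coe (fun a => a.1) (fun a b hab => Subtype.ext hab) ?_ ?_
  · intro x
    constructor
    · intro h
      exact ⟨⟨x, by simpa using h⟩, rfl⟩
    · rintro ⟨a, rfl⟩ h
      have h2 := a.2
      simp only [SimpleGraph.Subgraph.deleteVerts_verts, SimpleGraph.Subgraph.verts_top, Set.mem_diff, Set.mem_univ, true_and] at h2
      exact h2 h
  · intro a b
    have ha := a.2
    have hb := b.2
    simp only [SimpleGraph.Subgraph.coe_adj, SimpleGraph.Subgraph.deleteVerts_adj, SimpleGraph.Subgraph.top_adj, SimpleGraph.Subgraph.verts_top,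
      Set.mem_univ, true_and]
    simp only [SimpleGraph.Subgraph.deleteVerts_verts, SimpleGraph.Subgraph.verts_top, Set.mem_diff, Set.mem_univ, true_and] at ha hb
    exact ⟨fun h => h.2.2, fun h => ⟨ha, hb, h⟩⟩

/-- the case without vertices `< k` -/
private theorem main_zero {S : ℕ → Type} [Env S] [∀ n, Fintype (S n)] {n k : ℕ} (hk : k = 0) (G : SimpleGraph (Fin n)) :
    Nat.card {v // oddRep (cut k G) (fun w => UR S k G w) v} =
      Nat.card {w : Fin n // UR S k G w} + Nat.card {v : Fin n // ∀ w : Fin n, ¬ MR S k G v w} := by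
  have h0 : ∀ x : Fin n, ¬ (x : ℕ) < k := fun x => by omega
  have hadj : ∀ u v, ¬ (cut k G).Adj u v := fun u v h => h0 u h.2.1
  have hU : (fun w : Fin n => UR S k G w) = fun _ => False := by
    funext w
    exact propext ⟨fun h => h0 w h.1, False.elim⟩
  have hfix : ∀ f, Mt (cut k G) f → ∀ x, f x = x := fun f hf x => by
    by_contra h
    exact hadj _ _ (hf.2 x h)
  have hcard : Nat.card {x : Fin n // True} = n := by
    rw [Nat.card_congr (Equiv.subtypeUnivEquiv fun _ => trivial), Nat.card_eq_fintype_card, Fintype.card_fin]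
  have hmis : ∀ f, Mt (cut k G) f → mis f = n := fun f hf => by
    unfold mis
    have e : (fun x : Fin n => f x = x) = fun _ => True := by
      funext x
      exact propext ⟨fun _ => trivial, fun _ => hfix f hf x⟩
    exact (congrArg (fun P : Fin n → Prop => Nat.card {v // P v}) e).trans hcard
  have hid : Mt (cut k G) id := ⟨fun _ => rfl, fun x hx => absurd rfl hx⟩
  have h1 := ge_all (cut k G) n ⟨id, hid, hmis id hid⟩ fun f hf => (hmis f hf).ge
  have hN : NA (cut k G) (fun v => ∃ f, Mt (cut k G) f ∧ mis f = n ∧ f v = v) = fun _ => False := by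
    funext w
    refine propext ⟨?_, False.elim⟩
    rintro ⟨-, u, -, h⟩
    exact hadj _ _ h
  rw [hN] at h1
  rw [hU, h1]
  have e2 : (fun v : Fin n => ∀ w : Fin n, ¬ MR S k G v w) = fun _ => True := by
    funext v
    exact propext ⟨fun _ => trivial, fun _ w h => h0 v h.1⟩
  have e3 : Nat.card {v : Fin n // ∀ w : Fin n, ¬ MR S k G v w} = n :=
    (congrArg (fun P : Fin n → Prop => Nat.card {v // P v}) e2).trans hcard
  rw [e3]

theorem full (h : ∃ C, IsoStmt C) :
    UPM.InNC (fun n G => ∃ M : (G.induce {v : Fin n | (v : ℕ) < kk n / 2}).Subgraph, M.IsPerfectMatching) ∧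
    ∃ (M : ∀ n : ℕ, SimpleGraph (Fin n) → SimpleGraph (Fin n)) (U : ∀ n : ℕ, SimpleGraph (Fin n) → Set (Fin n)),
      PRS.RelNC1 2 (fun n G x => (M n G).Adj (x 0) (x 1)) ∧ PRS.RelNC1 1 (fun n G x => x 0 ∈ U n G) ∧
      ∀ (n : ℕ) (G : SimpleGraph (Fin n)), M n G ≤ cut (kk n / 2) G ∧ (∀ u v w, (M n G).Adj u v → (M n G).Adj u w → v = w) ∧
        ((⊤ : (cut (kk n / 2) G).Subgraph).deleteVerts (U n G)).coe.oddComponents.ncard =
          (U n G).ncard + {v | ∀ w, ¬ (M n G).Adj v w}.ncard := by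
  obtain ⟨C, hC⟩ := h
  obtain ⟨S, i1, i2, hS⟩ := exists_SS (2 * C + 20)
  have hc : ∀ n, 2 ≤ n → Complete S n (kk n) := fun n hn =>
    edq_complete hC (by omega) (kk_two hn) (kk_le n) (kk_pow (by omega))
  refine ⟨PMNC.InNC.circuits (inNC_small (Q := fun n G => ∃ a : Par S n, PMq (kk n / 2) (edq (kk n / 2) G a)) def_dec ?_),
    MM S, UU S, PRS.rel2_of_defP (P := fun n G u v => MR S (kk n / 2) G u v) def_MR,
    PRS.rel1_of_defP (P := fun n G u => UR S (kk n / 2) G u) def_UR, ?_⟩
  · intro n G hn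
    exact dec_iff (Nat.div_le_self _ _) (hc n hn) G
  · intro n G
    refine ⟨fun u v h => (mr_matching (kk n / 2) G).1 u v h, fun u v w h1 h2 => (mr_matching (kk n / 2) G).2.2 u v w h1 h2, ?_⟩
    rcases Nat.lt_or_ge 1 n with hn | hn
    · rw [← odd_eq]
      have h1 : Complete S n (2 * (kk n / 2)) := fun t ht => hc n hn t (by omega)
      exact mr_main (by omega) (by have := kk_le n; omega) h1 G
    · rw [← odd_eq]
      exact main_zero (S := S) (by have := kk_le n; omega) G

end QIC
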